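import Pool.Agent.H85.CP.PI

/-!
# [H85 CP FM] Local Frobenius elements induce the Frobenius automorphisms

* `frob_match`: `Y` = the `ι b` for an integral basis `b` of `𝓞 F` (`NumberField.RingOfIntegers.basis`; finite). Let `t'` = the restriction of
  `σ` to `F`. For `x = ∑ a_b b ∈ 𝓞 F` (`a_b ∈ ℤ`): modulo elements of norm `< 1` we have `φ (ι x) = ∑ a_b φ (ι b) ≡ ∑ a_b (ι b)^ℓ ≡ (∑ a_b ι b)^ℓ` (the map
  `z ↦ z^ℓ` is additive modulo `ℓ` on integral elements: `add_pow_cong` in `H27/SU/LGcong.lean`, and `a^ℓ ≡ a` for integers `a`). So `t'` is a Frobenius at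
  the prime `P₀` of `exists_PI`. For `P ∈ Pr F ℓ` choose `g` with `g • P = P₀` (`Pr_trans`); `g t g⁻¹` is a Frobenius at `P₀` (`Fr_conj`), so it
  is `t'` (`Fr_unique`).
-/

set_option autoImplicit false

namespace Pool.Agent.H85.CP

open NumberField Pool.Agent.H27.SU

theorem frob_match (F : IntermediateField ℚ QB) [NumberField F] [IsGalois ℚ F] {ℓ : ℕ}
    [Fact ℓ.Prime] (hd : ¬ (ℓ : ℤ) ∣ discr F) (ι : QB →ₐ[ℚ] PadicAlgCl ℓ) :
    ∃ Y : Finset (PadicAlgCl ℓ), (∀ z ∈ Y, ‖z‖ ≤ 1) ∧ ∀ (φ : GG ℓ) (σ : GQ),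
      (∀ x, ι (σ x) = φ (ι x)) → (∀ z ∈ Y, ‖φ z - z ^ ℓ‖ < 1) →
      ∀ P ∈ Pr F ℓ, ∀ t : Gal(F/ℚ), IsFr ℓ P t →
        ∃ g : Gal(F/ℚ), ∀ x : F, σ (x : QB) = (((g * t * g⁻¹) x : F) : QB) := by
  classical
  have hℓ : ℓ.Prime := Fact.out
  obtain ⟨P₀, hP₀, hmem⟩ := exists_PI F ι
  let b := RingOfIntegers.basis F
  refine ⟨Finset.univ.image fun i => ι ((b i : F) : QB), ?_, ?_⟩
  · intro z hz
    obtain ⟨i, -, rfl⟩ := Finset.mem_image.1 hz
    exact norm_OF F ι (b i)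
  · intro φ σ hσ hY P hP t ht
    obtain ⟨t', ht'⟩ := exists_restr_normal F σ
    -- `t' x - x^ℓ ∈ P₀` for all `x`
    let S : AddSubgroup (𝓞 F) :=
      { carrier := {x | t' • x - x ^ ℓ ∈ P₀}
        add_mem' := by
          intro x y hx hy
          simp only [Set.mem_ofPred_eq] at hx hy ⊢
          have e : t' • (x + y) - (x + y) ^ ℓ = (t' • x - x ^ ℓ) + (t' • y - y ^ ℓ) -
              ((x + y) ^ ℓ - x ^ ℓ - y ^ ℓ) := by
            rw [smul_add]
            ring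
          rw [e]
          refine P₀.sub_mem (P₀.add_mem hx hy) ?_
          obtain ⟨c, hc⟩ := exists_add_pow_prime_eq hℓ x y
          have e2 : (x + y) ^ ℓ - x ^ ℓ - y ^ ℓ = (ℓ : 𝓞 F) * (x * y * c) := by
            rw [hc]
            ring
          rw [e2]
          exact P₀.mul_mem_right _ ((mem_Pr hℓ).1 hP₀).2
        zero_mem' := by
          simp only [Set.mem_ofPred_eq, smul_zero, zero_pow hℓ.ne_zero, sub_zero, zero_mem]
        neg_mem' := by
          intro x hx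
          simp only [Set.mem_ofPred_eq] at hx ⊢
          obtain ⟨c, hc⟩ := exists_add_pow_prime_eq hℓ x (-x)
          rw [add_neg_cancel, zero_pow hℓ.ne_zero] at hc
          have e : t' • (-x) - (-x) ^ ℓ = -(t' • x - x ^ ℓ) + (ℓ : 𝓞 F) * (x * (-x) * c) := by
            rw [smul_neg]
            linear_combination hc
          rw [e]
          exact P₀.add_mem (P₀.neg_mem hx) (P₀.mul_mem_right _ ((mem_Pr hℓ).1 hP₀).2) }
    have hS : ∀ x : 𝓞 F, x ∈ S := by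
      intro x
      rw [← b.sum_repr x]
      refine S.sum_mem fun i _ => ?_
      refine S.zsmul_mem ?_ _
      change t' • (b i) - (b i) ^ ℓ ∈ P₀
      have e : (((t' • (b i) - (b i) ^ ℓ : 𝓞 F) : F) : QB) =
        ((t' (b i : F) : F) : QB) - ((b i : F) : QB) ^ ℓ := rfl
      rw [hmem, e, map_sub, ht', hσ, map_pow]
      exact hY _ (Finset.mem_image_of_mem _ (Finset.mem_univ i))
    have h1 : IsFr ℓ P₀ t' := fun x => hS x
    obtain ⟨g, hg⟩ := Pr_trans hℓ hP hP₀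
    have h2 := Fr_conj ht g
    rw [hg] at h2
    have h3 := Fr_unique hℓ hd hP₀ h2 h1
    exact ⟨g, fun x => by rw [h3, ht']⟩

end Pool.Agent.H85.CP
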