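import Pool.Agent.H85.CP.GrB
import Pool.Agent.H85.CP.GrC

/-!
# THEOREM CP: the group part
-/

set_option autoImplicit false

namespace Pool.Agent.H85.CP

open Pool.Agent.H27.SU

theorem SqSc_conj (E : WeierstrassCurve ℚ) (r : ℕ) {φ : GQ} (h : SqSc E r φ) (g : GQ) :
    SqSc E r (g * φ * g⁻¹) :=
  SqSc_conj' E r h g

theorem SqSc_of_pow (E : WeierstrassCurve ℚ) [E.IsElliptic] (r : ℕ) [Fact r.Prime] {σ φ : GQ}
    (h : SqSc E r φ) (n : ℕ) (hx : ∀ x ∈ LX E r, σ x = (φ ^ n) x) : SqSc E r σ :=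
  SqSc_of_pow' E r h n hx

theorem notDih_surj (E : WeierstrassCurve ℚ) [E.IsElliptic] (r : ℕ) [Fact r.Prime] (hr : 3 ≤ r)
    (hs : ∀ a : Au (TT E r), ∃ σ : GQ, rhoQ E r σ = a) : NotDih E r :=
  notDih_surj' E r hr hs

theorem notDih_two (E : WeierstrassCurve ℚ) [E.IsElliptic]
    (h2 : ∀ v : TT E 2, (∀ σ : GQ, (rhoQ E 2 σ).1 v = v) → v = 0)
    (hD : 0 < E.Δ ∨ ∃ q : ℕ, q.Prime ∧ q % 4 = 1 ∧ Odd (padicValRat q E.Δ)) : NotDih E 2 :=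
  notDih_two' E h2 hD

end Pool.Agent.H85.CP
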