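import Pool.Agent.H85.CP.An1

/-!
# [H85 CP AN2] The function `h` and the difference near `2`

`qt E F ℓ s = ∏_i E i ℓ s / ∏_j F j ℓ s` (quotient of the Euler factors of the left and the right side), `hh E F X s` = product of
the `qt` over the primes `ℓ < X`.
* `hh_diff`: finite product of quotients of holomorphic functions without zeros (`dE`, `neE`).
* `hh_bd`: `prod_bd` with the constant `K' = max (K^(2 N)) K` (`‖qt‖ ≤ K^a K^b`, at most `N` factors each, `K ≥ 1` may be assumed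
  by enlarging: `‖E‖ ‖E⁻¹‖ ≥ 1` gives `K ≥ 1` if there is a factor) and, for `Re s ≥ 3/4` and `ℓ ∤ B`:
  `‖qt - 1‖ ≤ K ℓ^(-2 Re s) ≤ K ℓ^(-3/2)`.
* `diff_bd` (`Re s ≥ 7/4`): let `L Y, R Y` be the finite products over the primes `< Y` of all `E i ℓ s` and of all `F j ℓ s`.
  For `Y ≥ X`: `L Y = R Y * hh X * ∏_{X ≤ ℓ < Y} qt ℓ`. `‖R Y‖` and `‖hh X‖` are bounded by a constant (`‖F j ℓ s - 1‖ ≤ K ℓ^(-7/4)`,
  products of at most `N` such factors: `‖qt - 1‖ ≤ K'' ℓ^(-7/4)` for ALL primes, by expanding the product: if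
  `‖u_i - 1‖ ≤ t ≤ K`, `i` in a set of `≤ 2N` elements, then `‖∏ u_i - 1‖ ≤ (1 + K)^(2N) 2N t`; then `prod_one` with `X = 1` gives
  a bound for the products) and `‖∏_{X ≤ ℓ < Y} qt ℓ - 1‖ ≤ C X^(-1/2)` by `prod_one`. So `‖L Y - R Y * hh X‖ ≤ C' X^(-1/2)`, and `Y → ∞`
  (`lim`, products of the limits).
-/

set_option autoImplicit false

namespace Pool.Agent.H85.CP

open Filter Topology

noncomputable section

variable {I J : Type} [Fintype I] [Fintype J]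

/-- quotient of the Euler factors -/
def qt (E : I → ℕ → ℂ → ℂ) (F : J → ℕ → ℂ → ℂ) (ℓ : ℕ) (s : ℂ) : ℂ :=
  (∏ i, E i ℓ s) / ∏ j, F j ℓ s

/-- product of the quotients over the primes below `X` -/
def hh (E : I → ℕ → ℂ → ℂ) (F : J → ℕ → ℂ → ℂ) (X : ℕ) (s : ℂ) : ℂ :=
  ∏ ℓ ∈ (Finset.range X).filter Nat.Prime, qt E F ℓ s

theorem hh_diff {n : ℕ} {K Q : ℝ} {f Z : I → ℂ → ℂ} {g W : J → ℂ → ℂ} {E : I → ℕ → ℂ → ℂ}
    {F : J → ℕ → ℂ → ℂ} (hE : ∀ i, ZD n K Q (f i) (E i) (Z i)) (hF : ∀ j, ZD n K Q (g j) (F j) (W j))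
    (X : ℕ) : DifferentiableOn ℂ (hh E F X) {s | 0 < s.re} := by
  unfold hh
  refine DifferentiableOn.fun_finsetProd fun ℓ hℓ => ?_
  have hp : ℓ.Prime := (Finset.mem_filter.1 hℓ).2
  unfold qt
  refine DifferentiableOn.div (DifferentiableOn.fun_finsetProd fun i _ => (hE i).dE ℓ hp)
    (DifferentiableOn.fun_finsetProd fun j _ => (hF j).dE ℓ hp) fun s hs => ?_
  exact Finset.prod_ne_zero_iff.2 fun j _ => (hF j).neE ℓ hp s hs

private lemma prod_le_pow {ι : Type} [Fintype ι] (u : ι → ℂ) (M : ℝ) (hM : 1 ≤ M) (N : ℕ)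
    (hN : Fintype.card ι ≤ N) (hu : ∀ i, ‖u i‖ ≤ M) : ‖∏ i, u i‖ ≤ M ^ N := by
  rw [norm_prod]
  calc ∏ i, ‖u i‖ ≤ ∏ _i : ι, M := Finset.prod_le_prod (fun i _ => norm_nonneg _) (fun i _ => hu i)
    _ = M ^ Fintype.card ι := by rw [Finset.prod_const, Finset.card_univ]
    _ ≤ M ^ N := pow_le_pow_right₀ hM hN

theorem hh_bd (N : ℕ) (K : ℝ) : ∃ (C : ℝ) (a : ℕ), 0 < C ∧ ∀ (n : ℕ) (Q : ℝ) (I J : Type) [Fintype I]
    [Fintype J] (f Z : I → ℂ → ℂ) (g W : J → ℂ → ℂ) (E : I → ℕ → ℂ → ℂ) (F : J → ℕ → ℂ → ℂ),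
    Fintype.card I ≤ N → Fintype.card J ≤ N → (∀ i, ZD n K Q (f i) (E i) (Z i)) →
    (∀ j, ZD n K Q (g j) (F j) (W j)) → ∀ (B X : ℕ), 0 < B →
    (∀ ℓ : ℕ, ℓ.Prime → ℓ < X → ¬ ℓ ∣ B → ∀ s : ℂ, 1 / 2 ≤ s.re →
      ‖qt E F ℓ s - 1‖ ≤ K * (ℓ : ℝ) ^ (-2 * s.re)) →
    ∀ s : ℂ, 3 / 4 ≤ s.re → ‖hh E F X s‖ ≤ C * (B : ℝ) ^ a := by
  set M : ℝ := max K 1 with hM
  have hM1 : 1 ≤ M := le_max_right _ _
  have hKM : K ≤ M := le_max_left _ _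
  obtain ⟨C, a, hC, h⟩ := prod_bd (M ^ (2 * N + 1))
  refine ⟨C, a, hC, ?_⟩
  intro n Q I J _ _ f Z g W E F hI hJ hE hF B X hB hq s hs
  have hs2 : 1 / 2 ≤ s.re := by linarith
  unfold hh
  refine h B hB (fun ℓ => qt E F ℓ s) _ (fun ℓ hℓ => (Finset.mem_filter.1 hℓ).2) ?_ ?_
  · intro ℓ hℓ
    have hp : ℓ.Prime := (Finset.mem_filter.1 hℓ).2
    unfold qt
    rw [div_eq_mul_inv, norm_mul, ← Finset.prod_inv_distrib]
    have h1 : ‖∏ i, E i ℓ s‖ ≤ M ^ N :=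
      prod_le_pow _ M hM1 N hI fun i => ((hE i).bdE ℓ hp s hs2).1.trans hKM
    have h2 : ‖∏ j, (F j ℓ s)⁻¹‖ ≤ M ^ N :=
      prod_le_pow _ M hM1 N hJ fun j => ((hF j).bdE ℓ hp s hs2).2.1.trans hKM
    calc ‖∏ i, E i ℓ s‖ * ‖∏ j, (F j ℓ s)⁻¹‖ ≤ M ^ N * M ^ N :=
          mul_le_mul h1 h2 (norm_nonneg _) (by positivity)
      _ = M ^ (2 * N) := by rw [← pow_add]; ring_nf
      _ ≤ M ^ (2 * N + 1) := pow_le_pow_right₀ hM1 (by omega)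
  · intro ℓ hℓ hB'
    have hp : ℓ.Prime := (Finset.mem_filter.1 hℓ).2
    have hX : ℓ < X := Finset.mem_range.1 (Finset.mem_filter.1 hℓ).1
    refine (hq ℓ hp hX hB' s hs2).trans ?_
    have h1 : (1 : ℝ) ≤ ℓ := by exact_mod_cast hp.one_lt.le
    have h3 : K ≤ M ^ (2 * N + 1) := hKM.trans (le_self_pow₀ hM1 (by omega))
    have h4 : (ℓ : ℝ) ^ (-2 * s.re) ≤ (ℓ : ℝ) ^ (-(3 / 2) : ℝ) :=
      Real.rpow_le_rpow_of_exponent_le h1 (by linarith)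
    have h5 : 0 ≤ (ℓ : ℝ) ^ (-2 * s.re) := by positivity
    calc K * (ℓ : ℝ) ^ (-2 * s.re) ≤ M ^ (2 * N + 1) * (ℓ : ℝ) ^ (-2 * s.re) :=
          mul_le_mul_of_nonneg_right h3 h5
      _ ≤ _ := mul_le_mul_of_nonneg_left h4 (by positivity)

private lemma prod_near {ι : Type} [Fintype ι] (u : ι → ℂ) (M t : ℝ) (ht : 0 ≤ t) (htM : t ≤ M)
    (N : ℕ) (hN : Fintype.card ι ≤ N) (hu : ∀ i, ‖u i - 1‖ ≤ t) :
    ‖∏ i, u i - 1‖ ≤ (N * Real.exp (N * M)) * t := by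
  have h1 := Finset.norm_prod_one_add_sub_one_le (Finset.univ : Finset ι) (fun i => u i - 1)
  simp only [add_sub_cancel] at h1
  refine h1.trans ?_
  have h2 : ∑ i : ι, ‖u i - 1‖ ≤ N * t := by
    calc ∑ i : ι, ‖u i - 1‖ ≤ ∑ _i : ι, t := Finset.sum_le_sum fun i _ => hu i
      _ = Fintype.card ι * t := by rw [Finset.sum_const, Finset.card_univ, nsmul_eq_mul]
      _ ≤ N * t := mul_le_mul_of_nonneg_right (by exact_mod_cast hN) ht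
  have h3 : Real.exp (∑ i : ι, ‖u i - 1‖) - 1 ≤ Real.exp (N * t) - 1 := by
    have := Real.exp_le_exp.2 h2
    linarith
  refine h3.trans ?_
  have hNt : (0 : ℝ) ≤ N * t := by positivity
  have h4 : Real.exp (N * t) - 1 ≤ (N * t) * Real.exp (N * t) := by
    have h5 := Real.add_one_le_exp (-(N * t))
    have h6 : Real.exp (N * t) * Real.exp (-(N * t)) = 1 := by
      rw [← Real.exp_add, add_neg_cancel, Real.exp_zero]
    have h7 := Real.exp_pos (N * t)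
    nlinarith
  refine h4.trans ?_
  have h8 : Real.exp (N * t) ≤ Real.exp (N * M) :=
    Real.exp_le_exp.2 (mul_le_mul_of_nonneg_left htM (Nat.cast_nonneg _))
  calc (N * t) * Real.exp (N * t) ≤ (N * t) * Real.exp (N * M) :=
        mul_le_mul_of_nonneg_left h8 hNt
    _ = _ := by ring

theorem diff_bd (N : ℕ) (K : ℝ) : ∃ C : ℝ, 0 < C ∧ ∀ (n : ℕ) (Q : ℝ) (I J : Type) [Fintype I]
    [Fintype J] (f Z : I → ℂ → ℂ) (g W : J → ℂ → ℂ) (E : I → ℕ → ℂ → ℂ) (F : J → ℕ → ℂ → ℂ),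
    Fintype.card I ≤ N → Fintype.card J ≤ N → (∀ i, ZD n K Q (f i) (E i) (Z i)) →
    (∀ j, ZD n K Q (g j) (F j) (W j)) → ∀ X : ℕ, 0 < X → ∀ s : ℂ, 7 / 4 ≤ s.re →
    ‖∏ i, f i s - (∏ j, g j s) * hh E F X s‖ ≤ C * (X : ℝ) ^ (-(1 / 2) : ℝ) := by
  set M : ℝ := max K 1 with hM
  have hM1 : 1 ≤ M := le_max_right _ _
  have hKM : K ≤ M := le_max_left _ _
  set M2 : ℝ := ((2 * N : ℕ) : ℝ) * Real.exp (((2 * N : ℕ) : ℝ) * M) * M with hM2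
  obtain ⟨C, hC, h⟩ := prod_one M2
  refine ⟨(1 + C) ^ 2 * C, by positivity, ?_⟩
  intro n Q I J _ _ f Z g W E F hI hJ hE hF X hX s hs
  have hs2 : 1 / 2 ≤ s.re := by linarith
  have hs1 : 1 < s.re := by linarith
  -- closeness of the factors
  have hcl : ∀ ℓ : ℕ, ℓ.Prime → ∀ v : ℂ, ‖v - 1‖ ≤ K * (ℓ : ℝ) ^ (-s.re) →
      ‖v - 1‖ ≤ M * (ℓ : ℝ) ^ (-(7 / 4) : ℝ) := by
    intro ℓ hp v hv
    have h1 : (1 : ℝ) ≤ ℓ := by exact_mod_cast hp.one_lt.le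
    have h4 : (ℓ : ℝ) ^ (-s.re) ≤ (ℓ : ℝ) ^ (-(7 / 4) : ℝ) :=
      Real.rpow_le_rpow_of_exponent_le h1 (by linarith)
    have h5 : 0 ≤ (ℓ : ℝ) ^ (-s.re) := by positivity
    calc ‖v - 1‖ ≤ K * (ℓ : ℝ) ^ (-s.re) := hv
      _ ≤ M * (ℓ : ℝ) ^ (-s.re) := mul_le_mul_of_nonneg_right hKM h5
      _ ≤ _ := mul_le_mul_of_nonneg_left h4 (by positivity)
  have htM : ∀ ℓ : ℕ, ℓ.Prime → M * (ℓ : ℝ) ^ (-(7 / 4) : ℝ) ≤ M := by
    intro ℓ hp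
    have h1 : (1 : ℝ) ≤ ℓ := by exact_mod_cast hp.one_lt.le
    have h2 : (ℓ : ℝ) ^ (-(7 / 4) : ℝ) ≤ 1 := Real.rpow_le_one_of_one_le_of_nonpos h1 (by norm_num)
    calc M * (ℓ : ℝ) ^ (-(7 / 4) : ℝ) ≤ M * 1 := mul_le_mul_of_nonneg_left h2 (by positivity)
      _ = M := mul_one _
  have hqt : ∀ ℓ : ℕ, ℓ.Prime → ‖qt E F ℓ s - 1‖ ≤ M2 * (ℓ : ℝ) ^ (-(7 / 4) : ℝ) := by
    intro ℓ hp
    have h1 : qt E F ℓ s = ∏ k : I ⊕ J, Sum.elim (fun i => E i ℓ s) (fun j => (F j ℓ s)⁻¹) k := by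
      rw [Fintype.prod_sum_type]
      simp only [Sum.elim_inl, Sum.elim_inr]
      unfold qt
      rw [div_eq_mul_inv, Finset.prod_inv_distrib]
    rw [h1]
    have h2 := prod_near (Sum.elim (fun i => E i ℓ s) (fun j => (F j ℓ s)⁻¹)) M
      (M * (ℓ : ℝ) ^ (-(7 / 4) : ℝ)) (by positivity) (htM ℓ hp) (2 * N)
      (by rw [Fintype.card_sum]; omega) (by
        rintro (i | j)
        · exact hcl ℓ hp _ ((hE i).bdE ℓ hp s hs2).2.2.1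
        · exact hcl ℓ hp _ ((hF j).bdE ℓ hp s hs2).2.2.2)
    refine h2.trans (le_of_eq ?_)
    rw [hM2]; ring
  have hF1 : ∀ ℓ : ℕ, ℓ.Prime → ‖∏ j, F j ℓ s - 1‖ ≤ M2 * (ℓ : ℝ) ^ (-(7 / 4) : ℝ) := by
    intro ℓ hp
    have h2 := prod_near (fun j => F j ℓ s) M
      (M * (ℓ : ℝ) ^ (-(7 / 4) : ℝ)) (by positivity) (htM ℓ hp) (2 * N)
      (by omega) (fun j => hcl ℓ hp _ ((hF j).bdE ℓ hp s hs2).2.2.1)
    refine h2.trans (le_of_eq ?_)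
    rw [hM2]; ring
  -- bounds for the products
  have hone : ∀ z : ℂ, ‖z - 1‖ ≤ C → ‖z‖ ≤ 1 + C := by
    intro z hz
    calc ‖z‖ = ‖1 + (z - 1)‖ := by ring_nf
      _ ≤ ‖(1 : ℂ)‖ + ‖z - 1‖ := norm_add_le _ _
      _ ≤ 1 + C := by rw [norm_one]; linarith
  have hR : ∀ Y : ℕ, ‖∏ ℓ ∈ (Finset.range Y).filter Nat.Prime, ∏ j, F j ℓ s‖ ≤ 1 + C := by
    intro Y
    refine hone _ ?_
    have := h 1 one_pos (fun ℓ => ∏ j, F j ℓ s) ((Finset.range Y).filter Nat.Prime)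
      (fun ℓ hℓ => (Finset.mem_filter.1 hℓ).2.one_lt.le)
      (fun ℓ hℓ => hF1 ℓ (Finset.mem_filter.1 hℓ).2)
    simpa using this
  have hH : ‖hh E F X s‖ ≤ 1 + C := by
    refine hone _ ?_
    have := h 1 one_pos (fun ℓ => qt E F ℓ s) ((Finset.range X).filter Nat.Prime)
      (fun ℓ hℓ => (Finset.mem_filter.1 hℓ).2.one_lt.le)
      (fun ℓ hℓ => hqt ℓ (Finset.mem_filter.1 hℓ).2)
    simpa [hh] using this
  have hkey : ∀ Y : ℕ, X ≤ Y →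
      ‖∏ ℓ ∈ (Finset.range Y).filter Nat.Prime, ∏ i, E i ℓ s -
        (∏ ℓ ∈ (Finset.range Y).filter Nat.Prime, ∏ j, F j ℓ s) * hh E F X s‖ ≤
      (1 + C) ^ 2 * C * (X : ℝ) ^ (-(1 / 2) : ℝ) := by
    intro Y hY
    have h1 : ∏ ℓ ∈ (Finset.range Y).filter Nat.Prime, ∏ i, E i ℓ s =
        (∏ ℓ ∈ (Finset.range Y).filter Nat.Prime, ∏ j, F j ℓ s) *
          ∏ ℓ ∈ (Finset.range Y).filter Nat.Prime, qt E F ℓ s := by
      rw [← Finset.prod_mul_distrib]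
      refine Finset.prod_congr rfl fun ℓ hℓ => ?_
      have hne : ∏ j, F j ℓ s ≠ 0 := Finset.prod_ne_zero_iff.2 fun j _ =>
        (hF j).neE ℓ (Finset.mem_filter.1 hℓ).2 s (by linarith)
      unfold qt
      field_simp
    have h2 : ∏ ℓ ∈ (Finset.range Y).filter Nat.Prime, qt E F ℓ s =
        hh E F X s * ∏ ℓ ∈ (Finset.Ico X Y).filter Nat.Prime, qt E F ℓ s := by
      unfold hh
      rw [← Finset.prod_union]
      · congr 1
        ext ℓ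
        simp only [Finset.mem_filter, Finset.mem_range, Finset.mem_union, Finset.mem_Ico]
        constructor
        · rintro ⟨h3, h4⟩
          by_cases h5 : ℓ < X
          · exact Or.inl ⟨h5, h4⟩
          · exact Or.inr ⟨⟨by omega, h3⟩, h4⟩
        · rintro (⟨h3, h4⟩ | ⟨⟨h3, h5⟩, h4⟩)
          · exact ⟨by omega, h4⟩
          · exact ⟨h5, h4⟩
      · rw [Finset.disjoint_left]
        intro ℓ h3 h4
        simp only [Finset.mem_filter, Finset.mem_range, Finset.mem_Ico] at h3 h4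
        omega
    rw [h1, h2]
    have h3 := h X hX (fun ℓ => qt E F ℓ s) ((Finset.Ico X Y).filter Nat.Prime)
      (fun ℓ hℓ => (Finset.mem_Ico.1 (Finset.mem_filter.1 hℓ).1).1)
      (fun ℓ hℓ => hqt ℓ (Finset.mem_filter.1 hℓ).2)
    have h4 : (∏ ℓ ∈ (Finset.range Y).filter Nat.Prime, ∏ j, F j ℓ s) *
          (hh E F X s * ∏ ℓ ∈ (Finset.Ico X Y).filter Nat.Prime, qt E F ℓ s) -
        (∏ ℓ ∈ (Finset.range Y).filter Nat.Prime, ∏ j, F j ℓ s) * hh E F X s =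
        (∏ ℓ ∈ (Finset.range Y).filter Nat.Prime, ∏ j, F j ℓ s) * hh E F X s *
          (∏ ℓ ∈ (Finset.Ico X Y).filter Nat.Prime, qt E F ℓ s - 1) := by ring
    rw [h4, norm_mul, norm_mul]
    calc ‖∏ ℓ ∈ (Finset.range Y).filter Nat.Prime, ∏ j, F j ℓ s‖ * ‖hh E F X s‖ *
          ‖∏ ℓ ∈ (Finset.Ico X Y).filter Nat.Prime, qt E F ℓ s - 1‖
        ≤ ((1 + C) * (1 + C)) * (C * (X : ℝ) ^ (-(1 / 2) : ℝ)) :=
          mul_le_mul (mul_le_mul (hR Y) hH (norm_nonneg _) (by positivity)) h3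
            (norm_nonneg _) (by positivity)
      _ = _ := by ring
  -- the limit
  have hL : Tendsto (fun Y : ℕ => ∏ ℓ ∈ (Finset.range Y).filter Nat.Prime, ∏ i, E i ℓ s) atTop
      (𝓝 (∏ i, f i s)) := by
    have h1 : (fun Y : ℕ => ∏ ℓ ∈ (Finset.range Y).filter Nat.Prime, ∏ i, E i ℓ s) =
        fun Y : ℕ => ∏ i, ∏ ℓ ∈ (Finset.range Y).filter Nat.Prime, E i ℓ s := by
      funext Y
      exact Finset.prod_comm
    rw [h1]
    exact tendsto_finsetProd _ fun i _ => (hE i).lim s hs1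
  have hRt : Tendsto (fun Y : ℕ => ∏ ℓ ∈ (Finset.range Y).filter Nat.Prime, ∏ j, F j ℓ s) atTop
      (𝓝 (∏ j, g j s)) := by
    have h1 : (fun Y : ℕ => ∏ ℓ ∈ (Finset.range Y).filter Nat.Prime, ∏ j, F j ℓ s) =
        fun Y : ℕ => ∏ j, ∏ ℓ ∈ (Finset.range Y).filter Nat.Prime, F j ℓ s := by
      funext Y
      exact Finset.prod_comm
    rw [h1]
    exact tendsto_finsetProd _ fun j _ => (hF j).lim s hs1
  exact le_of_tendsto ((hL.sub (hRt.mul_const _)).norm)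
    (eventually_atTop.2 ⟨X, fun Y hY => hkey Y hY⟩)

end

end Pool.Agent.H85.CP
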