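import Pool.Agent.H85.CP.Cnt
import Pool.Agent.H85.CP.An2

/-!
# [H85 CP EFS] Euler factors without the primes of degree one

* `EF_split`: `EF k ℓ s` is the product over `v ∈ Pr k ℓ` of `(1 - (N v)^(-s))⁻¹`; the `aa k ℓ` factors with `N v = ℓ` give
  `((1 - ℓ^(-s))⁻¹)^(aa k ℓ)`; `R` = the product of the others, at most `n` factors (`card_Pr`), `N v = ℓ^f`, `f ≥ 2` (`norm_Pr`), so
  `‖(N v)^(-s)‖ ≤ ℓ^(-2 Re s) ≤ 1/2` for `Re s ≥ 1/2`, and each factor `u` has `‖u‖, ‖u⁻¹‖ ≤ 2`, `‖u - 1‖, ‖u⁻¹ - 1‖ ≤ 2 ℓ^(-2 Re s)`. Product of at most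
  `n` of them: `‖∏ u - 1‖ ≤ n 2^n · 2 ℓ^(-2 Re s)`. `K = 2^(n+1) (n+1)`.
* `qt_close`: in `qt` the powers of `(1 - ℓ^(-s))⁻¹` cancel (`1 - ℓ^(-s) ≠ 0`), so `qt = ∏_i R_i * ∏_j R'_j⁻¹`, at most `2 N` factors `w` with
  `‖w - 1‖ ≤ K ℓ^(-2 Re s) ≤ K`, `‖w‖ ≤ 1 + K`: `‖∏ w - 1‖ ≤ 2 N (1 + K)^(2 N) K ℓ^(-2 Re s)`.
-/

set_option autoImplicit false

namespace Pool.Agent.H85.CP

open NumberField

private lemma efs_near {ι : Type} (A : Finset ι) (u : ι → ℂ) (M t : ℝ) (ht : 0 ≤ t) (htM : t ≤ M)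
    (N : ℕ) (hN : A.card ≤ N) (hu : ∀ i ∈ A, ‖u i - 1‖ ≤ t) :
    ‖∏ i ∈ A, u i - 1‖ ≤ (N * Real.exp (N * M)) * t := by
  have h1 := Finset.norm_prod_one_add_sub_one_le A (fun i => u i - 1)
  simp only [add_sub_cancel] at h1
  refine h1.trans ?_
  have h2 : ∑ i ∈ A, ‖u i - 1‖ ≤ N * t := by
    calc ∑ i ∈ A, ‖u i - 1‖ ≤ ∑ _i ∈ A, t := Finset.sum_le_sum fun i hi => hu i hi
      _ = A.card * t := by rw [Finset.sum_const, nsmul_eq_mul]
      _ ≤ N * t := mul_le_mul_of_nonneg_right (by exact_mod_cast hN) ht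
  have h3 : Real.exp (∑ i ∈ A, ‖u i - 1‖) - 1 ≤ Real.exp (N * t) - 1 := by
    have := Real.exp_le_exp.2 h2
    linarith
  refine h3.trans ?_
  have hNt : (0 : ℝ) ≤ N * t := by positivity
  have h4 : Real.exp (N * t) - 1 ≤ (N * t) * Real.exp (N * t) := by
    have h5 := Real.add_one_le_exp (-(N * t))
    have h6 : Real.exp (N * t) * Real.exp (-(N * t)) = 1 := by
      rw [← Real.exp_add, add_neg_cancel, Real.exp_zero]
    have h7 := Real.exp_pos (N * t)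
    nlinarith
  refine h4.trans ?_
  have h8 : Real.exp (N * t) ≤ Real.exp (N * M) :=
    Real.exp_le_exp.2 (mul_le_mul_of_nonneg_left htM (Nat.cast_nonneg _))
  calc (N * t) * Real.exp (N * t) ≤ (N * t) * Real.exp (N * M) :=
        mul_le_mul_of_nonneg_left h8 hNt
    _ = _ := by ring

private lemma efs_half {ℓ : ℕ} (hℓ : ℓ.Prime) {s : ℂ} (hs : 1 / 2 ≤ s.re) :
    (ℓ : ℝ) ^ (-2 * s.re) ≤ 1 / 2 := by
  have h2 : (2 : ℝ) ≤ ℓ := by exact_mod_cast hℓ.two_le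
  calc (ℓ : ℝ) ^ (-2 * s.re) ≤ (ℓ : ℝ) ^ (-1 : ℝ) :=
        Real.rpow_le_rpow_of_exponent_le (by linarith) (by linarith)
    _ = 1 / ℓ := by rw [Real.rpow_neg_one, one_div]
    _ ≤ 1 / 2 := by gcongr

private lemma efs_norm {k : Type} [Field k] [NumberField k] {ℓ : ℕ} (hℓ : ℓ.Prime)
    {v : Ideal (𝓞 k)} (hv : v ∈ Pr k ℓ) (hN : Ideal.absNorm v ≠ ℓ) {s : ℂ} (hs : 1 / 2 ≤ s.re) :
    ‖(Ideal.absNorm v : ℂ) ^ (-s)‖ ≤ (ℓ : ℝ) ^ (-2 * s.re) := by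
  obtain ⟨f, hf, h1⟩ := norm_Pr hℓ hv
  have hf2 : 2 ≤ f := by
    rcases Nat.lt_or_ge f 2 with h2 | h2
    · exfalso
      have h3 : f = 1 := by omega
      rw [h3, pow_one] at h1
      exact hN h1
    · exact h2
  have hpos : 0 < Ideal.absNorm v := by
    rw [h1]
    exact pow_pos hℓ.pos f
  rw [Complex.norm_natCast_cpow_of_pos hpos, Complex.neg_re, h1, Nat.cast_pow,
    ← Real.rpow_natCast, ← Real.rpow_mul (Nat.cast_nonneg _)]
  have h2 : (1 : ℝ) ≤ ℓ := by exact_mod_cast hℓ.one_lt.le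
  refine Real.rpow_le_rpow_of_exponent_le h2 ?_
  have h3 : (2 : ℝ) ≤ f := by exact_mod_cast hf2
  nlinarith

theorem EF_split (n : ℕ) : ∃ K : ℝ, 1 ≤ K ∧ ∀ (k : Type) [Field k] [NumberField k],
    Module.finrank ℚ k ≤ n → ∀ ℓ : ℕ, ℓ.Prime → ∀ s : ℂ, 1 / 2 ≤ s.re →
    ∃ R : ℂ, R ≠ 0 ∧ EF k ℓ s = ((1 - (ℓ : ℂ) ^ (-s))⁻¹) ^ (aa k ℓ) * R ∧
      ‖R - 1‖ ≤ K * (ℓ : ℝ) ^ (-2 * s.re) ∧ ‖R⁻¹ - 1‖ ≤ K * (ℓ : ℝ) ^ (-2 * s.re) := by
  classical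
  refine ⟨max 1 (n * Real.exp (n * 1) * 2), le_max_left _ _, ?_⟩
  intro k _ _ hk ℓ hℓ s hs
  set t : ℝ := (ℓ : ℝ) ^ (-2 * s.re) with ht
  have ht0 : 0 ≤ t := by positivity
  have ht2 : t ≤ 1 / 2 := efs_half hℓ hs
  have hz : ∀ v ∈ (Pr k ℓ).filter (fun v => ¬ Ideal.absNorm v = ℓ),
      ‖(Ideal.absNorm v : ℂ) ^ (-s)‖ ≤ t := by
    intro v hv
    obtain ⟨h1, h2⟩ := Finset.mem_filter.1 hv
    exact efs_norm hℓ h1 h2 hs
  have hne : ∀ v ∈ (Pr k ℓ).filter (fun v => ¬ Ideal.absNorm v = ℓ),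
      1 - (Ideal.absNorm v : ℂ) ^ (-s) ≠ 0 := by
    intro v hv h1
    have h2 := hz v hv
    rw [← sub_eq_zero.1 h1, norm_one] at h2
    linarith
  have hcard : ((Pr k ℓ).filter (fun v => ¬ Ideal.absNorm v = ℓ)).card ≤ n :=
    (Finset.card_filter_le _ _).trans ((card_Pr hℓ).trans hk)
  refine ⟨∏ v ∈ (Pr k ℓ).filter (fun v => ¬ Ideal.absNorm v = ℓ),
    (1 - (Ideal.absNorm v : ℂ) ^ (-s))⁻¹, ?_, ?_, ?_, ?_⟩
  · exact Finset.prod_ne_zero_iff.2 fun v hv => inv_ne_zero (hne v hv)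
  · unfold EF
    rw [← Finset.prod_filter_mul_prod_filter_not (Pr k ℓ) (fun v => Ideal.absNorm v = ℓ)]
    congr 1
    rw [aa]
    refine (Finset.prod_congr rfl fun v hv => ?_).trans (Finset.prod_const _)
    rw [(Finset.mem_filter.1 hv).2]
  · have h1 := efs_near ((Pr k ℓ).filter (fun v => ¬ Ideal.absNorm v = ℓ))
      (fun v => (1 - (Ideal.absNorm v : ℂ) ^ (-s))⁻¹) 1 (2 * t) (by positivity) (by linarith) n
      hcard (by
        intro v hv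
        have h2 := hz v hv
        have h3 := hne v hv
        have h4 : (1 - (Ideal.absNorm v : ℂ) ^ (-s))⁻¹ - 1 =
            (Ideal.absNorm v : ℂ) ^ (-s) / (1 - (Ideal.absNorm v : ℂ) ^ (-s)) := by
          field_simp
          ring
        have h5 : 1 / 2 ≤ ‖1 - (Ideal.absNorm v : ℂ) ^ (-s)‖ := by
          have h6 := norm_sub_norm_le (1 : ℂ) ((Ideal.absNorm v : ℂ) ^ (-s))
          rw [norm_one] at h6
          linarith
        show ‖(1 - (Ideal.absNorm v : ℂ) ^ (-s))⁻¹ - 1‖ ≤ 2 * t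
        rw [h4, norm_div, div_le_iff₀ (by linarith)]
        nlinarith)
    refine h1.trans ?_
    calc n * Real.exp (n * 1) * (2 * t) = (n * Real.exp (n * 1) * 2) * t := by ring
      _ ≤ _ := mul_le_mul_of_nonneg_right (le_max_right _ _) ht0
  · rw [← Finset.prod_inv_distrib]
    simp only [inv_inv]
    have h1 := efs_near ((Pr k ℓ).filter (fun v => ¬ Ideal.absNorm v = ℓ))
      (fun v => 1 - (Ideal.absNorm v : ℂ) ^ (-s)) 1 (2 * t) (by positivity) (by linarith) n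
      hcard (by
        intro v hv
        have h2 := hz v hv
        show ‖1 - (Ideal.absNorm v : ℂ) ^ (-s) - 1‖ ≤ 2 * t
        have h4 : 1 - (Ideal.absNorm v : ℂ) ^ (-s) - 1 = -((Ideal.absNorm v : ℂ) ^ (-s)) := by ring
        rw [h4, norm_neg]
        linarith)
    refine h1.trans ?_
    calc n * Real.exp (n * 1) * (2 * t) = (n * Real.exp (n * 1) * 2) * t := by ring
      _ ≤ _ := mul_le_mul_of_nonneg_right (le_max_right _ _) ht0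

theorem qt_close (n N : ℕ) : ∃ K : ℝ, 1 ≤ K ∧ ∀ (I J : Type) [Fintype I] [Fintype J]
    (k : I → Type) (k' : J → Type) [∀ i, Field (k i)] [∀ i, NumberField (k i)]
    [∀ j, Field (k' j)] [∀ j, NumberField (k' j)], Fintype.card I ≤ N → Fintype.card J ≤ N →
    (∀ i, Module.finrank ℚ (k i) ≤ n) → (∀ j, Module.finrank ℚ (k' j) ≤ n) →
    ∀ ℓ : ℕ, ℓ.Prime → ∑ i, aa (k i) ℓ = ∑ j, aa (k' j) ℓ → ∀ s : ℂ, 1 / 2 ≤ s.re →
    ‖qt (fun i => EF (k i)) (fun j => EF (k' j)) ℓ s - 1‖ ≤ K * (ℓ : ℝ) ^ (-2 * s.re) := by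
  obtain ⟨K, hK1, hK⟩ := EF_split n
  refine ⟨max 1 (((2 * N : ℕ) : ℝ) * Real.exp (((2 * N : ℕ) : ℝ) * K) * K), le_max_left _ _, ?_⟩
  intro I J _ _ k k' _ _ _ _ hI hJ hn hn' ℓ hℓ haa s hs
  choose R hR0 hR1 hR2 hR3 using fun i => hK (k i) (hn i) ℓ hℓ s hs
  choose R' hR0' hR1' hR2' hR3' using fun j => hK (k' j) (hn' j) ℓ hℓ s hs
  set t : ℝ := (ℓ : ℝ) ^ (-2 * s.re) with ht
  have ht0 : 0 ≤ t := by positivity
  have ht2 : t ≤ 1 / 2 := efs_half hℓ hs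
  have hg : (1 - (ℓ : ℂ) ^ (-s))⁻¹ ≠ 0 := by
    apply inv_ne_zero
    intro h1
    have h2 : ‖(ℓ : ℂ) ^ (-s)‖ < 1 := by
      rw [Complex.norm_natCast_cpow_of_pos hℓ.pos, Complex.neg_re]
      have h3 : (1 : ℝ) < ℓ := by exact_mod_cast hℓ.one_lt
      exact Real.rpow_lt_one_of_one_lt_of_neg h3 (by linarith)
    rw [← sub_eq_zero.1 h1, norm_one] at h2
    exact lt_irrefl _ h2
  have hqt : qt (fun i => EF (k i)) (fun j => EF (k' j)) ℓ s =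
      ∏ x : I ⊕ J, Sum.elim R (fun j => (R' j)⁻¹) x := by
    rw [Fintype.prod_sum_type]
    simp only [Sum.elim_inl, Sum.elim_inr]
    unfold qt
    rw [Finset.prod_congr rfl fun i _ => hR1 i, Finset.prod_congr rfl fun j _ => hR1' j,
      Finset.prod_mul_distrib, Finset.prod_mul_distrib, Finset.prod_pow_eq_pow_sum,
      Finset.prod_pow_eq_pow_sum, haa, Finset.prod_inv_distrib,
      mul_div_mul_left _ _ (pow_ne_zero _ hg), div_eq_mul_inv]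
  rw [hqt]
  have hcard : (Finset.univ : Finset (I ⊕ J)).card ≤ 2 * N := by
    rw [Finset.card_univ, Fintype.card_sum]
    omega
  have h1 := efs_near (Finset.univ : Finset (I ⊕ J)) (Sum.elim R (fun j => (R' j)⁻¹)) K (K * t)
    (by positivity) (by nlinarith) (2 * N) hcard (by
      rintro (i | j) -
      · exact hR2 i
      · exact hR3' j)
  refine h1.trans ?_
  calc ((2 * N : ℕ) : ℝ) * Real.exp (((2 * N : ℕ) : ℝ) * K) * (K * t) =
        (((2 * N : ℕ) : ℝ) * Real.exp (((2 * N : ℕ) : ℝ) * K) * K) * t := by ring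
    _ ≤ _ := mul_le_mul_of_nonneg_right (le_max_right _ _) ht0

end Pool.Agent.H85.CP
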