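import Mathlib

/-!
# THEOREM CP: abstract data of the analytic argument

`ZD n K Q f E Z`: `f` is (for `Re s > 1`) the limit of the products of the Euler factors `E ℓ`, `Z s = (s - 1) f s` continues to
`Re s > 1 - 1/n`, is bounded by `Q` on the disc `‖s - 2‖ ≤ 1 + 1/(2n)`, and `1/Q ≤ ‖Z 1‖`; the Euler factors are holomorphic and
non zero for `Re s > 0`, bounded, with their inverses, by `K` for `Re s ≥ 1/2`, and `1 + O(ℓ^(- Re s))`.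
-/

set_option autoImplicit false

namespace Pool.Agent.H85.CP

open Filter Topology

structure ZD (n : ℕ) (K Q : ℝ) (f : ℂ → ℂ) (E : ℕ → ℂ → ℂ) (Z : ℂ → ℂ) : Prop where
  lim : ∀ s : ℂ, 1 < s.re →
    Tendsto (fun Y : ℕ => ∏ ℓ ∈ (Finset.range Y).filter Nat.Prime, E ℓ s) atTop (𝓝 (f s))
  dZ : DifferentiableOn ℂ Z {s | 1 - 1 / (n : ℝ) < s.re}
  eqZ : ∀ s : ℂ, 1 < s.re → Z s = (s - 1) * f s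
  bdZ : ∀ s : ℂ, ‖s - 2‖ ≤ 1 + 1 / (2 * n) → ‖Z s‖ ≤ Q
  oneZ : 1 ≤ Q * ‖Z 1‖
  dE : ∀ ℓ : ℕ, ℓ.Prime → DifferentiableOn ℂ (E ℓ) {s | 0 < s.re}
  neE : ∀ ℓ : ℕ, ℓ.Prime → ∀ s : ℂ, 0 < s.re → E ℓ s ≠ 0
  bdE : ∀ ℓ : ℕ, ℓ.Prime → ∀ s : ℂ, 1 / 2 ≤ s.re → ‖E ℓ s‖ ≤ K ∧ ‖(E ℓ s)⁻¹‖ ≤ K ∧
    ‖E ℓ s - 1‖ ≤ K * (ℓ : ℝ) ^ (-s.re) ∧ ‖(E ℓ s)⁻¹ - 1‖ ≤ K * (ℓ : ℝ) ^ (-s.re)

end Pool.Agent.H85.CP
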