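import Pool.Agent.H85.CP.PrB
import Pool.Agent.H63.MA.PZb

/-!
# [H85 CP EUL] Euler product of the zeta function of a number field

Proof. `f I = (N I)^(-s)` is completely multiplicative on the nonzero ideals and absolutely summable for `Re s > 1`
(`H63.MA.ideal_summable`, in `Pool/Agent/H63/MA/PZb.lean` or one of its imports, for real exponents; take norms, `‖n^(-s)‖ = n^(-Re s)`).
As in `Pool/Agent/H63/MA/EulA.lean` (real `s`; copy the argument): for a finite set `F` of nonzero primes the sum of `f` over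
the ideals not divisible by any `v ∈ F` is `∏_{v ∈ F} (1 - f v)` times `zk k s` (induction on `F`: the ideals divisible by `v`
are the `v J`, unique factorisation for not divisible by `F`, divisible by `v`). Take `F = F_Y` = the union of the `Pr k ℓ`,
`ℓ < Y` prime (disjoint by `Pr_unique`): the sum of `f` over the ideals not divisible by any `v ∈ F_Y` differs from
`f (1) = 1` by at most the sum of `‖f I‖` over the ideals with `N I ≥ Y` (a proper ideal has a prime factor `v`, `v ∈ Pr k ℓ` with
`ℓ ≤ N v ≤ N I`, so `ℓ ≥ Y`), which tends to `0`. So `zk k s * ∏_{v ∈ F_Y} (1 - f v) → 1`, hence (`1 - f v ≠ 0` as `‖f v‖ < 1`)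
`∏_{ℓ < Y} EF k ℓ s = zk k s / (that)`, and the limit is `zk k s`.
-/

set_option autoImplicit false

namespace Pool.Agent.H85.CP

open NumberField Filter Topology

private noncomputable def euf (k : Type) [Field k] [NumberField k] (s : ℂ) (I : Ideal (𝓞 k)) : ℂ :=
  (Ideal.absNorm I : ℂ) ^ (-s)

private lemma euf_bot (k : Type) [Field k] [NumberField k] {s : ℂ} (hs : 1 < s.re) :
    euf k s ⊥ = 0 := by
  unfold euf
  rw [Ideal.absNorm_bot, Nat.cast_zero]
  apply Complex.zero_cpow
  intro h
  rw [neg_eq_zero] at h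
  rw [h] at hs
  simp at hs
  linarith

private lemma euf_top (k : Type) [Field k] [NumberField k] (s : ℂ) : euf k s ⊤ = 1 := by
  unfold euf
  rw [Ideal.absNorm_top, Nat.cast_one, Complex.one_cpow]

private lemma euf_mul (k : Type) [Field k] [NumberField k] (s : ℂ) (I J : Ideal (𝓞 k)) :
    euf k s (I * J) = euf k s I * euf k s J := by
  unfold euf
  rw [map_mul, Nat.cast_mul, Complex.natCast_mul_natCast_cpow]

private lemma euf_norm_le (k : Type) [Field k] [NumberField k] {s : ℂ} (hs : 1 < s.re)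
    (I : Ideal (𝓞 k)) :
    ‖euf k s I‖ ≤ if I = ⊥ then 0 else (Ideal.absNorm I : ℝ) ^ (-s.re) := by
  split_ifs with h
  · rw [h, euf_bot k hs, norm_zero]
  · unfold euf
    have h1 : 0 < Ideal.absNorm I := by
      rw [Nat.pos_iff_ne_zero, ne_eq, Ideal.absNorm_eq_zero_iff]
      exact h
    rw [Complex.norm_natCast_cpow_of_pos h1, Complex.neg_re]

open Classical in
private noncomputable def eug (k : Type) [Field k] [NumberField k] (s : ℂ)
    (F : Finset (Ideal (𝓞 k))) (I : Ideal (𝓞 k)) : ℂ :=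
  if ∀ v ∈ F, ¬ v ∣ I then euf k s I else 0

private lemma eug_norm_le (k : Type) [Field k] [NumberField k] {s : ℂ} (hs : 1 < s.re)
    (F : Finset (Ideal (𝓞 k))) (I : Ideal (𝓞 k)) :
    ‖eug k s F I‖ ≤ if I = ⊥ then 0 else (Ideal.absNorm I : ℝ) ^ (-s.re) := by
  unfold eug
  by_cases h : ∀ v ∈ F, ¬ v ∣ I
  · rw [if_pos h]
    exact euf_norm_le k hs I
  · rw [if_neg h, norm_zero]
    split_ifs
    · exact le_rfl
    · positivity

private lemma eug_summable (k : Type) [Field k] [NumberField k] {s : ℂ} (hs : 1 < s.re)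
    (F : Finset (Ideal (𝓞 k))) : Summable (eug k s F) :=
  Summable.of_norm_bounded (H63.MA.ideal_summable k hs) (eug_norm_le k hs F)

private lemma eu_prime_iff {k : Type} [Field k] [NumberField k] {v w : Ideal (𝓞 k)}
    (hv : v.IsPrime) (hv0 : v ≠ ⊥) (hw : w.IsPrime) (hw0 : w ≠ ⊥) (hvw : v ≠ w)
    (I : Ideal (𝓞 k)) : w ∣ v * I ↔ w ∣ I := by
  constructor
  · intro h
    have hwp : Prime w := Ideal.prime_of_isPrime hw0 hw
    have hvp : Prime v := Ideal.prime_of_isPrime hv0 hv
    rcases hwp.dvd_or_dvd h with h | h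
    · exfalso
      have h2 : Associated w v := hwp.irreducible.associated_of_dvd hvp.irreducible h
      exact hvw (associated_iff_eq.1 h2).symm
    · exact h
  · intro h
    exact h.mul_left _

open Classical in
private lemma eu_step (k : Type) [Field k] [NumberField k] {s : ℂ} (hs : 1 < s.re)
    (F : Finset (Ideal (𝓞 k))) (hF : ∀ w ∈ F, w.IsPrime ∧ w ≠ ⊥) (v : Ideal (𝓞 k))
    (hvp : v.IsPrime) (hv0 : v ≠ ⊥) (hv : v ∉ F) :
    ∑' I, eug k s (insert v F) I = (1 - euf k s v) * ∑' I, eug k s F I := by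
  have h1 : ∀ I, eug k s F I = eug k s (insert v F) I +
      (if v ∣ I then eug k s F I else 0) := by
    intro I
    unfold eug
    by_cases h : ∀ w ∈ F, ¬ w ∣ I
    · by_cases h2 : v ∣ I
      · have h3 : ¬ ∀ w ∈ insert v F, ¬ w ∣ I := by
          intro h4
          exact h4 v (Finset.mem_insert_self _ _) h2
        rw [if_pos h, if_neg h3, if_pos h2, zero_add]
      · have h3 : ∀ w ∈ insert v F, ¬ w ∣ I := by
          intro w hw
          rcases Finset.mem_insert.1 hw with rfl | hw
          · exact h2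
          · exact h w hw
        rw [if_pos h, if_pos h3, if_neg h2, add_zero]
    · have h3 : ¬ ∀ w ∈ insert v F, ¬ w ∣ I := by
        intro h4
        exact h fun w hw => h4 w (Finset.mem_insert_of_mem hw)
      rw [if_neg h, if_neg h3, ite_self, add_zero]
  have hinj : Function.Injective fun J : Ideal (𝓞 k) => v * J := by
    intro J J' h
    exact mul_left_cancel₀ hv0 h
  have h2 : ∑' I, (if v ∣ I then eug k s F I else 0) =
      euf k s v * ∑' I, eug k s F I := by
    rw [← hinj.tsum_eq, ← tsum_mul_left]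
    · congr 1
      ext J
      have h3 : (∀ w ∈ F, ¬ w ∣ v * J) ↔ (∀ w ∈ F, ¬ w ∣ J) := by
        constructor
        · intro h w hw h4
          exact h w hw (h4.mul_left _)
        · intro h w hw h4
          exact h w hw ((eu_prime_iff hvp hv0 (hF w hw).1 (hF w hw).2
            (fun h5 => hv (h5 ▸ hw)) J).1 h4)
      show (if v ∣ v * J then eug k s F (v * J) else 0) = _
      rw [if_pos (dvd_mul_right _ _)]
      unfold eug
      by_cases h : ∀ w ∈ F, ¬ w ∣ J
      · rw [if_pos (h3.2 h), if_pos h, euf_mul]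
      · rw [if_neg (fun h' => h (h3.1 h')), if_neg h, mul_zero]
    · intro I hI
      rw [Function.mem_support] at hI
      by_cases h : v ∣ I
      · obtain ⟨J, rfl⟩ := h
        exact ⟨J, rfl⟩
      · rw [if_neg h] at hI
        exact absurd rfl hI
  have hsum2 : Summable fun I => (if v ∣ I then eug k s F I else 0) := by
    apply Summable.of_norm_bounded (H63.MA.ideal_summable k hs)
    intro I
    refine le_trans ?_ (eug_norm_le k hs F I)
    split_ifs
    · exact le_rfl
    · rw [norm_zero]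
      exact norm_nonneg _
  have h4 : ∑' I, eug k s F I = ∑' I, eug k s (insert v F) I +
      euf k s v * ∑' I, eug k s F I := by
    conv_lhs => rw [tsum_congr h1]
    rw [(eug_summable k hs (insert v F)).tsum_add hsum2, h2]
  linear_combination -h4

private lemma eu_prod (k : Type) [Field k] [NumberField k] {s : ℂ} (hs : 1 < s.re)
    (F : Finset (Ideal (𝓞 k))) (hF : ∀ w ∈ F, w.IsPrime ∧ w ≠ ⊥) :
    ∑' I, eug k s F I = (∏ v ∈ F, (1 - euf k s v)) * ∑' I, euf k s I := by
  classical
  induction F using Finset.induction_on with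
  | empty =>
    rw [Finset.prod_empty, one_mul]
    apply tsum_congr
    intro I
    unfold eug
    rw [if_pos (by simp)]
  | insert v F hv ih =>
    have hF' : ∀ w ∈ F, w.IsPrime ∧ w ≠ ⊥ := fun w hw => hF w (Finset.mem_insert_of_mem hw)
    have hvv := hF v (Finset.mem_insert_self _ _)
    rw [eu_step k hs F hF' v hvv.1 hvv.2 hv, ih hF', Finset.prod_insert hv, mul_assoc]

private lemma pr_prime {k : Type} [Field k] [NumberField k] {ℓ : ℕ} (hℓ : ℓ.Prime)
    {v : Ideal (𝓞 k)} (hv : v ∈ Pr k ℓ) : v.IsPrime ∧ v ≠ ⊥ := by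
  obtain ⟨h1, h2⟩ := (mem_Pr hℓ).1 hv
  refine ⟨h1, ?_⟩
  rintro rfl
  rw [Ideal.mem_bot] at h2
  exact hℓ.ne_zero (by exact_mod_cast h2)

open Classical in
private noncomputable def eF (k : Type) [Field k] [NumberField k] (Y : ℕ) :
    Finset (Ideal (𝓞 k)) :=
  ((Finset.range Y).filter Nat.Prime).biUnion fun ℓ => Pr k ℓ

private lemma eF_prime {k : Type} [Field k] [NumberField k] (Y : ℕ) :
    ∀ w ∈ eF k Y, w.IsPrime ∧ w ≠ ⊥ := by
  intro w hw
  unfold eF at hw
  rw [Finset.mem_biUnion] at hw
  obtain ⟨ℓ, hℓ, hw⟩ := hw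
  exact pr_prime (Finset.mem_filter.1 hℓ).2 hw

private lemma eu_tendsto (k : Type) [Field k] [NumberField k] {s : ℂ} (hs : 1 < s.re) :
    Tendsto (fun Y : ℕ => ∑' I, eug k s (eF k Y) I) atTop (𝓝 1) := by
  classical
  have h1 : (1 : ℂ) = ∑' I : Ideal (𝓞 k), (if I = ⊤ then (1 : ℂ) else 0) := by
    rw [tsum_ite_eq]
  rw [h1]
  apply tendsto_tsum_of_dominated_convergence (H63.MA.ideal_summable k hs)
  · intro I
    by_cases hI : I = ⊤
    · apply tendsto_const_nhds.congr
      intro Y
      unfold eug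
      rw [if_pos hI, if_pos, hI, euf_top]
      intro v hv hdvd
      rw [hI] at hdvd
      exact (eF_prime Y v hv).1.ne_top (top_le_iff.1 (Ideal.le_of_dvd hdvd))
    · obtain ⟨M, hM, hIM⟩ := Ideal.exists_le_maximal I hI
      rw [if_neg hI]
      by_cases hI0 : I = ⊥
      · apply tendsto_const_nhds.congr
        intro Y
        unfold eug
        rw [hI0, euf_bot k hs, ite_self]
      · have hM0 : M ≠ ⊥ := by
          intro h
          rw [h, le_bot_iff] at hIM
          exact hI0 hIM
        obtain ⟨ℓ, hℓ, hMℓ⟩ := exists_Pr hM.isPrime hM0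
        apply tendsto_const_nhds.congr'
        filter_upwards [eventually_gt_atTop ℓ] with Y hY
        unfold eug
        rw [if_neg]
        intro h
        refine h M ?_ (Ideal.dvd_iff_le.2 hIM)
        unfold eF
        rw [Finset.mem_biUnion]
        exact ⟨ℓ, Finset.mem_filter.2 ⟨Finset.mem_range.2 hY, hℓ⟩, hMℓ⟩
  · filter_upwards with Y I
    exact eug_norm_le k hs _ I

private lemma zk_eq (k : Type) [Field k] [NumberField k] {s : ℂ} (hs : 1 < s.re) :
    zk k s = ∑' I, euf k s I := by
  unfold zk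
  have h1 : Function.support (euf k s) ⊆ {I : Ideal (𝓞 k) | I ≠ ⊥} := by
    intro I hI h0
    rw [Function.mem_support] at hI
    exact hI (by rw [h0]; exact euf_bot k hs)
  exact tsum_subtype_eq_of_support_subset h1

private lemma ef_prod (k : Type) [Field k] [NumberField k] (s : ℂ) (Y : ℕ) :
    ∏ ℓ ∈ (Finset.range Y).filter Nat.Prime, EF k ℓ s = (∏ v ∈ eF k Y, (1 - euf k s v))⁻¹ := by
  classical
  unfold eF
  rw [Finset.prod_biUnion, ← Finset.prod_inv_distrib]
  · refine Finset.prod_congr rfl fun ℓ _ => ?_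
    unfold EF
    rw [← Finset.prod_inv_distrib]
    rfl
  · intro ℓ hℓ ℓ' hℓ' hne
    rw [Function.onFun, Finset.disjoint_left]
    intro v hv hv'
    exact hne (Pr_unique (Finset.mem_filter.1 hℓ).2 (Finset.mem_filter.1 hℓ').2 hv hv')

theorem euler (k : Type) [Field k] [NumberField k] (s : ℂ) (hs : 1 < s.re) :
    Tendsto (fun Y : ℕ => ∏ ℓ ∈ (Finset.range Y).filter Nat.Prime, EF k ℓ s) atTop
      (𝓝 (zk k s)) := by
  have h1 := eu_tendsto k hs
  have h2 : Tendsto (fun Y : ℕ => (∏ v ∈ eF k Y, (1 - euf k s v)) * zk k s) atTop (𝓝 1) := by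
    refine h1.congr fun Y => ?_
    rw [eu_prod k hs _ (eF_prime Y), zk_eq k hs]
  have hz : zk k s ≠ 0 := by
    intro h0
    rw [h0] at h2
    simp only [mul_zero] at h2
    exact zero_ne_one (tendsto_nhds_unique tendsto_const_nhds h2)
  have h3 := (h2.inv₀ one_ne_zero).const_mul (zk k s)
  rw [inv_one, mul_one] at h3
  refine h3.congr fun Y => ?_
  rw [ef_prod, mul_inv, mul_comm (∏ v ∈ eF k Y, (1 - euf k s v))⁻¹, ← mul_assoc,
    mul_inv_cancel₀ hz, one_mul]

end Pool.Agent.H85.CP
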