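import Pool.Agent.H85.CP.ZC
import Pool.Agent.H85.CP.Eul
import Pool.Agent.H85.CP.AnD

/-!
# [H85 CP EFZ] The data `ZD` for a number field

Proof of `EF_ZD`. `Z` from `zeta_cont`, `lim` from `euler`. For `ℓ` prime, `v ∈ Pr k ℓ`, `N v = ℓ^f`, `f > 0` (`norm_Pr`), at most `n` of them (`card_Pr`).
For `Re s > 0`: `‖(N v)^(-s)‖ = ℓ^(- f Re s) < 1`, so `1 - (N v)^(-s) ≠ 0`, the factors are holomorphic and non zero (`N v > 0`, so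
`s ↦ (N v : ℂ)^(-s)` is entire). For `Re s ≥ 1/2`: `x = (N v)^(-s)`, `‖x‖ ≤ ℓ^(-Re s) ≤ 2^(-1/2) < 3/4`, so `‖1 - x‖ ≤ 2 ≤ 4`, `‖(1 - x)⁻¹‖ ≤ 4`,
`‖(1 - x)⁻¹ - 1‖ = ‖x‖ ‖(1 - x)⁻¹‖ ≤ 4 ℓ^(-Re s)`, `‖(1 - x) - 1‖ ≤ ℓ^(-Re s)`. Products of at most `n` such factors: norm `≤ 4^n`, and
`‖∏ u_i - 1‖ ≤ n 4^n · 4 ℓ^(-Re s)` (induction: `‖u a - 1‖ ≤ ‖u‖ ‖a - 1‖ + ‖u - 1‖`); `(EF k ℓ s)⁻¹ = ∏ (1 - (N v)^(-s))`. `K = 4^(n+1) (n+1)`.
`Q = C |discr k|^A` with the `C` of `zeta_cont` replaced by `max C 1` (`|discr k| ≥ 1`).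
-/

set_option autoImplicit false

namespace Pool.Agent.H85.CP

open NumberField

theorem ZD.mono {n : ℕ} {K K' Q Q' : ℝ} {f : ℂ → ℂ} {E : ℕ → ℂ → ℂ} {Z : ℂ → ℂ}
    (h : ZD n K Q f E Z) (hK : K ≤ K') (hQ : Q ≤ Q') : ZD n K' Q' f E Z where
  lim := h.lim
  dZ := h.dZ
  eqZ := h.eqZ
  bdZ := fun s hs => (h.bdZ s hs).trans hQ
  oneZ := h.oneZ.trans (mul_le_mul_of_nonneg_right hQ (norm_nonneg _))
  dE := h.dE
  neE := h.neE
  bdE := fun ℓ hℓ s hs => by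
    obtain ⟨h1, h2, h3, h4⟩ := h.bdE ℓ hℓ s hs
    have h0 : (0 : ℝ) ≤ (ℓ : ℝ) ^ (-s.re) := Real.rpow_nonneg (Nat.cast_nonneg _) _
    exact ⟨h1.trans hK, h2.trans hK, h3.trans (mul_le_mul_of_nonneg_right hK h0),
      h4.trans (mul_le_mul_of_nonneg_right hK h0)⟩

/-- products of at most `n` factors close to `1` -/
private theorem efz_prod {ι : Type} (P : Finset ι) (u : ι → ℂ) {y : ℝ} (hy : 0 ≤ y)
    (h1 : ∀ v ∈ P, ‖u v‖ ≤ 4) (h2 : ∀ v ∈ P, ‖u v - 1‖ ≤ 4 * y) :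
    ‖∏ v ∈ P, u v‖ ≤ 4 ^ P.card ∧ ‖∏ v ∈ P, u v - 1‖ ≤ P.card * 4 ^ P.card * y := by
  classical
  induction P using Finset.induction_on with
  | empty => simp
  | insert a P ha ih =>
    obtain ⟨i1, i2⟩ := ih (fun v hv => h1 v (Finset.mem_insert_of_mem hv))
      (fun v hv => h2 v (Finset.mem_insert_of_mem hv))
    have ha1 := h1 a (Finset.mem_insert_self _ _)
    have ha2 := h2 a (Finset.mem_insert_self _ _)
    rw [Finset.prod_insert ha, Finset.card_insert_of_notMem ha]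
    constructor
    · rw [norm_mul, pow_succ, mul_comm]
      exact mul_le_mul i1 ha1 (norm_nonneg _) (by positivity)
    · have e1 : u a * ∏ v ∈ P, u v - 1 = u a * (∏ v ∈ P, u v - 1) + (u a - 1) := by ring
      have e2 : ‖u a * ∏ v ∈ P, u v - 1‖ ≤ 4 * (P.card * 4 ^ P.card * y) + 4 * y := by
        rw [e1]
        refine (norm_add_le _ _).trans (add_le_add ?_ ha2)
        rw [norm_mul]
        exact mul_le_mul ha1 i2 (norm_nonneg _) (by norm_num)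
      refine e2.trans ?_
      have e3 : (1 : ℝ) ≤ 4 ^ P.card := one_le_pow₀ (by norm_num)
      have e4 : 0 ≤ (4 ^ P.card - 1) * y := mul_nonneg (by linarith) hy
      push_cast
      rw [pow_succ]
      nlinarith

/-- the norm of a local factor -/
private theorem efz_norm {k : Type} [Field k] [NumberField k] {ℓ : ℕ} (hℓ : ℓ.Prime)
    {v : Ideal (𝓞 k)} (hv : v ∈ Pr k ℓ) {s : ℂ} (hs : 0 < s.re) :
    ‖(Ideal.absNorm v : ℂ) ^ (-s)‖ ≤ (ℓ : ℝ) ^ (-s.re) ∧ (ℓ : ℝ) ^ (-s.re) < 1 := by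
  obtain ⟨f, hf, hN⟩ := norm_Pr hℓ hv
  have h1 : (1 : ℝ) < ℓ := by exact_mod_cast hℓ.one_lt
  have h0 : 0 < Ideal.absNorm v := by
    rw [hN]
    exact Nat.pow_pos hℓ.pos
  constructor
  · rw [Complex.norm_natCast_cpow_of_pos h0, Complex.neg_re, hN]
    push_cast
    refine Real.rpow_le_rpow_of_nonpos (by linarith) ?_ (by linarith)
    exact le_self_pow₀ h1.le hf.ne'
  · exact Real.rpow_lt_one_of_one_lt_of_neg h1 (by linarith)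

private theorem efz_ne {k : Type} [Field k] [NumberField k] {ℓ : ℕ} (hℓ : ℓ.Prime)
    {v : Ideal (𝓞 k)} (hv : v ∈ Pr k ℓ) {s : ℂ} (hs : 0 < s.re) :
    1 - (Ideal.absNorm v : ℂ) ^ (-s) ≠ 0 := by
  obtain ⟨h1, h2⟩ := efz_norm hℓ hv hs
  intro h
  have h3 : (Ideal.absNorm v : ℂ) ^ (-s) = 1 := by linear_combination -h
  rw [h3, norm_one] at h1
  linarith

private theorem efz_bd {k : Type} [Field k] [NumberField k] {ℓ : ℕ} (hℓ : ℓ.Prime)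
    {v : Ideal (𝓞 k)} (hv : v ∈ Pr k ℓ) {s : ℂ} (hs : 1 / 2 ≤ s.re) :
    ‖(1 - (Ideal.absNorm v : ℂ) ^ (-s))⁻¹‖ ≤ 4 ∧
      ‖(1 - (Ideal.absNorm v : ℂ) ^ (-s))⁻¹ - 1‖ ≤ 4 * (ℓ : ℝ) ^ (-s.re) ∧
      ‖1 - (Ideal.absNorm v : ℂ) ^ (-s)‖ ≤ 4 ∧
      ‖1 - (Ideal.absNorm v : ℂ) ^ (-s) - 1‖ ≤ 4 * (ℓ : ℝ) ^ (-s.re) := by
  have hs0 : 0 < s.re := by linarith
  obtain ⟨h1, h2⟩ := efz_norm hℓ hv hs0
  have hne := efz_ne hℓ hv hs0
  obtain ⟨x, hx⟩ : ∃ x, x = (Ideal.absNorm v : ℂ) ^ (-s) := ⟨_, rfl⟩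
  obtain ⟨y, hy⟩ : ∃ y, y = (ℓ : ℝ) ^ (-s.re) := ⟨_, rfl⟩
  rw [← hx] at h1 hne ⊢
  rw [← hy] at h1 h2 ⊢
  have hy0 : 0 ≤ y := by
    rw [hy]
    positivity
  have hy34 : y ≤ 3 / 4 := by
    have h3 : y ≤ (2 : ℝ) ^ (-(1 / 2 : ℝ)) := by
      rw [hy]
      have h4 : (2 : ℝ) ≤ ℓ := by exact_mod_cast hℓ.two_le
      calc (ℓ : ℝ) ^ (-s.re) ≤ (ℓ : ℝ) ^ (-(1 / 2 : ℝ)) :=
            Real.rpow_le_rpow_of_exponent_le (by linarith) (by linarith)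
        _ ≤ (2 : ℝ) ^ (-(1 / 2 : ℝ)) :=
            Real.rpow_le_rpow_of_nonpos (by norm_num) h4 (by norm_num)
    have h5 : (2 : ℝ) ^ (-(1 / 2 : ℝ)) ≤ 3 / 4 := by
      rw [Real.rpow_neg (by norm_num), ← Real.sqrt_eq_rpow,
        inv_le_comm₀ (by positivity) (by norm_num)]
      apply Real.le_sqrt_of_sq_le
      norm_num
    linarith
  have hnx : 1 - y ≤ ‖1 - x‖ := by
    have := norm_sub_norm_le (1 : ℂ) x
    rw [norm_one] at this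
    linarith
  have hinv : ‖(1 - x)⁻¹‖ ≤ 4 := by
    rw [norm_inv]
    calc ‖1 - x‖⁻¹ ≤ (1 / 4 : ℝ)⁻¹ := inv_anti₀ (by norm_num) (by linarith)
      _ = 4 := by norm_num
  refine ⟨hinv, ?_, ?_, ?_⟩
  · have e1 : (1 - x)⁻¹ - 1 = (1 - x)⁻¹ * x := by
      field_simp
      ring
    rw [e1, norm_mul]
    exact mul_le_mul hinv h1 (norm_nonneg _) (by norm_num)
  · refine (norm_sub_le _ _).trans ?_
    rw [norm_one]
    linarith
  · have e2 : 1 - x - 1 = -x := by ring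
    rw [e2, norm_neg]
    linarith

theorem EF_ZD (n : ℕ) (hn : 0 < n) : ∃ (K C : ℝ) (A : ℕ), 1 ≤ K ∧ 1 ≤ C ∧
    ∀ (k : Type) [Field k] [NumberField k], Module.finrank ℚ k ≤ n →
      ∃ Z : ℂ → ℂ, ZD n K (C * |(discr k : ℝ)| ^ A) (zk k) (EF k) Z := by
  obtain ⟨A, C, hC, hZ⟩ := zeta_cont n hn
  refine ⟨(n + 1) * 4 ^ n, max C 1, A, ?_, le_max_right _ _, fun k _ _ hk => ?_⟩
  · have h1 : (1 : ℝ) ≤ 4 ^ n := one_le_pow₀ (by norm_num)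
    have h2 : (0 : ℝ) ≤ n := Nat.cast_nonneg _
    nlinarith
  obtain ⟨Z, z1, z2, z3, z4⟩ := hZ k hk
  have hle : C * |(discr k : ℝ)| ^ A ≤ max C 1 * |(discr k : ℝ)| ^ A :=
    mul_le_mul_of_nonneg_right (le_max_left _ _) (by positivity)
  refine ⟨Z, ⟨fun s hs => euler k s hs, z1, z2, fun s hs => (z3 s hs).trans hle,
    z4.trans (mul_le_mul_of_nonneg_right hle (norm_nonneg _)), ?_, ?_, ?_⟩⟩
  · intro ℓ hℓ
    unfold EF
    refine DifferentiableOn.fun_finsetProd fun v hv => ?_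
    refine DifferentiableOn.inv ?_ fun s hs => efz_ne hℓ hv hs
    refine (differentiableOn_const _).sub ?_
    obtain ⟨f, hf, hN⟩ := norm_Pr hℓ hv
    have h0 : (Ideal.absNorm v : ℂ) ≠ 0 := by
      rw [hN]
      exact_mod_cast (Nat.pow_pos hℓ.pos).ne'
    exact (differentiable_id.neg.const_cpow (Or.inl h0)).differentiableOn
  · intro ℓ hℓ s hs
    unfold EF
    exact Finset.prod_ne_zero_iff.2 fun v hv => inv_ne_zero (efz_ne hℓ hv hs)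
  · intro ℓ hℓ s hs
    have hy : (0 : ℝ) ≤ (ℓ : ℝ) ^ (-s.re) := by positivity
    have hcard : (Pr k ℓ).card ≤ n := (card_Pr hℓ).trans hk
    have hpow : (4 : ℝ) ^ (Pr k ℓ).card ≤ 4 ^ n := pow_le_pow_right₀ (by norm_num) hcard
    have hcast : ((Pr k ℓ).card : ℝ) ≤ n := by exact_mod_cast hcard
    have hK1 : (4 : ℝ) ^ (Pr k ℓ).card ≤ (n + 1) * 4 ^ n := by
      have h1 : (0 : ℝ) ≤ n * 4 ^ n := by positivity
      linarith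
    have hK2 : ((Pr k ℓ).card : ℝ) * 4 ^ (Pr k ℓ).card * (ℓ : ℝ) ^ (-s.re) ≤
        (n + 1) * 4 ^ n * (ℓ : ℝ) ^ (-s.re) := by
      refine mul_le_mul_of_nonneg_right ?_ hy
      exact mul_le_mul (by linarith) hpow (by positivity) (by positivity)
    have hinv : (EF k ℓ s)⁻¹ = ∏ v ∈ Pr k ℓ, (1 - (Ideal.absNorm v : ℂ) ^ (-s)) := by
      unfold EF
      rw [← Finset.prod_inv_distrib]
      exact Finset.prod_congr rfl fun v _ => inv_inv _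
    obtain ⟨a1, a2⟩ := efz_prod (Pr k ℓ) (fun v => (1 - (Ideal.absNorm v : ℂ) ^ (-s))⁻¹) hy
      (fun v hv => (efz_bd hℓ hv hs).1) (fun v hv => (efz_bd hℓ hv hs).2.1)
    obtain ⟨b1, b2⟩ := efz_prod (Pr k ℓ) (fun v => 1 - (Ideal.absNorm v : ℂ) ^ (-s)) hy
      (fun v hv => (efz_bd hℓ hv hs).2.2.1) (fun v hv => (efz_bd hℓ hv hs).2.2.2)
    rw [hinv]
    exact ⟨a1.trans hK1, b1.trans hK1, a2.trans hK2, b2.trans hK2⟩

end Pool.Agent.H85.CP
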