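import Mathlib

/-!
# [H85 CP IST] Index sets

`IS c e` = pairs `(d, i)` with `d ∣ c`, `i < c / d`, `μ d = e`.
* `sum_IS`: for fixed `d` the pairs `(d, i)` contribute `(c/d) g d`; `μ d = 1`, `-1` or `0` (`Finset.sum_product`, `Finset.sum_filter`).
* `card_IS`: `g = 1`: the difference of the cardinalities is `∑_{d ∣ c} μ(d) (c/d) = φ(c) > 0` (Möbius inversion of
  `∑_{d ∣ c} φ(d) = c`: `Nat.sum_totient`, `ArithmeticFunction.sum_eq_iff_sum_mul_moebius_eq`, or a product formula).
-/

set_option autoImplicit false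

namespace Pool.Agent.H85.CP

/-- pairs `(d, i)`, `d ∣ c`, `i < c / d`, `μ d = e` -/
def IS (c : ℕ) (e : ℤ) : Finset (ℕ × ℕ) :=
  (c.divisors ×ˢ Finset.range c).filter fun x => x.2 < c / x.1 ∧ ArithmeticFunction.moebius x.1 = e

theorem mem_IS {c : ℕ} {e : ℤ} {x : ℕ × ℕ} (h : x ∈ IS c e) : x.1 ∣ c := by
  have h1 := (Finset.mem_filter.1 h).1
  exact Nat.dvd_of_mem_divisors (Finset.mem_product.1 h1).1

private theorem sum_IS_aux (c : ℕ) (e : ℤ) (g : ℕ → ℤ) :
    ∑ x ∈ IS c e, g x.1 = ∑ d ∈ c.divisors,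
      if ArithmeticFunction.moebius d = e then ((c / d : ℕ) : ℤ) * g d else 0 := by
  unfold IS
  rw [Finset.sum_filter, Finset.sum_product]
  refine Finset.sum_congr rfl fun d _ => ?_
  by_cases h : ArithmeticFunction.moebius d = e
  · rw [if_pos h]
    have h1 : ∀ i ∈ Finset.range c,
        (if (d, i).2 < c / (d, i).1 ∧ ArithmeticFunction.moebius (d, i).1 = e then g (d, i).1
          else 0) = if i < c / d then g d else 0 := by
      intro i _
      by_cases h2 : i < c / d
      · rw [if_pos h2, if_pos ⟨h2, h⟩]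
      · rw [if_neg h2, if_neg fun h3 => h2 h3.1]
    rw [Finset.sum_congr rfl h1, ← Finset.sum_filter, Finset.sum_const, nsmul_eq_mul]
    congr 2
    have h3 : (Finset.range c).filter (fun i => i < c / d) = Finset.range (c / d) := by
      ext i
      simp only [Finset.mem_filter, Finset.mem_range]
      have := Nat.div_le_self c d
      omega
    rw [h3, Finset.card_range]
  · rw [if_neg h]
    refine Finset.sum_eq_zero fun i _ => ?_
    rw [if_neg fun h3 => h h3.2]

theorem sum_IS (c : ℕ) (g : ℕ → ℤ) :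
    ∑ x ∈ IS c 1, g x.1 - ∑ x ∈ IS c (-1), g x.1 =
      ∑ d ∈ c.divisors, ArithmeticFunction.moebius d * ((c / d : ℕ) : ℤ) * g d := by
  rw [sum_IS_aux, sum_IS_aux, ← Finset.sum_sub_distrib]
  refine Finset.sum_congr rfl fun d _ => ?_
  rcases ArithmeticFunction.moebius_eq_or d with h | h | h
  · rw [h]
    norm_num
  · rw [h]
    norm_num
  · rw [h]
    norm_num

theorem card_IS {c : ℕ} (hc : 0 < c) :
    (IS c (-1)).card < (IS c 1).card ∧ (IS c 1).card ≤ c ^ 2 := by
  constructor
  · have h1 := sum_IS c fun _ => 1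
    rw [Finset.sum_const, Finset.sum_const, nsmul_eq_mul, nsmul_eq_mul, mul_one, mul_one] at h1
    have h2 := (ArithmeticFunction.sum_eq_iff_sum_mul_moebius_eq (R := ℤ)
      (f := fun n => (Nat.totient n : ℤ)) (g := fun n => (n : ℤ))).1 (fun n _ => by
        exact_mod_cast Nat.sum_totient n) c hc
    simp only [Int.cast_id] at h2
    rw [Nat.sum_divisorsAntidiagonal
      (fun i j => (ArithmeticFunction.moebius i : ℤ) * (j : ℤ))] at h2
    have h3 : ∑ d ∈ c.divisors, ArithmeticFunction.moebius d * ((c / d : ℕ) : ℤ) * 1 =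
        (Nat.totient c : ℤ) := by
      rw [← h2]
      refine Finset.sum_congr rfl fun d _ => ?_
      rw [mul_one]
    rw [h3] at h1
    have h4 : 0 < Nat.totient c := Nat.totient_pos.2 hc
    omega
  · unfold IS
    refine (Finset.card_filter_le _ _).trans ?_
    rw [Finset.card_product, Finset.card_range, sq]
    exact Nat.mul_le_mul_right c (Nat.card_divisors_le_self c)

end Pool.Agent.H85.CP
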