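import Pool.Agent.H85.CP.Cnt

/-!
# [H85 CP MOB] Möbius summation over the subgroups of a cyclic group

`c = orderOf s`, `k_d` = fixed field of `⟨s^d⟩` (`d ∣ c`, `|⟨s^d⟩| = c / d`). If no `P ∈ Pr M ℓ` has a Frobenius generating `⟨s⟩`, then
`∑_{d ∣ c} μ(d) (c/d) aa k_d ℓ = 0`.

Proof. Choose `T P` (`exists_Fr`), `P₀` (`Pr_nonempty`), `f = orderOf (T P₀)`. By `count_Pr`, `(c/d) * aa k_d ℓ = f * #{P : T P ∈ ⟨s^d⟩}`
(`Nat.card (zpowers (s^d)) = orderOf (s^d) = c/d`). So the sum is `f * ∑_P ∑_{d ∣ c} μ(d) [T P ∈ ⟨s^d⟩]`. Fix `P`. If `T P ∉ ⟨s⟩`, all terms are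
`0`. If `T P = s^a`, `a` a natural number, then for `d ∣ c`: `s^a ∈ ⟨s^d⟩` iff `d ∣ a` (`s^a = s^(d k)` iff `c ∣ a - d k`, and `d ∣ c`), i.e. iff
`d ∣ gcd(a, c)`, so the inner sum is `∑_{d ∣ gcd(a, c)} μ(d)`, which is `0` unless `gcd(a, c) = 1` (`ArithmeticFunction.sum_moebius...` /
`ArithmeticFunction.coe_moebius_mul_coe_zeta`), and `gcd(a, c) = 1` would give `⟨s^a⟩ = ⟨s⟩`, excluded by `hno`.
-/

set_option autoImplicit false

namespace Pool.Agent.H85.CP

open NumberField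

theorem mob {M : Type} [Field M] [NumberField M] [IsGalois ℚ M] {ℓ : ℕ} (hℓ : ℓ.Prime)
    (hd : ¬ (ℓ : ℤ) ∣ discr M) (s : Gal(M/ℚ))
    (hno : ∀ P ∈ Pr M ℓ, ∀ t : Gal(M/ℚ), IsFr ℓ P t → Subgroup.zpowers t ≠ Subgroup.zpowers s) :
    ∑ d ∈ (orderOf s).divisors, ArithmeticFunction.moebius d * ((orderOf s / d : ℕ) : ℤ) *
      (aa (IntermediateField.fixedField (Subgroup.zpowers (s ^ d))) ℓ : ℤ) = 0 := by
  classical
  choose T0 hT0 using fun (P : Ideal (𝓞 M)) (hP : P ∈ Pr M ℓ) => exists_Fr (M := M) hℓ hP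
  obtain ⟨T, hT⟩ : ∃ T : Ideal (𝓞 M) → Gal(M/ℚ), ∀ P ∈ Pr M ℓ, IsFr ℓ P (T P) := by
    refine ⟨fun P => if h : P ∈ Pr M ℓ then T0 P h else 1, fun P hP => ?_⟩
    show IsFr ℓ P (if h : P ∈ Pr M ℓ then T0 P h else 1)
    rw [dif_pos hP]
    exact hT0 P hP
  obtain ⟨P₀, h0⟩ := Pr_nonempty (k := M) hℓ
  have hc : 0 < orderOf s := orderOf_pos s
  have key : ∀ d ∈ (orderOf s).divisors,
      ArithmeticFunction.moebius d * ((orderOf s / d : ℕ) : ℤ) *
        (aa (IntermediateField.fixedField (Subgroup.zpowers (s ^ d))) ℓ : ℤ) =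
      ∑ P ∈ Pr M ℓ, (orderOf (T P₀) : ℤ) *
        (if T P ∈ Subgroup.zpowers (s ^ d) then ArithmeticFunction.moebius d else 0) := by
    intro d hd'
    have hdc : d ∣ orderOf s := Nat.dvd_of_mem_divisors hd'
    have hd0 : d ≠ 0 := fun h => by
      rw [h, zero_dvd_iff] at hdc
      omega
    have h1 := count_Pr hℓ hd (Subgroup.zpowers (s ^ d)) T hT h0
    rw [Nat.card_zpowers, orderOf_pow_of_dvd hd0 hdc] at h1
    have h2 : ((aa (IntermediateField.fixedField (Subgroup.zpowers (s ^ d))) ℓ : ℕ) : ℤ) *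
        ((orderOf s / d : ℕ) : ℤ) = (orderOf (T P₀) : ℤ) *
          (((Pr M ℓ).filter fun P => T P ∈ Subgroup.zpowers (s ^ d)).card : ℤ) := by
      exact_mod_cast h1
    rw [mul_assoc, mul_comm ((orderOf s / d : ℕ) : ℤ), h2, ← Finset.mul_sum,
      ← Finset.sum_filter, Finset.sum_const, nsmul_eq_mul]
    ring
  rw [Finset.sum_congr rfl key, Finset.sum_comm]
  refine Finset.sum_eq_zero fun P hP => ?_
  rw [← Finset.mul_sum]
  refine mul_eq_zero_of_right _ ?_
  by_cases hs : T P ∈ Subgroup.zpowers s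
  · obtain ⟨a, ha⟩ := (mem_powers_iff_mem_zpowers.2 hs)
    have ha' : s ^ a = T P := ha
    have hiff : ∀ d ∈ (orderOf s).divisors, (T P ∈ Subgroup.zpowers (s ^ d) ↔ d ∣ a) := by
      intro d hd'
      have hdc : d ∣ orderOf s := Nat.dvd_of_mem_divisors hd'
      constructor
      · rintro ⟨m, hm⟩
        have hm' : s ^ ((d : ℤ) * m) = s ^ (a : ℤ) := by
          rw [zpow_mul, zpow_natCast, zpow_natCast, ha']
          exact hm
        have h3 : (d : ℤ) * m ≡ a [ZMOD orderOf s] := zpow_eq_zpow_iff_modEq.1 hm'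
        have h4 : (d : ℤ) ∣ (a : ℤ) - d * m :=
          (Int.natCast_dvd_natCast.2 hdc).trans h3.dvd
        have h5 : (d : ℤ) ∣ (a : ℤ) := by
          have := dvd_add h4 (dvd_mul_right (d : ℤ) m)
          rwa [sub_add_cancel] at this
        exact Int.natCast_dvd_natCast.1 h5
      · rintro ⟨m, rfl⟩
        refine ⟨(m : ℤ), ?_⟩
        show (s ^ d) ^ (m : ℤ) = T P
        rw [zpow_natCast, ← pow_mul, ha']
    have hsum : ∑ d ∈ (orderOf s).divisors,
        (if T P ∈ Subgroup.zpowers (s ^ d) then ArithmeticFunction.moebius d else 0) =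
        ∑ d ∈ (Nat.gcd (orderOf s) a).divisors, ArithmeticFunction.moebius d := by
      rw [← Finset.sum_filter]
      refine Finset.sum_congr ?_ fun _ _ => rfl
      ext d
      rw [Finset.mem_filter]
      constructor
      · rintro ⟨hd1, hd2⟩
        refine Nat.mem_divisors.2
          ⟨Nat.dvd_gcd (Nat.dvd_of_mem_divisors hd1) ((hiff d hd1).1 hd2), ?_⟩
        exact (Nat.gcd_pos_of_pos_left a hc).ne'
      · intro hd3
        have hd1 := Nat.dvd_of_mem_divisors hd3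
        have hd2 : d ∈ (orderOf s).divisors :=
          Nat.mem_divisors.2 ⟨hd1.trans (Nat.gcd_dvd_left _ _), hc.ne'⟩
        exact ⟨hd2, (hiff d hd2).2 (hd1.trans (Nat.gcd_dvd_right _ _))⟩
    rw [hsum]
    have hmu : ∑ d ∈ (Nat.gcd (orderOf s) a).divisors, ArithmeticFunction.moebius d =
        if Nat.gcd (orderOf s) a = 1 then 1 else 0 := by
      rw [← ArithmeticFunction.coe_mul_zeta_apply, ArithmeticFunction.moebius_mul_coe_zeta,
        ArithmeticFunction.one_apply]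
    rw [hmu, if_neg]
    intro hg
    refine hno P hP (T P) (hT P hP) ?_
    refine Subgroup.eq_of_le_of_card_ge ((Subgroup.zpowers_le).2 hs) ?_
    rw [Nat.card_zpowers, Nat.card_zpowers, ← ha', Nat.Coprime.orderOf_pow hg]
  · refine Finset.sum_eq_zero fun d _ => if_neg fun h => hs ?_
    have h1 : Subgroup.zpowers (s ^ d) ≤ Subgroup.zpowers s :=
      (Subgroup.zpowers_le).2 (Subgroup.pow_mem _ (Subgroup.mem_zpowers s) d)
    exact h1 h

end Pool.Agent.H85.CP
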