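import Pool.Agent.H85.CP.Ana
import Pool.Agent.H85.CP.EfZ
import Pool.Agent.H85.CP.EfS
import Pool.Agent.H85.CP.Mob
import Pool.Agent.H85.CP.Ist

/-!
# [H85 CP LP] The least prime in a division

`M/ℚ` Galois of degree `≤ n`, `s ∈ Gal(M/ℚ)`, `B ≥ 2`. There are a prime `ℓ ∤ B`, `ℓ ∤ discr M`, `ℓ ≤ (B |discr M|)^A`, and a prime `P` above `ℓ` whose
Frobenius generates `⟨s⟩`.

Proof. `n' = max n 2`. `c = orderOf s ≤ n` (`orderOf_le_card`, `|Gal| = finrank`), index types `I = IS c 1`, `J = IS c (-1)` (as subtypes `↥(IS c 1)`), fields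
`k x` = fixed field of `⟨s^x.1⟩` (degree `≤ n`, `discr (k x) ∣ discr M` by `NumberField.discr_dvd_discr`, so `|discr (k x)| ≤ |discr M| =: D`, `D ≥ 1`).
`EF_ZD n'` gives `K₁, C₁, A₁`; `qt_close n' (n'^2)` gives `K₂`; `K = max K₁ K₂`, `Q = C₁ D^A₁ ≥ 1`, `N = n'^2` (`card_IS`: `card J < card I ≤ c^2 ≤ n'^2`).
`ana n' N K` gives `C, A`. Suppose that no prime `ℓ < X` with `ℓ ∤ B' := B * |discr M|` has a `P` with Frobenius generating `⟨s⟩`. Then
for these `ℓ` `mob` and `sum_IS` (with `g d = aa (fixedField (zpowers (s^d))) ℓ`) give `∑_I aa = ∑_J aa`, so `qt_close` gives the hypothesis of `ana`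
and `X ≤ C (Q B')^A ≤ (B D)^A'` for a suitable `A'` depending only on `n` (`B D ≥ 2`, so constants are absorbed: `C C₁^A ≤ 2^j`).
Apply this with `X = ⌊(B D)^A'⌋ + 1 = (B D)^A' + 1` (`B D` is a natural number): contradiction, so such an `ℓ < X`, i.e. `ℓ ≤ (B D)^A'`, exists.
-/

set_option autoImplicit false

namespace Pool.Agent.H85.CP

open NumberField

theorem least_prime (n : ℕ) : ∃ A : ℕ, ∀ (M : Type) [Field M] [NumberField M] [IsGalois ℚ M],
    Module.finrank ℚ M ≤ n → ∀ (s : Gal(M/ℚ)) (B : ℕ), 2 ≤ B →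
    ∃ ℓ : ℕ, ℓ.Prime ∧ ¬ ℓ ∣ B ∧ ¬ (ℓ : ℤ) ∣ discr M ∧ ℓ ≤ (B * (discr M).natAbs) ^ A ∧
      ∃ P ∈ Pr M ℓ, ∃ t : Gal(M/ℚ), IsFr ℓ P t ∧ Subgroup.zpowers t = Subgroup.zpowers s := by
  have hn2 : 2 ≤ max n 2 := le_max_right _ _
  obtain ⟨K₁, C₁, A₁, hK1, hC1, hZD⟩ := EF_ZD (max n 2) (by omega)
  obtain ⟨K₂, hK2, hqt⟩ := qt_close (max n 2) ((max n 2) ^ 2)
  obtain ⟨C, A, hC, hana⟩ := ana (max n 2) ((max n 2) ^ 2) hn2 (max K₁ K₂)
  obtain ⟨j, hj⟩ := pow_unbounded_of_one_lt (C * C₁ ^ A) (one_lt_two : (1 : ℝ) < 2)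
  refine ⟨j + (A₁ + 1) * A, ?_⟩
  intro M _ _ _ hM s B hB
  by_contra hcon
  push Not at hcon
  have hD0 : discr M ≠ 0 := discr_ne_zero M
  have hD : 1 ≤ (discr M).natAbs := Nat.one_le_iff_ne_zero.2 (Int.natAbs_ne_zero.2 hD0)
  have hBD : 2 ≤ B * (discr M).natAbs := by nlinarith
  have hc : 0 < orderOf s := orderOf_pos s
  have hcn : orderOf s ≤ max n 2 := by
    have h1 : orderOf s ≤ Nat.card Gal(M/ℚ) := orderOf_le_card
    rw [IsGalois.card_aut_eq_finrank] at h1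
    exact h1.trans (hM.trans (le_max_left _ _))
  have hdeg : ∀ L : IntermediateField ℚ M, Module.finrank ℚ L ≤ max n 2 := by
    intro L
    have h1 : Module.finrank ℚ L ≤ Module.finrank ℚ M :=
      Submodule.finrank_le (Subalgebra.toSubmodule L.toSubalgebra)
    exact h1.trans (hM.trans (le_max_left _ _))
  have hdis : ∀ L : IntermediateField ℚ M, |(discr L : ℝ)| ≤ ((discr M).natAbs : ℝ) := by
    intro L
    have h1 : discr L ∣ discr M := NumberField.discr_dvd_discr L M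
    have h2 : (discr L).natAbs ≤ (discr M).natAbs :=
      Nat.le_of_dvd hD (Int.natAbs_dvd_natAbs.2 h1)
    rw [← Int.cast_abs, ← Nat.cast_natAbs]
    exact_mod_cast h2
  have hQ1 : 1 ≤ C₁ * ((discr M).natAbs : ℝ) ^ A₁ := by
    have h1 : (1 : ℝ) ≤ ((discr M).natAbs : ℝ) ^ A₁ := one_le_pow₀ (by exact_mod_cast hD)
    nlinarith
  have hex : ∀ L : IntermediateField ℚ M, ∃ Z : ℂ → ℂ, ZD (max n 2) (max K₁ K₂)
      (C₁ * ((discr M).natAbs : ℝ) ^ A₁) (zk L) (EF L) Z := by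
    intro L
    obtain ⟨Z, hZ⟩ := hZD L (hdeg L)
    refine ⟨Z, hZ.mono (le_max_left _ _) ?_⟩
    exact mul_le_mul_of_nonneg_left (pow_le_pow_left₀ (abs_nonneg _) (hdis L) A₁) (by linarith)
  choose Z hZ using hex
  obtain ⟨hcard1, hcard2⟩ := card_IS hc
  have hN : (IS (orderOf s) 1).card ≤ (max n 2) ^ 2 :=
    hcard2.trans (Nat.pow_le_pow_left hcn 2)
  have hI : Fintype.card ↥(IS (orderOf s) 1) ≤ (max n 2) ^ 2 := by
    rw [Fintype.card_coe]
    exact hN
  have hJI : Fintype.card ↥(IS (orderOf s) (-1)) < Fintype.card ↥(IS (orderOf s) 1) := by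
    rw [Fintype.card_coe, Fintype.card_coe]
    exact hcard1
  have hmain := hana (C₁ * ((discr M).natAbs : ℝ) ^ A₁) hQ1 ↥(IS (orderOf s) 1)
    ↥(IS (orderOf s) (-1))
    (fun i => zk (IntermediateField.fixedField (Subgroup.zpowers (s ^ i.1.1))))
    (fun i => Z (IntermediateField.fixedField (Subgroup.zpowers (s ^ i.1.1))))
    (fun i => zk (IntermediateField.fixedField (Subgroup.zpowers (s ^ i.1.1))))
    (fun i => Z (IntermediateField.fixedField (Subgroup.zpowers (s ^ i.1.1))))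
    (fun i => EF (IntermediateField.fixedField (Subgroup.zpowers (s ^ i.1.1))))
    (fun i => EF (IntermediateField.fixedField (Subgroup.zpowers (s ^ i.1.1))))
    hI hJI (fun i => hZ _) (fun i => hZ _) (B * (discr M).natAbs)
    ((B * (discr M).natAbs) ^ (j + (A₁ + 1) * A) + 1) (by omega) (by
      intro ℓ hℓ hX hB' z hz
      have h1 : ¬ ℓ ∣ B := fun h => hB' (h.mul_right _)
      have h2 : ¬ (ℓ : ℤ) ∣ discr M := fun h => hB' ((Int.natCast_dvd.1 h).mul_left _)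
      have h3 := mob hℓ h2 s (fun P hP t ht =>
        hcon ℓ hℓ h1 h2 (Nat.lt_succ_iff.1 hX) P hP t ht)
      have h4 := sum_IS (orderOf s) (fun d =>
        (aa (IntermediateField.fixedField (Subgroup.zpowers (s ^ d))) ℓ : ℤ))
      rw [h3, sub_eq_zero] at h4
      have h5 : ∑ i : ↥(IS (orderOf s) 1),
          aa (IntermediateField.fixedField (Subgroup.zpowers (s ^ i.1.1))) ℓ =
          ∑ i : ↥(IS (orderOf s) (-1)),
          aa (IntermediateField.fixedField (Subgroup.zpowers (s ^ i.1.1))) ℓ := by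
        rw [Finset.sum_coe_sort (IS (orderOf s) 1)
            (fun x => aa (IntermediateField.fixedField (Subgroup.zpowers (s ^ x.1))) ℓ),
          Finset.sum_coe_sort (IS (orderOf s) (-1))
            (fun x => aa (IntermediateField.fixedField (Subgroup.zpowers (s ^ x.1))) ℓ)]
        exact_mod_cast h4
      refine (hqt ↥(IS (orderOf s) 1) ↥(IS (orderOf s) (-1))
        (fun i => IntermediateField.fixedField (Subgroup.zpowers (s ^ i.1.1)))
        (fun i => IntermediateField.fixedField (Subgroup.zpowers (s ^ i.1.1)))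
        hI (hJI.le.trans hI) (fun i => hdeg _) (fun i => hdeg _) ℓ hℓ h5 z hz).trans ?_
      exact mul_le_mul_of_nonneg_right (le_max_right _ _)
        (Real.rpow_nonneg (Nat.cast_nonneg _) _))
  have hBDr : (1 : ℝ) ≤ ((B * (discr M).natAbs : ℕ) : ℝ) := by
    exact_mod_cast (by omega : 1 ≤ B * (discr M).natAbs)
  have hBDr2 : (2 : ℝ) ≤ ((B * (discr M).natAbs : ℕ) : ℝ) := by exact_mod_cast hBD
  have hDle : ((discr M).natAbs : ℝ) ≤ ((B * (discr M).natAbs : ℕ) : ℝ) := by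
    have h1 : (discr M).natAbs ≤ B * (discr M).natAbs := Nat.le_mul_of_pos_left _ (by omega)
    exact_mod_cast h1
  have hfin : ((((B * (discr M).natAbs) ^ (j + (A₁ + 1) * A) + 1 : ℕ)) : ℝ) ≤
      (((B * (discr M).natAbs : ℕ) : ℝ)) ^ (j + (A₁ + 1) * A) := by
    refine hmain.trans ?_
    calc C * (C₁ * ((discr M).natAbs : ℝ) ^ A₁ * ((B * (discr M).natAbs : ℕ) : ℝ)) ^ A
        ≤ C * (C₁ * (((B * (discr M).natAbs : ℕ) : ℝ)) ^ A₁ *
            ((B * (discr M).natAbs : ℕ) : ℝ)) ^ A := by gcongr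
      _ = (C * C₁ ^ A) * (((B * (discr M).natAbs : ℕ) : ℝ)) ^ ((A₁ + 1) * A) := by
          rw [mul_assoc, ← pow_succ, mul_pow, ← pow_mul]
          ring
      _ ≤ 2 ^ j * (((B * (discr M).natAbs : ℕ) : ℝ)) ^ ((A₁ + 1) * A) := by
          gcongr
      _ ≤ (((B * (discr M).natAbs : ℕ) : ℝ)) ^ j *
            (((B * (discr M).natAbs : ℕ) : ℝ)) ^ ((A₁ + 1) * A) := by gcongr
      _ = _ := by rw [← pow_add]
  rw [Nat.cast_add, Nat.cast_pow, Nat.cast_one] at hfin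
  linarith

end Pool.Agent.H85.CP
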