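import Pool.Agent.H85.CP.Ram
import Pool.Agent.H85.CP.FM
import Pool.Agent.H85.CP.LP
import Pool.Agent.H85.CP.Grp

/-!
# [H85 CP FIN] Assembly

* `LX_gt`: if `LX E r` has degree `1`, then every `σ` fixes all `x ∈ LX E r` (these are rational), so `SqSc E r σ` by `SqSc_of_pow` with `φ = 1`,
  `n = 1` (`SqSc E r 1` holds with the integer `1`); but `NotDih E r` for `m = -1` and a root `y` of `X^2 + 1` gives a `σ` which is not
  `SqSc`. So the degree is `> 1` and `NumberField.abs_discr_gt_two` applies.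
* `cp_main`. Let `n = 2 * (r^2)^(r^2)`, `A₀` from `least_prime n`, `D = |discr (LX E r)| ≥ 3`, `p ≥ 29` (else `p ≤ 29 ≤ 3^4 ≤ D^4`). `cp_local` gives `m, y`. Instances:
  `LX_galois`, `MX_galois` (`NumberField` of a finite dimensional intermediate field: `⟨⟩` as anonymous constructor with the instances).
  (a) Every prime `q ∣ m` divides `6 r D`: `q = 2, 3, r`, or `q ≥ 5`, `q ≠ r` and `ram_dvd`. So `|m| ≤ 6 r D` (`abs_le_of_primes`).
  (b) If a prime `q = 1 mod 4` divides `m`, then `q ≥ 5`, so `p^2 ≤ 4 q ≤ 4 · 6 r D`, done.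
  (c) Otherwise `NotDih` gives `σ ∈ GQ` with `σ y ≠ y`, not `SqSc E r σ`. `M = MX E r y`, `s` = restriction of `σ` to `M`, `B = 6 r`. `least_prime`: `ℓ ∤ 6 r`,
  `ℓ ∤ discr M`, `ℓ ≤ (6 r |discr M|)^A₀`, `P`, `t`, `zpowers t = zpowers s`. So `ℓ ≥ 5`, `ℓ ≠ r`. CLAIM `p ≤ 2 ℓ`. Suppose `2 ℓ < p`. `exists_restr ℓ`: `ι, res`.
  `frob_match M`: `Y`. `cp_local` gives `φ` for this `Y`, `τ = res φ`, and `frob_match` gives `g ∈ Gal(M/ℚ)` with `τ x = (g t g⁻¹) x` on `M`. Let `g' ∈ GQ` extend `g`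
  (`AlgEquiv.restrictNormalHom_surjective`), `τ' = g'⁻¹ τ g'`; `τ' x = t x` on `M`. `s = t^k` for a natural `k` (finite group), so `σ x = (τ'^k) x` on `M`.
  `τ y ≠ y`: otherwise, as `g'⁻¹... ` maps `y` to `± y`, also `τ' y = y`, so `t y = y` and `s y = y`, contradiction. So `SqSc E r τ`, `SqSc E r τ'` (`SqSc_conj` with
  `g'⁻¹`), `SqSc E r σ` (`SqSc_of_pow`, `LX E r ≤ M`). Contradiction.
  (d) `|discr M| ≤ (4 · 6 r D)^n D^2` (`MX_discr`), so `p ≤ 2 ℓ ≤ 2 (6 r (24 r D)^n D^2)^A₀ ≤ D^A` for an `A` depending only on `r` (`D ≥ 3`: `24 r ≤ 3^(24 r) ≤ D^(24 r)`).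
-/

set_option autoImplicit false

namespace Pool.Agent.H85.CP

open NumberField Pool.Agent.H27.SU

theorem LX_gt (E : WeierstrassCurve ℚ) [E.IsElliptic] (r : ℕ) [Fact r.Prime] (h : NotDih E r)
    [NumberField (LX E r)] : 3 ≤ (discr (LX E r)).natAbs := by
  have h1 : 1 < Module.finrank ℚ (LX E r) := by
    by_contra hcon
    have hpos : 0 < Module.finrank ℚ (LX E r) := Module.finrank_pos
    have h1 : Module.finrank ℚ (LX E r) = 1 := by omega
    have hbot : LX E r = ⊥ := IntermediateField.finrank_eq_one_iff.1 h1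
    obtain ⟨y, hy⟩ := IsAlgClosed.exists_pow_nat_eq (-1 : QB) (n := 2) two_pos
    obtain ⟨σ, -, hσ⟩ := h (-1) (by norm_num) ((isUnit_one.neg).squarefree) (fun q hq _ hd => by
      have h2 : (q : ℤ) ∣ 1 := by rwa [dvd_neg] at hd
      have h3 : q ∣ 1 := by exact_mod_cast h2
      exact hq.one_lt.ne' (Nat.dvd_one.1 h3)) y (by rw [hy]; push_cast; rfl)
    apply hσ
    refine SqSc_of_pow E r (φ := 1) ⟨1, fun v => ?_⟩ 1 (fun x hx => ?_)
    · rw [map_one, one_smul]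
      rfl
    · rw [hbot] at hx
      obtain ⟨a, rfl⟩ := IntermediateField.mem_bot.1 hx
      rw [AlgEquiv.commutes, AlgEquiv.commutes]
  have h2 := abs_discr_gt_two h1
  have h3 : (2 : ℤ) < ((discr (LX E r)).natAbs : ℤ) := by
    rw [Int.natCast_natAbs]
    exact h2
  omega

/-- the constants -/
private theorem const_bd (r n A₀ D d l p : ℕ) (hD : 3 ≤ D)
    (hd : d ≤ (4 * (6 * r * D)) ^ n * D ^ 2) (hl : l ≤ (6 * r * d) ^ A₀) (hp : p ≤ 2 * l) :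
    p ≤ D ^ ((24 * r + (24 * r + 1) * n + 2) * A₀ + 1) := by
  have hD1 : 1 ≤ D := by omega
  have hc : 24 * r ≤ D ^ (24 * r) :=
    (Nat.lt_pow_self (by omega : 1 < D)).le
  have h1 : 4 * (6 * r * D) ≤ D ^ (24 * r + 1) := by
    calc 4 * (6 * r * D) = (24 * r) * D := by ring
      _ ≤ D ^ (24 * r) * D := Nat.mul_le_mul_right _ hc
      _ = D ^ (24 * r + 1) := (pow_succ _ _).symm
  have h2 : 6 * r * d ≤ D ^ (24 * r + (24 * r + 1) * n + 2) := by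
    calc 6 * r * d ≤ D ^ (24 * r) * ((4 * (6 * r * D)) ^ n * D ^ 2) :=
          Nat.mul_le_mul (by omega) hd
      _ ≤ D ^ (24 * r) * ((D ^ (24 * r + 1)) ^ n * D ^ 2) :=
          Nat.mul_le_mul_left _ (Nat.mul_le_mul_right _ (Nat.pow_le_pow_left h1 n))
      _ = D ^ (24 * r + (24 * r + 1) * n + 2) := by
          rw [← pow_mul, ← pow_add, ← pow_add, add_assoc]
  calc p ≤ 2 * l := hp
    _ ≤ D * (6 * r * d) ^ A₀ := Nat.mul_le_mul (by omega) hl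
    _ ≤ D * (D ^ (24 * r + (24 * r + 1) * n + 2)) ^ A₀ :=
        Nat.mul_le_mul_left _ (Nat.pow_le_pow_left h2 A₀)
    _ = D ^ ((24 * r + (24 * r + 1) * n + 2) * A₀ + 1) := by
        rw [← pow_mul, pow_succ, mul_comm]

/-- the key step: the prime `ℓ` with a Frobenius in the right division -/
private theorem key_step (E : WeierstrassCurve ℚ) [E.IsElliptic] (r : ℕ) [Fact r.Prime] (p : ℕ)
    {m : ℤ} {y : QB} (hy : y ^ 2 = (m : QB)) (hloc : ∀ (r ℓ : ℕ) [Fact r.Prime] [Fact ℓ.Prime],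
      5 ≤ ℓ → ℓ ≠ r → 2 * ℓ < p →
        ∀ (ι : QB →ₐ[ℚ] PadicAlgCl ℓ) (res : GG ℓ →* GQ), (∀ φ x, ι (res φ x) = φ (ι x)) →
        ∀ Y : Finset (PadicAlgCl ℓ), (∀ z ∈ Y, ‖z‖ ≤ 1) →
          ∃ φ : GG ℓ, (∀ z ∈ Y, ‖φ z - z ^ ℓ‖ < 1) ∧ (res φ y ≠ y → SqSc E r (res φ)))
    {σ : GQ} (hσy : σ y ≠ y) (hσ : ¬ SqSc E r σ) [NumberField (MX E r y)]
    [IsGalois ℚ (MX E r y)] (s : Gal((MX E r y)/ℚ))
    (hs : ∀ x : MX E r y, ((s x : MX E r y) : QB) = σ (x : QB)) {ℓ : ℕ} (hℓ : ℓ.Prime)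
    (hℓB : ¬ ℓ ∣ 6 * r) (hℓd : ¬ (ℓ : ℤ) ∣ discr (MX E r y)) {P : Ideal (𝓞 (MX E r y))}
    (hP : P ∈ Pr (MX E r y) ℓ) {t : Gal((MX E r y)/ℚ)} (ht : IsFr ℓ P t)
    (hts : Subgroup.zpowers t = Subgroup.zpowers s) : p ≤ 2 * ℓ := by
  by_contra hcon
  rw [not_le] at hcon
  have : Fact ℓ.Prime := ⟨hℓ⟩
  have hℓ5 : 5 ≤ ℓ := by
    have h2 := hℓ.two_le
    by_contra hlt
    rw [not_le] at hlt
    have hc : ℓ = 2 ∨ ℓ = 3 ∨ ℓ = 4 := by omega
    rcases hc with rfl | rfl | rfl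
    · exact hℓB ⟨3 * r, by ring⟩
    · exact hℓB ⟨2 * r, by ring⟩
    · exact absurd hℓ (by norm_num)
  have hℓr : ℓ ≠ r := by
    rintro rfl
    exact hℓB (Dvd.intro_left _ rfl)
  obtain ⟨ι, res, hres⟩ := exists_restr ℓ
  obtain ⟨Y, hY1, hY⟩ := frob_match (MX E r y) hℓd ι
  obtain ⟨φ, hφY, hφ⟩ := hloc r ℓ hℓ5 hℓr hcon ι res hres Y hY1
  obtain ⟨g, hg⟩ := hY φ (res φ) (hres φ) hφY P hP t ht
  obtain ⟨g', hg'⟩ : ∃ g' : GQ, ∀ x : MX E r y, ((g x : MX E r y) : QB) = g' (x : QB) := by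
    have hAlg : Algebra.IsAlgebraic ℚ QB := AlgebraicClosure.isAlgebraic ℚ
    have hClo : IsAlgClosure ℚ QB := ⟨inferInstance, hAlg⟩
    have hNor : Normal ℚ QB := IsAlgClosure.normal ℚ QB
    obtain ⟨g', hg'⟩ := AlgEquiv.restrictNormalHom_surjective (F := ℚ) (K₁ := MX E r y) (E := QB) g
    refine ⟨g', fun x => ?_⟩
    rw [← hg']
    exact AlgEquiv.restrictNormal_commutes g' (MX E r y) x
  have hginv : ∀ x : MX E r y, (((g⁻¹ : Gal((MX E r y)/ℚ)) x : MX E r y) : QB) =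
      (g'⁻¹ : GQ) (x : QB) := by
    intro x
    have h1 := hg' ((g⁻¹ : Gal((MX E r y)/ℚ)) x)
    have h2 : g ((g⁻¹ : Gal((MX E r y)/ℚ)) x) = x := by
      rw [← AlgEquiv.mul_apply, mul_inv_cancel, AlgEquiv.one_apply]
    rw [h2] at h1
    rw [h1, ← AlgEquiv.mul_apply, inv_mul_cancel, AlgEquiv.one_apply]
  -- `τ' = g'⁻¹ τ g'` induces `t`
  have hτ : ∀ x : MX E r y, (g'⁻¹ * res φ * g') (x : QB) = ((t x : MX E r y) : QB) := by
    intro x
    rw [AlgEquiv.mul_apply, AlgEquiv.mul_apply, ← hg', hg, ← hginv]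
    congr 1
    rw [← AlgEquiv.mul_apply, ← AlgEquiv.mul_apply]
    congr 1
    group
  have hτn : ∀ (n : ℕ) (x : MX E r y), ((g'⁻¹ * res φ * g') ^ n) (x : QB) =
      (((t ^ n) x : MX E r y) : QB) := by
    intro n
    induction n with
    | zero => intro x; rfl
    | succ n ih =>
      intro x
      rw [pow_succ, AlgEquiv.mul_apply, hτ, ih, ← AlgEquiv.mul_apply, ← pow_succ]
  obtain ⟨k, hk⟩ : ∃ k : ℕ, t ^ k = s := by
    have h1 : s ∈ Subgroup.zpowers t := by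
      rw [hts]
      exact Subgroup.mem_zpowers s
    rw [← mem_powers_iff_mem_zpowers] at h1
    exact h1
  have hσk : ∀ x : MX E r y, σ (x : QB) = ((g'⁻¹ * res φ * g') ^ k) (x : QB) := by
    intro x
    rw [hτn, hk, hs]
  have hyM : y ∈ MX E r y :=
    (le_sup_right : IntermediateField.adjoin ℚ {y} ≤ MX E r y)
      (IntermediateField.mem_adjoin_simple_self ℚ y)
  -- `τ y ≠ y`
  have hτy : res φ y ≠ y := by
    intro hfix
    have h1 : (g'⁻¹ * res φ * g') y = y := by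
      have h2 : (g' y) ^ 2 = y ^ 2 := by rw [← map_pow, hy, map_intCast]
      rcases sq_eq_sq_iff_eq_or_eq_neg.1 h2 with h3 | h3
      · have h4 : (g'⁻¹ : GQ) y = y := by
          conv_lhs => rw [← h3]
          rw [← AlgEquiv.mul_apply, inv_mul_cancel, AlgEquiv.one_apply]
        rw [AlgEquiv.mul_apply, AlgEquiv.mul_apply, h3, hfix, h4]
      · have h4 : (g'⁻¹ : GQ) y = -y := by
          have h5 : (g'⁻¹ : GQ) (g' y) = y := by
            rw [← AlgEquiv.mul_apply, inv_mul_cancel, AlgEquiv.one_apply]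
          rw [h3, map_neg] at h5
          rw [← neg_eq_iff_eq_neg]
          exact h5
        rw [AlgEquiv.mul_apply, AlgEquiv.mul_apply, h3, map_neg, map_neg, hfix, h4, neg_neg]
    have h2 : ∀ n : ℕ, ((g'⁻¹ * res φ * g') ^ n) y = y := by
      intro n
      induction n with
      | zero => rfl
      | succ n ih => rw [pow_succ, AlgEquiv.mul_apply, h1, ih]
    exact hσy ((hσk ⟨y, hyM⟩).trans (h2 k))
  have h1 := SqSc_conj E r (hφ hτy) g'⁻¹
  rw [inv_inv] at h1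
  refine hσ (SqSc_of_pow E r h1 k fun x hx => ?_)
  exact hσk ⟨x, (le_sup_left : LX E r ≤ MX E r y) hx⟩

theorem cp_main (r : ℕ) [Fact r.Prime] : ∃ A : ℕ, ∀ (E : WeierstrassCurve ℚ) [E.IsElliptic],
    E.j ≠ 0 → E.j ≠ 1728 → NotDih E r → ∀ [NumberField (LX E r)] (p : ℕ) [Fact p.Prime],
    InNonsplitNormaliser E p → p ≤ (discr (LX E r)).natAbs ^ A := by
  obtain ⟨A₀, hA₀⟩ := least_prime (2 * (r ^ 2) ^ (r ^ 2))
  have hr : r.Prime := Fact.out
  have hr1 : 1 ≤ r := hr.one_lt.le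
  refine ⟨((24 * r + (24 * r + 1) * (2 * (r ^ 2) ^ (r ^ 2)) + 2) * A₀ + 1) + (24 * r + 1) + 4, ?_⟩
  intro E _ hj0 hj1 hnd _ p _ hE
  obtain ⟨D, hDd⟩ : ∃ D, D = (discr (LX E r)).natAbs := ⟨_, rfl⟩
  have hD : 3 ≤ D := by
    rw [hDd]
    exact LX_gt E r hnd
  rw [← hDd]
  have hD1 : 1 ≤ D := by omega
  have hmono : ∀ a b : ℕ, a ≤ b → D ^ a ≤ D ^ b := fun a b h => Nat.pow_le_pow_right hD1 h
  by_cases hp : p < 29
  · calc p ≤ 3 ^ 4 := by omega
      _ ≤ D ^ 4 := Nat.pow_le_pow_left hD 4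
      _ ≤ _ := hmono _ _ (by omega)
  rw [not_lt] at hp
  obtain ⟨m, y, hmsq, hm0, hy, hmq, hloc⟩ := cp_local E hj0 hj1 p hp hE
  obtain ⟨-, hLG, hLf⟩ := LX_galois E r
  obtain ⟨hMf, hMG, hMn⟩ := MX_galois E r hy
  have hMN : NumberField (MX E r y) := ⟨⟩
  -- primes dividing `m`
  have hprimes : ∀ q : ℕ, q.Prime → (q : ℤ) ∣ m → q ∣ 6 * r * D := by
    intro q hq hqm
    have : Fact q.Prime := ⟨hq⟩
    by_cases h5 : 5 ≤ q
    · by_cases hqr : q = r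
      · rw [hqr]
        exact ⟨6 * D, by ring⟩
      · obtain ⟨h1, h2, -⟩ := hmq q hq h5 hqm
        have h3 := ram_dvd E hj1 r q h5 hqr h1 h2
        have h4 : q ∣ D := by
          rw [hDd]
          exact Int.natCast_dvd.1 h3
        exact Dvd.dvd.mul_left h4 _
    · have h2 := hq.two_le
      have hc : q = 2 ∨ q = 3 ∨ q = 4 := by omega
      rcases hc with rfl | rfl | rfl
      · exact ⟨3 * r * D, by ring⟩
      · exact ⟨2 * r * D, by ring⟩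
      · exact absurd hq (by norm_num)
  have hpos : 0 < 6 * r * D := by positivity
  have hm : m.natAbs ≤ 6 * r * D := abs_le_of_primes hmsq hpos hprimes
  by_cases h4 : ∃ q : ℕ, q.Prime ∧ q % 4 = 1 ∧ (q : ℤ) ∣ m
  · obtain ⟨q, hq, hq4, hqm⟩ := h4
    have h5 : 5 ≤ q := by
      have h2 := hq.two_le
      omega
    obtain ⟨-, -, h1⟩ := hmq q hq h5 hqm
    have h2 : p ^ 2 ≤ 4 * q := by
      by_contra hcon
      exact h1 ⟨hq4, by omega⟩
    have h3 : q ≤ 6 * r * D := Nat.le_of_dvd hpos (hprimes q hq hqm)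
    have hc : 24 * r ≤ D ^ (24 * r) := (Nat.lt_pow_self (by omega : 1 < D)).le
    calc p ≤ p ^ 2 := Nat.le_self_pow two_ne_zero p
      _ ≤ 4 * q := h2
      _ ≤ 4 * (6 * r * D) := Nat.mul_le_mul_left _ h3
      _ = (24 * r) * D := by ring
      _ ≤ D ^ (24 * r) * D := Nat.mul_le_mul_right _ hc
      _ = D ^ (24 * r + 1) := (pow_succ _ _).symm
      _ ≤ _ := hmono _ _ (by omega)
  · obtain ⟨σ, hσy, hσ⟩ := hnd m hm0 hmsq (fun q hq hq4 hqm => h4 ⟨q, hq, hq4, hqm⟩) y hy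
    obtain ⟨s, hs⟩ := exists_restr_normal (MX E r y) σ
    obtain ⟨ℓ, hℓ, hℓB, hℓd, hℓb, P, hP, t, ht, hts⟩ := hA₀ (MX E r y) hMn s (6 * r) (by omega)
    have hkey := key_step E r p hy hloc hσy hσ s hs hℓ hℓB hℓd hP ht hts
    have hdM : (discr (MX E r y)).natAbs ≤
        (4 * (6 * r * D)) ^ (2 * (r ^ 2) ^ (r ^ 2)) * D ^ 2 := by
      refine (MX_discr E r hm0.ne hy).trans ?_
      rw [← hDd]
      refine Nat.mul_le_mul_right _ ?_
      calc (4 * m.natAbs) ^ Module.finrank ℚ (LX E r)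
          ≤ (4 * (6 * r * D)) ^ Module.finrank ℚ (LX E r) :=
            Nat.pow_le_pow_left (Nat.mul_le_mul_left _ hm) _
        _ ≤ _ := Nat.pow_le_pow_right (by omega) (hLf.trans (by omega))
    exact (const_bd r _ A₀ D _ ℓ p hD hdM hℓb hkey).trans (hmono _ _ (by omega))

end Pool.Agent.H85.CP
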