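import Pool.Agent.H85.CP.Stm
import Pool.Agent.H85.CP.Fin

/-!
# THEOREM CP (MP_cda23d_nt): the final statement
-/

set_option autoImplicit false

namespace Pool.Agent.H85.CP

open WeierstrassCurve Pool.Agent.H27.SU
open scoped Classical

theorem sqSc_iff (E : WeierstrassCurve ℚ) (r : ℕ) (σ : GQ) : SqSc E r σ ↔ SquareScalar E r σ := by
  constructor
  · rintro ⟨n, hn⟩
    refine ⟨n, fun P hP => ?_⟩
    have h1 := congrArg Subtype.val (hn ⟨P, hP⟩)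
    rw [rhoQ_coe, rhoQ_coe] at h1
    exact h1
  · rintro ⟨n, hn⟩
    refine ⟨n, fun v => Subtype.ext ?_⟩
    rw [rhoQ_coe, rhoQ_coe]
    exact hn v.1 v.2

theorem notDih_of (E : WeierstrassCurve ℚ) (r : ℕ) (h : NotDihedral E r) : NotDih E r := by
  intro m hm hsq hq y hy
  obtain ⟨σ, h1, h2⟩ := h m hm hsq hq y hy
  exact ⟨σ, h1, fun h3 => h2 ((sqSc_iff E r σ).1 h3)⟩

theorem XField_eq (E : WeierstrassCurve ℚ) (r : ℕ) : XField E r = LX E r := by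
  apply le_antisymm
  · rw [XField, IntermediateField.adjoin_le_iff]
    rintro x ⟨y, h, hP⟩
    exact IntermediateField.subset_adjoin _ _ ⟨⟨Affine.Point.some x y h, hP⟩, rfl⟩
  · rw [LX, IntermediateField.adjoin_le_iff]
    rintro _ ⟨⟨P, hP⟩, rfl⟩
    rcases P with _ | ⟨x, y, h⟩
    · exact zero_mem (XField E r)
    · exact IntermediateField.subset_adjoin _ _ ⟨y, h, hP⟩

theorem full_surj (E : WeierstrassCurve ℚ) (r : ℕ) (h : Nfed6cde5.HasFullTorsionAction E r)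
    (a : Au (TT E r)) : ∃ σ : GQ, rhoQ E r σ = a := by
  have h1 : ∀ v, a.1 ((a⁻¹ : Au (TT E r)).1 v) = v := fun v => by
    rw [← alb_mul_apply, mul_inv_cancel, alb_one_apply]
  have h2 : ∀ v, (a⁻¹ : Au (TT E r)).1 (a.1 v) = v := fun v => by
    rw [← alb_mul_apply, inv_mul_cancel, alb_one_apply]
  obtain ⟨f, hf⟩ : ∃ f : TT E r ≃+ TT E r, ∀ v, f v = a.1 v :=
    ⟨{ toFun := fun v => a.1 v
       invFun := fun v => (a⁻¹ : Au (TT E r)).1 v
       left_inv := h2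
       right_inv := h1
       map_add' := fun u v => map_add a.1 u v }, fun v => rfl⟩
  obtain ⟨σ, hσ⟩ := h f
  refine ⟨σ, Units.ext (AddMonoidHom.ext fun v => Subtype.ext ?_)⟩
  have h3 : ((rhoQ E r σ).1 v).1 = (f v).1 := by
    rw [rhoQ_coe]
    exact hσ v
  rw [hf] at h3
  exact h3

theorem no_two (E : WeierstrassCurve ℚ)
    (h : ∀ x : ℚ, 4 * x ^ 3 + E.b₂ * x ^ 2 + 2 * E.b₄ * x + E.b₆ ≠ 0) (v : TT E 2)
    (hv : ∀ σ : GQ, (rhoQ E 2 σ).1 v = v) : v = 0 := by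
  by_contra hv0
  obtain ⟨q, hq⟩ := fixed_rat (cx v.1) (fun σ => by rw [← rhoQ_cx, hv σ])
  have h1 := root_of_two E v hv0
  have e2 : (E.baseChange QB).b₂ = ((E.b₂ : ℚ) : QB) := by
    show (E.map (algebraMap ℚ QB)).b₂ = _
    rw [WeierstrassCurve.map_b₂]
    exact eq_ratCast (algebraMap ℚ QB) E.b₂
  have e4 : (E.baseChange QB).b₄ = ((E.b₄ : ℚ) : QB) := by
    show (E.map (algebraMap ℚ QB)).b₄ = _
    rw [WeierstrassCurve.map_b₄]
    exact eq_ratCast (algebraMap ℚ QB) E.b₄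
  have e6 : (E.baseChange QB).b₆ = ((E.b₆ : ℚ) : QB) := by
    show (E.map (algebraMap ℚ QB)).b₆ = _
    rw [WeierstrassCurve.map_b₆]
    exact eq_ratCast (algebraMap ℚ QB) E.b₆
  rw [hq, e2, e4, e6] at h1
  apply h q
  exact_mod_cast h1

theorem cp_final (r : ℕ) (hr : r.Prime) : ∃ A : ℕ, ∀ (E : WeierstrassCurve ℚ) [E.IsElliptic],
    E.j ≠ 0 → E.j ≠ 1728 →
    ((3 ≤ r ∧ Nfed6cde5.HasFullTorsionAction E r) ∨
      (r = 2 ∧ (∀ x : ℚ, 4 * x ^ 3 + E.b₂ * x ^ 2 + 2 * E.b₄ * x + E.b₆ ≠ 0) ∧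
        (0 < E.Δ ∨ ∃ q : ℕ, q.Prime ∧ q % 4 = 1 ∧ Odd (padicValRat q E.Δ))) ∨
      NotDihedral E r) →
    ∃ _ : NumberField (XField E r), ∀ (p : ℕ) [Fact p.Prime], InNonsplitNormaliser E p →
      p ≤ (NumberField.discr (XField E r)).natAbs ^ A := by
  have : Fact r.Prime := ⟨hr⟩
  obtain ⟨A, hA⟩ := cp_main r
  refine ⟨A, fun E _ hj0 hj1 h => ?_⟩
  obtain ⟨hf, -, -⟩ := LX_galois E r
  have hnd : NotDih E r := by
    rcases h with ⟨hr, hs⟩ | ⟨hr, h2, hD⟩ | h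
    · exact notDih_surj E r hr (full_surj E r hs)
    · subst hr
      exact notDih_two E (no_two E h2) hD
    · exact notDih_of E r h
  rw [XField_eq]
  have hN : NumberField (LX E r) := ⟨⟩
  exact ⟨hN, fun p _ hE => hA E hj0 hj1 hnd p hE⟩

end Pool.Agent.H85.CP
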