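import Pool.Agent.H85.CP.AnD

/-!
# [H85 CP AN1] Bounds for products over primes

* `prod_bd`: `∏_{ℓ ∈ S} ‖u ℓ‖ ≤ ∏ (1 + ‖u ℓ - 1‖) ≤ exp (∑ ‖u ℓ - 1‖)`; for `ℓ ∤ B`: `‖u ℓ - 1‖ ≤ K ℓ^(-3/2)`, and `∑ ℓ^(-3/2)` over all `ℓ ≥ 1`
  is a constant (`Real.summable_nat_rpow`); for the primes `ℓ ∣ B` (at most `log₂ B` of them: their product is `≤ B` and
  each is `≥ 2`, i.e. `2 ^ card ≤ B`) `‖u ℓ‖ ≤ K`, `K ≤ 2 ^ a`, so their product is `≤ K ^ card ≤ (2 ^ card) ^ a ≤ B ^ a`.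
* `prod_one`: for `S` a finite set of numbers `≥ X` and `‖u ℓ - 1‖ ≤ K ℓ^(-7/4)`: `‖∏_{ℓ ∈ S} u ℓ - 1‖ ≤ exp (∑ ‖u ℓ - 1‖) - 1`
  (`Finset.norm_prod_one_add_sub_one_le` or an induction on `S`), `∑_{ℓ ≥ X} ℓ^(-7/4) ≤ X^(-1/2) ∑ ℓ^(-5/4)` for `X ≥ 1`, and
  `exp t - 1 ≤ t exp t`, `t ≤ K ∑ ℓ^(-5/4)`.
-/

set_option autoImplicit false

namespace Pool.Agent.H85.CP

theorem prod_bd (K : ℝ) : ∃ (C : ℝ) (a : ℕ), 0 < C ∧ ∀ (B : ℕ), 0 < B → ∀ (u : ℕ → ℂ) (S : Finset ℕ),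
    (∀ ℓ ∈ S, ℓ.Prime) → (∀ ℓ ∈ S, ‖u ℓ‖ ≤ K) →
    (∀ ℓ ∈ S, ¬ ℓ ∣ B → ‖u ℓ - 1‖ ≤ K * (ℓ : ℝ) ^ (-(3 / 2) : ℝ)) →
    ‖∏ ℓ ∈ S, u ℓ‖ ≤ C * (B : ℝ) ^ a := by
  classical
  obtain ⟨K1, hK1⟩ : ∃ K1 : ℝ, K1 = max K 1 := ⟨_, rfl⟩
  have hKK : K ≤ K1 := by
    rw [hK1]
    exact le_max_left _ _
  have hK1' : 1 ≤ K1 := by
    rw [hK1]
    exact le_max_right _ _
  obtain ⟨a, ha⟩ := pow_unbounded_of_one_lt K1 (one_lt_two : (1 : ℝ) < 2)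
  have hs : Summable fun m : ℕ => (m : ℝ) ^ (-(3 / 2) : ℝ) := Real.summable_nat_rpow.2 (by norm_num)
  refine ⟨Real.exp (K1 * ∑' m : ℕ, (m : ℝ) ^ (-(3 / 2) : ℝ)), a, Real.exp_pos _, ?_⟩
  intro B hB u S hp hu hu1
  rw [← Finset.prod_filter_mul_prod_filter_not S (fun ℓ => ℓ ∣ B), norm_mul, mul_comm]
  have h1 : ‖∏ ℓ ∈ S.filter (fun ℓ => ℓ ∣ B), u ℓ‖ ≤ (B : ℝ) ^ a := by
    obtain ⟨T, hT⟩ : ∃ T, T = S.filter (fun ℓ => ℓ ∣ B) := ⟨_, rfl⟩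
    rw [← hT]
    have hTm : ∀ ℓ ∈ T, ℓ ∈ S ∧ ℓ ∣ B := by
      intro ℓ hℓ
      rw [hT] at hℓ
      exact Finset.mem_filter.1 hℓ
    have h2 : 2 ^ T.card ≤ B := by
      have h3 : ∏ ℓ ∈ T, ℓ ∣ B :=
        Finset.prod_primes_dvd B (fun ℓ hℓ => (hp ℓ (hTm ℓ hℓ).1).prime) fun ℓ hℓ => (hTm ℓ hℓ).2
      refine le_trans ?_ (Nat.le_of_dvd hB h3)
      rw [← Finset.prod_const]
      exact Finset.prod_le_prod' fun ℓ hℓ => (hp ℓ (hTm ℓ hℓ).1).two_le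
    calc ‖∏ ℓ ∈ T, u ℓ‖ = ∏ ℓ ∈ T, ‖u ℓ‖ := norm_prod _ _
      _ ≤ ∏ _ℓ ∈ T, (2 : ℝ) ^ a :=
          Finset.prod_le_prod (fun ℓ _ => norm_nonneg _) fun ℓ hℓ =>
            ((hu ℓ (hTm ℓ hℓ).1).trans hKK).trans ha.le
      _ = ((2 : ℝ) ^ T.card) ^ a := by rw [Finset.prod_const, ← pow_mul, ← pow_mul, mul_comm]
      _ ≤ (B : ℝ) ^ a := by
          refine pow_le_pow_left₀ (by positivity) ?_ a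
          exact_mod_cast h2
  have h2 : ‖∏ ℓ ∈ S.filter (fun ℓ => ¬ ℓ ∣ B), u ℓ‖ ≤
      Real.exp (K1 * ∑' m : ℕ, (m : ℝ) ^ (-(3 / 2) : ℝ)) := by
    obtain ⟨T, hT⟩ : ∃ T, T = S.filter (fun ℓ => ¬ ℓ ∣ B) := ⟨_, rfl⟩
    rw [← hT]
    have hTm : ∀ ℓ ∈ T, ℓ ∈ S ∧ ¬ ℓ ∣ B := by
      intro ℓ hℓ
      rw [hT] at hℓ
      exact Finset.mem_filter.1 hℓ
    calc ‖∏ ℓ ∈ T, u ℓ‖ = ∏ ℓ ∈ T, ‖u ℓ‖ := norm_prod _ _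
      _ ≤ ∏ ℓ ∈ T, Real.exp (K1 * (ℓ : ℝ) ^ (-(3 / 2) : ℝ)) := by
          refine Finset.prod_le_prod (fun ℓ _ => norm_nonneg _) fun ℓ hℓ => ?_
          have h3 := hu1 ℓ (hTm ℓ hℓ).1 (hTm ℓ hℓ).2
          have h4 : K * (ℓ : ℝ) ^ (-(3 / 2) : ℝ) ≤ K1 * (ℓ : ℝ) ^ (-(3 / 2) : ℝ) := by gcongr
          have h5 : ‖u ℓ‖ ≤ ‖u ℓ - 1‖ + 1 := by
            calc ‖u ℓ‖ = ‖(u ℓ - 1) + 1‖ := by rw [sub_add_cancel]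
              _ ≤ ‖u ℓ - 1‖ + ‖(1 : ℂ)‖ := norm_add_le _ _
              _ = ‖u ℓ - 1‖ + 1 := by rw [norm_one]
          have h6 := Real.add_one_le_exp (K1 * (ℓ : ℝ) ^ (-(3 / 2) : ℝ))
          linarith
      _ = Real.exp (K1 * ∑ ℓ ∈ T, (ℓ : ℝ) ^ (-(3 / 2) : ℝ)) := by
          rw [← Real.exp_sum, Finset.mul_sum]
      _ ≤ _ := by
          apply Real.exp_le_exp.2
          have h3 := hs.sum_le_tsum T fun m _ => Real.rpow_nonneg (Nat.cast_nonneg m) _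
          gcongr
  exact mul_le_mul h2 h1 (norm_nonneg _) (Real.exp_pos _).le

theorem prod_one (K : ℝ) : ∃ C : ℝ, 0 < C ∧ ∀ (X : ℕ), 0 < X → ∀ (u : ℕ → ℂ) (S : Finset ℕ),
    (∀ ℓ ∈ S, X ≤ ℓ) → (∀ ℓ ∈ S, ‖u ℓ - 1‖ ≤ K * (ℓ : ℝ) ^ (-(7 / 4) : ℝ)) →
    ‖∏ ℓ ∈ S, u ℓ - 1‖ ≤ C * (X : ℝ) ^ (-(1 / 2) : ℝ) := by
  obtain ⟨K1, hK1⟩ : ∃ K1 : ℝ, K1 = max K 1 := ⟨_, rfl⟩
  have hKK : K ≤ K1 := by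
    rw [hK1]
    exact le_max_left _ _
  have hK1' : 1 ≤ K1 := by
    rw [hK1]
    exact le_max_right _ _
  have hs : Summable fun m : ℕ => (m : ℝ) ^ (-(5 / 4) : ℝ) := Real.summable_nat_rpow.2 (by norm_num)
  obtain ⟨Y, hY⟩ : ∃ Y : ℝ, Y = K1 * ∑' m : ℕ, (m : ℝ) ^ (-(5 / 4) : ℝ) := ⟨_, rfl⟩
  have hY0 : 0 ≤ Y := by
    rw [hY]
    exact mul_nonneg (by linarith) (tsum_nonneg fun m => Real.rpow_nonneg (Nat.cast_nonneg m) _)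
  refine ⟨Y * Real.exp Y + 1, by positivity, ?_⟩
  intro X hX u S hS hu
  have hX0 : (0 : ℝ) < X := by exact_mod_cast hX
  have hX1 : (1 : ℝ) ≤ X := by exact_mod_cast hX
  obtain ⟨t, ht⟩ : ∃ t : ℝ, t = ∑ ℓ ∈ S, ‖u ℓ - 1‖ := ⟨_, rfl⟩
  have h1 : ‖∏ ℓ ∈ S, u ℓ - 1‖ ≤ Real.exp t - 1 := by
    have h2 := Finset.norm_prod_one_add_sub_one_le S fun ℓ => u ℓ - 1
    have h3 : ∏ ℓ ∈ S, (1 + (u ℓ - 1)) = ∏ ℓ ∈ S, u ℓ :=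
      Finset.prod_congr rfl fun ℓ _ => by ring
    rw [h3, ← ht] at h2
    exact h2
  have h2 : Real.exp t - 1 ≤ t * Real.exp t := by
    have h3 := Real.add_one_le_exp (-t)
    have h4 : (-t + 1) * Real.exp t ≤ Real.exp (-t) * Real.exp t :=
      mul_le_mul_of_nonneg_right h3 (Real.exp_pos t).le
    rw [← Real.exp_add, neg_add_cancel, Real.exp_zero] at h4
    linarith
  have ht0 : 0 ≤ t := by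
    rw [ht]
    exact Finset.sum_nonneg fun ℓ _ => norm_nonneg _
  have h3 : t ≤ Y * (X : ℝ) ^ (-(1 / 2) : ℝ) := by
    have h4 : ∀ ℓ ∈ S, ‖u ℓ - 1‖ ≤ (K1 * (X : ℝ) ^ (-(1 / 2) : ℝ)) * (ℓ : ℝ) ^ (-(5 / 4) : ℝ) := by
      intro ℓ hℓ
      have hXl : (X : ℝ) ≤ ℓ := by exact_mod_cast hS ℓ hℓ
      have hl0 : (0 : ℝ) < ℓ := lt_of_lt_of_le hX0 hXl
      have h5 : (ℓ : ℝ) ^ (-(7 / 4) : ℝ) = (ℓ : ℝ) ^ (-(1 / 2) : ℝ) * (ℓ : ℝ) ^ (-(5 / 4) : ℝ) := by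
        rw [← Real.rpow_add hl0]
        norm_num
      have h6 : (ℓ : ℝ) ^ (-(1 / 2) : ℝ) ≤ (X : ℝ) ^ (-(1 / 2) : ℝ) :=
        Real.rpow_le_rpow_of_nonpos hX0 hXl (by norm_num)
      calc ‖u ℓ - 1‖ ≤ K * (ℓ : ℝ) ^ (-(7 / 4) : ℝ) := hu ℓ hℓ
        _ ≤ K1 * ((ℓ : ℝ) ^ (-(1 / 2) : ℝ) * (ℓ : ℝ) ^ (-(5 / 4) : ℝ)) := by
            rw [h5]
            gcongr
        _ ≤ K1 * ((X : ℝ) ^ (-(1 / 2) : ℝ) * (ℓ : ℝ) ^ (-(5 / 4) : ℝ)) := by gcongr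
        _ = _ := by ring
    rw [ht, hY]
    refine (Finset.sum_le_sum h4).trans ?_
    rw [← Finset.mul_sum]
    have h5 := hs.sum_le_tsum S fun m _ => Real.rpow_nonneg (Nat.cast_nonneg m) _
    calc (K1 * (X : ℝ) ^ (-(1 / 2) : ℝ)) * ∑ ℓ ∈ S, (ℓ : ℝ) ^ (-(5 / 4) : ℝ)
        ≤ (K1 * (X : ℝ) ^ (-(1 / 2) : ℝ)) * ∑' m : ℕ, (m : ℝ) ^ (-(5 / 4) : ℝ) := by gcongr
      _ = _ := by ring
  have h4 : (X : ℝ) ^ (-(1 / 2) : ℝ) ≤ 1 := Real.rpow_le_one_of_one_le_of_nonpos hX1 (by norm_num)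
  have hXp : 0 ≤ (X : ℝ) ^ (-(1 / 2) : ℝ) := Real.rpow_nonneg hX0.le _
  have h5 : t ≤ Y := h3.trans (mul_le_of_le_one_right hY0 h4)
  calc ‖∏ ℓ ∈ S, u ℓ - 1‖ ≤ Real.exp t - 1 := h1
    _ ≤ t * Real.exp t := h2
    _ ≤ (Y * (X : ℝ) ^ (-(1 / 2) : ℝ)) * Real.exp Y := by
        gcongr
    _ = (Y * Real.exp Y) * (X : ℝ) ^ (-(1 / 2) : ℝ) := by ring
    _ ≤ (Y * Real.exp Y + 1) * (X : ℝ) ^ (-(1 / 2) : ℝ) := by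
        gcongr
        linarith

end Pool.Agent.H85.CP
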