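import Mathlib

/-!
# [H85 CP CAU] A holomorphic function which is small near `2` is small at `1`

`G` is holomorphic on a disc around `2` of radius `1 + δ > 1`, bounded there by `Q`, and by `ε` on the disc of radius `1/4`.
Then for every `m`: `‖G 1‖ ≤ ε 4^m + Q (2/δ) (1+δ)^(-m)`.

Proof. Let `c j = iteratedDeriv j G 2 / j!`. Cauchy's inequality (`Complex.norm_iteratedDeriv_le_of_forall_mem_sphere_norm_le`
or the version for `DiffContOnCl`) on the circles of radius `1/4` and `1 + δ`: `‖c j‖ ≤ ε 4^j` and `‖c j‖ ≤ Q (1+δ)^(-j)`. As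
`‖1 - 2‖ = 1 < 1 + δ`, `G 1 = ∑' j, c j (-1)^j` (`Complex.hasSum_taylorSeries_on_ball`). The terms `j < m` contribute
at most `∑_{j<m} ε 4^j ≤ ε 4^m`, the others at most `Q (1+δ)^(-m) ∑_i (1+δ)^(-i) = Q (1+δ)^(-m) (1+δ)/δ ≤ Q (1+δ)^(-m) 2/δ`.
-/

set_option autoImplicit false

namespace Pool.Agent.H85.CP

private theorem geom4 (m : ℕ) : ∑ j ∈ Finset.range m, (4 : ℝ) ^ j ≤ 4 ^ m := by
  induction m with
  | zero => simp
  | succ m ih =>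
    rw [Finset.sum_range_succ, pow_succ]
    have : (0 : ℝ) < 4 ^ m := by positivity
    linarith

private theorem coef_le {R Q : ℝ} (hR : 0 < R) {U : Set ℂ} {G : ℂ → ℂ} (hG : DifferentiableOn ℂ G U)
    (hsub : Metric.closedBall (2 : ℂ) R ⊆ U) (hQ : ∀ s ∈ Metric.closedBall (2 : ℂ) R, ‖G s‖ ≤ Q) (j : ℕ) :
    ‖((j.factorial : ℂ)⁻¹ • ((1 : ℂ) - 2) ^ j • iteratedDeriv j G 2)‖ ≤ Q * (R ^ j)⁻¹ := by
  have h1 := Complex.norm_iteratedDeriv_le_of_forall_mem_sphere_norm_le j hR (hG.diffContOnCl_ball hsub)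
    (fun z hz => hQ z (Metric.sphere_subset_closedBall hz))
  have hf : (0 : ℝ) < j.factorial := by exact_mod_cast j.factorial_pos
  rw [norm_smul, norm_smul, norm_inv, norm_pow, Complex.norm_natCast]
  have h2 : ‖(1 : ℂ) - 2‖ = 1 := by norm_num
  rw [h2, one_pow, one_mul]
  calc (j.factorial : ℝ)⁻¹ * ‖iteratedDeriv j G 2‖ ≤ (j.factorial : ℝ)⁻¹ * (j.factorial * Q / R ^ j) := by
        gcongr
    _ = Q * (R ^ j)⁻¹ := by field_simp

theorem cauchy_small {δ : ℝ} (hδ : 0 < δ) (hδ1 : δ ≤ 1) {U : Set ℂ} (hU : IsOpen U) {G : ℂ → ℂ}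
    (hG : DifferentiableOn ℂ G U) (hsub : Metric.closedBall (2 : ℂ) (1 + δ) ⊆ U) {Q ε : ℝ}
    (hQ : ∀ s ∈ Metric.closedBall (2 : ℂ) (1 + δ), ‖G s‖ ≤ Q)
    (hε : ∀ s ∈ Metric.closedBall (2 : ℂ) (1 / 4), ‖G s‖ ≤ ε) (m : ℕ) :
    ‖G 1‖ ≤ ε * 4 ^ m + Q * (2 / δ) * ((1 + δ) ^ m)⁻¹ := by
  have hε0 : 0 ≤ ε := (norm_nonneg _).trans (hε 2 (Metric.mem_closedBall_self (by norm_num)))
  have hQ0 : 0 ≤ Q := (norm_nonneg _).trans (hQ 2 (Metric.mem_closedBall_self (by linarith)))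
  obtain ⟨c, hc⟩ : ∃ c : ℕ → ℂ, c = fun j : ℕ => (j.factorial : ℂ)⁻¹ • ((1 : ℂ) - 2) ^ j • iteratedDeriv j G 2 :=
    ⟨_, rfl⟩
  have hsum : HasSum c (G 1) := by
    rw [hc]
    refine Complex.hasSum_taylorSeries_on_ball (r := 1 + δ)
      (hG.mono (Metric.ball_subset_closedBall.trans hsub)) ?_
    rw [Metric.mem_ball, Complex.dist_eq]
    have h2 : ‖(1 : ℂ) - 2‖ = 1 := by norm_num
    rw [h2]
    linarith
  have hc1 : ∀ j, ‖c j‖ ≤ ε * 4 ^ j := by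
    intro j
    have h1 := coef_le (R := 1 / 4) (by norm_num) hG
      ((Metric.closedBall_subset_closedBall (by linarith)).trans hsub) hε j
    rw [hc]
    refine h1.trans (le_of_eq ?_)
    rw [one_div, inv_pow, inv_inv]
  have hc2 : ∀ j, ‖c j‖ ≤ Q * ((1 + δ) ^ j)⁻¹ := by
    intro j
    rw [hc]
    exact coef_le (by linarith) hG hsub hQ j
  have hr0 : 0 < 1 + δ := by linarith
  have hr1 : (1 + δ)⁻¹ < 1 := inv_lt_one_of_one_lt₀ (by linarith)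
  have htail : ‖∑' j, c (j + m)‖ ≤ Q * ((1 + δ) ^ m)⁻¹ * (1 - (1 + δ)⁻¹)⁻¹ := by
    have h1 : HasSum (fun j : ℕ => Q * ((1 + δ) ^ m)⁻¹ * ((1 + δ)⁻¹) ^ j)
        (Q * ((1 + δ) ^ m)⁻¹ * (1 - (1 + δ)⁻¹)⁻¹) :=
      (hasSum_geometric_of_lt_one (by positivity) hr1).mul_left _
    refine tsum_of_norm_bounded h1 fun j => (hc2 (j + m)).trans (le_of_eq ?_)
    rw [pow_add, mul_inv, inv_pow]
    ring
  have h3 : (1 - (1 + δ)⁻¹)⁻¹ ≤ 2 / δ := by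
    have h4 : 1 - (1 + δ)⁻¹ = δ / (1 + δ) := by
      field_simp
      ring
    rw [h4, inv_div]
    gcongr
    linarith
  calc ‖G 1‖ = ‖∑ j ∈ Finset.range m, c j + ∑' j, c (j + m)‖ := by
        rw [hsum.summable.sum_add_tsum_nat_add m, hsum.tsum_eq]
    _ ≤ ‖∑ j ∈ Finset.range m, c j‖ + ‖∑' j, c (j + m)‖ := norm_add_le _ _
    _ ≤ ∑ j ∈ Finset.range m, ε * 4 ^ j + Q * ((1 + δ) ^ m)⁻¹ * (1 - (1 + δ)⁻¹)⁻¹ :=
        add_le_add ((norm_sum_le _ _).trans (Finset.sum_le_sum fun j _ => hc1 j)) htail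
    _ ≤ ε * 4 ^ m + Q * ((1 + δ) ^ m)⁻¹ * (2 / δ) := by
        rw [← Finset.mul_sum]
        have := geom4 m
        gcongr
    _ = _ := by ring

end Pool.Agent.H85.CP
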