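import Pool.Agent.H85.CP.An2
import Pool.Agent.H85.CP.Cau

/-!
# [H85 CP ANA] The analytic argument

Proof. `a = card I > b = card J`. `G s = ∏_i Z i s - (s - 1)^(a - b) * (∏_j W j s) * hh E F X s`, holomorphic for `Re s > 1 - 1/n`
(`n ≥ 2`, so `1 - 1/n > 0`). With `δ = 1/(2n) ≤ 1/4` the closed disc of radius `1 + δ` around `2` lies in `Re s ≥ 1 - δ > 1 - 1/n`, and
`Re s ≥ 3/4` there. On it `‖G s‖ ≤ Q^N + 3^N Q^N C₁ B^a' ≤ C₂ Q^N B^a'` (`hh_bd`, `Q ≥ 1`, `‖s - 1‖ ≤ 1 + 1 + δ ≤ 3`).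
For `‖s - 2‖ ≤ 1/4` (`Re s ≥ 7/4 > 1`): `G s = (s - 1)^a (∏_i f i s - (∏_j g j s) hh X s)`, so `‖G s‖ ≤ 3^N C₃ X^(-1/2)` (`diff_bd`).
`G 1 = ∏_i Z i 1` as `a - b ≥ 1` (`(1 - 1)^(a - b) = 0`), and `‖G 1‖ ≥ Q^(-N)`.
`cauchy_small`: `Q^(-N) ≤ ε 4^m + C₂ Q^N B^a' (4 n) (1+δ)^(-m)` for all `m`, `ε = C₄ X^(-1/2)`. Choose `m` with
`(1+δ)^m ≥ 2 * C₂ * 4 n * Q^(2N) * B^a'` minimal: the second term is at most `Q^(-N)/2`, so `Q^(-N)/2 ≤ ε 4^m`, and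
`4^m ≤ 4 ((1+δ)^(m-1))^κ ≤ 4 (8 n C₂ Q^(2N) B^a')^κ`, `κ` a natural number with `4 ≤ (1+δ)^κ` (depends only on `n`). So
`X^(1/2) ≤ 2 C₄ Q^N 4^m ≤ C (Q B)^A`. (If `m = 0` everything is bounded.)
-/

set_option autoImplicit false

namespace Pool.Agent.H85.CP

/-- elementary: elimination of `m` -/
private lemma elim_m (δ : ℝ) (hδ : 0 < δ) (D : ℝ) (hD : 0 < D) : ∃ (C : ℝ) (k : ℕ), 0 < C ∧
    ∀ (U V ε : ℝ), 1 ≤ U → 1 ≤ V → 0 ≤ ε →
      (∀ m : ℕ, U⁻¹ ≤ ε * 4 ^ m + D * V * ((1 + δ) ^ m)⁻¹) → 1 ≤ C * (U * V) ^ k * ε := by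
  -- `κ` with `4 ≤ (1 + δ)^κ`
  obtain ⟨κ, hκ⟩ := pow_unbounded_of_one_lt (4 : ℝ) (show (1 : ℝ) < 1 + δ by linarith)
  set D1 : ℝ := max D 1 with hD1
  have hD11 : 1 ≤ D1 := le_max_right _ _
  have hDD1 : D ≤ D1 := le_max_left _ _
  refine ⟨2 * 4 * (2 * D1) ^ κ, κ + 1, by positivity, ?_⟩
  intro U V ε hU hV hε h
  have hU0 : 0 < U := by linarith
  have hV0 : 0 < V := by linarith
  have hUV : 1 ≤ U * V := by nlinarith
  -- minimal `m`
  have hex : ∃ m : ℕ, 2 * D1 * (U * V) ≤ (1 + δ) ^ m := by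
    obtain ⟨m, hm⟩ := pow_unbounded_of_one_lt (2 * D1 * (U * V)) (show (1 : ℝ) < 1 + δ by linarith)
    exact ⟨m, hm.le⟩
  classical
  have hm := Nat.find_spec hex
  have hmin := fun k => Nat.find_min hex (m := k)
  set m := Nat.find hex with hmdef
  have hm0 : m ≠ 0 := by
    intro h0
    rw [h0, pow_zero] at hm
    nlinarith
  have hprev : (1 + δ) ^ (m - 1) ≤ 2 * D1 * (U * V) := by
    have := hmin (m - 1) (by omega)
    exact (not_le.1 this).le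
  have hbig : (0 : ℝ) < (1 + δ) ^ m := by positivity
  have h2 : D * V * ((1 + δ) ^ m)⁻¹ ≤ U⁻¹ / 2 := by
    rw [← div_eq_mul_inv, div_le_iff₀ hbig]
    have h3 : U⁻¹ / 2 * (2 * D1 * (U * V)) = D1 * V := by
      field_simp
    calc D * V ≤ D1 * V := mul_le_mul_of_nonneg_right hDD1 hV0.le
      _ = U⁻¹ / 2 * (2 * D1 * (U * V)) := h3.symm
      _ ≤ U⁻¹ / 2 * (1 + δ) ^ m := mul_le_mul_of_nonneg_left hm (by positivity)
  have h4 := h m
  have h5 : U⁻¹ / 2 ≤ ε * 4 ^ m := by linarith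
  have h6 : (4 : ℝ) ^ m ≤ 4 * (2 * D1 * (U * V)) ^ κ := by
    have h7 : (4 : ℝ) ^ m = 4 * 4 ^ (m - 1) := by
      rw [← pow_succ', Nat.sub_add_cancel (Nat.one_le_iff_ne_zero.2 hm0)]
    rw [h7]
    refine mul_le_mul_of_nonneg_left ?_ (by norm_num)
    calc (4 : ℝ) ^ (m - 1) ≤ ((1 + δ) ^ κ) ^ (m - 1) := pow_le_pow_left₀ (by norm_num) hκ.le _
      _ = ((1 + δ) ^ (m - 1)) ^ κ := by rw [← pow_mul, ← pow_mul, mul_comm]
      _ ≤ _ := pow_le_pow_left₀ (by positivity) hprev _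
  have h8 : U⁻¹ / 2 ≤ ε * (4 * (2 * D1 * (U * V)) ^ κ) :=
    h5.trans (mul_le_mul_of_nonneg_left h6 hε)
  have h9 : 1 ≤ 2 * U * (ε * (4 * (2 * D1 * (U * V)) ^ κ)) := by
    have h10 : 2 * U * (U⁻¹ / 2) = 1 := by field_simp
    rw [← h10]
    exact mul_le_mul_of_nonneg_left h8 (by positivity)
  have h11 : 2 * U * (ε * (4 * (2 * D1 * (U * V)) ^ κ)) ≤
      2 * 4 * (2 * D1) ^ κ * (U * V) ^ (κ + 1) * ε := by
    have h12 : 2 * U * (ε * (4 * (2 * D1 * (U * V)) ^ κ)) =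
        (2 * 4 * (2 * D1) ^ κ * (U * V) ^ κ * ε) * U := by
      rw [mul_pow (2 * D1)]; ring
    have h13 : 2 * 4 * (2 * D1) ^ κ * (U * V) ^ (κ + 1) * ε =
        (2 * 4 * (2 * D1) ^ κ * (U * V) ^ κ * ε) * (U * V) := by ring
    rw [h12, h13]
    refine mul_le_mul_of_nonneg_left ?_ (by positivity)
    nlinarith
  exact h9.trans h11

theorem ana (n N : ℕ) (hn : 2 ≤ n) (K : ℝ) : ∃ (C : ℝ) (A : ℕ), 0 < C ∧ ∀ (Q : ℝ), 1 ≤ Q →
    ∀ (I J : Type) [Fintype I] [Fintype J] (f Z : I → ℂ → ℂ) (g W : J → ℂ → ℂ) (E : I → ℕ → ℂ → ℂ)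
      (F : J → ℕ → ℂ → ℂ), Fintype.card I ≤ N → Fintype.card J < Fintype.card I →
    (∀ i, ZD n K Q (f i) (E i) (Z i)) → (∀ j, ZD n K Q (g j) (F j) (W j)) →
    ∀ (B X : ℕ), 0 < B →
    (∀ ℓ : ℕ, ℓ.Prime → ℓ < X → ¬ ℓ ∣ B → ∀ s : ℂ, 1 / 2 ≤ s.re →
      ‖qt E F ℓ s - 1‖ ≤ K * (ℓ : ℝ) ^ (-2 * s.re)) →
    (X : ℝ) ≤ C * (Q * B) ^ A := by
  obtain ⟨C1, a, hC1, hb⟩ := hh_bd N K
  obtain ⟨C3, hC3, hd⟩ := diff_bd N K
  have hn0 : (0 : ℝ) < n := by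
    have : 0 < n := by omega
    exact_mod_cast this
  have hn2 : (2 : ℝ) ≤ n := by exact_mod_cast hn
  set δ : ℝ := 1 / (2 * n) with hδ
  have hδ0 : 0 < δ := by positivity
  have hδ4 : δ ≤ 1 / 4 := by
    rw [hδ]
    apply one_div_le_one_div_of_le <;> linarith
  set D : ℝ := (1 + 3 ^ N * C1) * (2 / δ) with hD
  obtain ⟨C5, k, hC5, hel⟩ := elim_m δ hδ0 D (by positivity)
  refine ⟨(C5 * (3 ^ N * C3)) ^ 2 + 1, 2 * ((2 * N + a) * k), by positivity, ?_⟩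
  intro Q hQ I J _ _ f Z g W E F hI hJI hE hF B X hB hq
  have hB1 : (1 : ℝ) ≤ B := by exact_mod_cast hB
  have hQ0 : 0 < Q := by linarith
  have hQB : 1 ≤ Q * B := by nlinarith
  have hJ : Fintype.card J ≤ N := by omega
  rcases Nat.eq_zero_or_pos X with hX0 | hX
  · subst hX0
    have h1 : (0 : ℝ) ≤ ((C5 * (3 ^ N * C3)) ^ 2 + 1) * (Q * B) ^ (2 * ((2 * N + a) * k)) := by
      positivity
    simpa using h1
  set c := Fintype.card I - Fintype.card J with hc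
  have hc1 : c ≠ 0 := by omega
  -- the function
  set G : ℂ → ℂ := fun s => ∏ i, Z i s - (s - 1) ^ c * (∏ j, W j s) * hh E F X s with hG
  set U : Set ℂ := {s | 1 - 1 / (n : ℝ) < s.re} with hU
  have hUo : IsOpen U := isOpen_lt continuous_const Complex.continuous_re
  have hUpos : ∀ s ∈ U, 0 < s.re := by
    intro s hs
    have h1 : 1 - 1 / (n : ℝ) < s.re := hs
    have h2 : 1 / (n : ℝ) ≤ 1 / 2 := one_div_le_one_div_of_le (by norm_num) hn2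
    linarith
  have hGd : DifferentiableOn ℂ G U := by
    refine DifferentiableOn.sub (DifferentiableOn.fun_finsetProd fun i _ => (hE i).dZ) ?_
    refine DifferentiableOn.mul (DifferentiableOn.mul ?_
      (DifferentiableOn.fun_finsetProd fun j _ => (hF j).dZ)) ?_
    · exact ((differentiable_id.sub_const 1).pow c).differentiableOn
    · exact (hh_diff hE hF X).mono fun s hs => hUpos s hs
  have hre : ∀ (s : ℂ) (ρ : ℝ), ‖s - 2‖ ≤ ρ → 2 - ρ ≤ s.re := by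
    intro s ρ hs
    have h1 := (Complex.abs_re_le_norm (s - 2)).trans hs
    rw [Complex.sub_re] at h1
    have h2 : (2 : ℂ).re = 2 := by simp
    rw [h2] at h1
    have := (abs_le.1 h1).1
    linarith
  have hnorm3 : ∀ s : ℂ, ‖s - 2‖ ≤ 1 + δ → ‖s - 1‖ ≤ 3 := by
    intro s hs
    calc ‖s - 1‖ = ‖(s - 2) + 1‖ := by ring_nf
      _ ≤ ‖s - 2‖ + ‖(1 : ℂ)‖ := norm_add_le _ _
      _ ≤ 3 := by rw [norm_one]; linarith
  have hsub : Metric.closedBall (2 : ℂ) (1 + δ) ⊆ U := by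
    intro s hs
    rw [mem_closedBall_iff_norm] at hs
    have h1 := hre s _ hs
    have h2 : 1 / (n : ℝ) = 2 * δ := by rw [hδ]; field_simp
    show 1 - 1 / (n : ℝ) < s.re
    rw [h2]
    linarith
  have hQpow : ∀ {ι : Type} [Fintype ι] (y : ι → ℂ), Fintype.card ι ≤ N → (∀ i, ‖y i‖ ≤ Q) →
      ‖∏ i, y i‖ ≤ Q ^ N := by
    intro ι _ y hι hy
    rw [norm_prod]
    calc ∏ i, ‖y i‖ ≤ ∏ _i : ι, Q :=
          Finset.prod_le_prod (fun i _ => norm_nonneg _) (fun i _ => hy i)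
      _ = Q ^ Fintype.card ι := by rw [Finset.prod_const, Finset.card_univ]
      _ ≤ Q ^ N := pow_le_pow_right₀ hQ hι
  -- the bound on the large disc
  have hGQ : ∀ s ∈ Metric.closedBall (2 : ℂ) (1 + δ),
      ‖G s‖ ≤ (1 + 3 ^ N * C1) * (Q ^ N * (B : ℝ) ^ a) := by
    intro s hs
    rw [mem_closedBall_iff_norm] at hs
    have h1 : ‖∏ i, Z i s‖ ≤ Q ^ N := hQpow _ hI fun i => (hE i).bdZ s hs
    have h2 : ‖∏ j, W j s‖ ≤ Q ^ N := hQpow _ hJ fun j => (hF j).bdZ s hs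
    have h3 : ‖hh E F X s‖ ≤ C1 * (B : ℝ) ^ a := by
      refine hb n Q I J f Z g W E F hI hJ hE hF B X hB hq s ?_
      have := hre s _ hs
      linarith
    have h4 : ‖(s - 1) ^ c‖ ≤ 3 ^ N := by
      rw [norm_pow]
      calc ‖s - 1‖ ^ c ≤ 3 ^ c := pow_le_pow_left₀ (norm_nonneg _) (hnorm3 s hs) _
        _ ≤ 3 ^ N := pow_le_pow_right₀ (by norm_num) (by omega)
    have hBa : (1 : ℝ) ≤ (B : ℝ) ^ a := one_le_pow₀ hB1
    have hQN : (0 : ℝ) < Q ^ N := by positivity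
    calc ‖G s‖ ≤ ‖∏ i, Z i s‖ + ‖(s - 1) ^ c * (∏ j, W j s) * hh E F X s‖ := norm_sub_le _ _
      _ ≤ Q ^ N + (3 ^ N * Q ^ N) * (C1 * (B : ℝ) ^ a) := by
          refine add_le_add h1 ?_
          rw [norm_mul, norm_mul]
          exact mul_le_mul (mul_le_mul h4 h2 (norm_nonneg _) (by positivity)) h3
            (norm_nonneg _) (by positivity)
      _ ≤ Q ^ N * (B : ℝ) ^ a + (3 ^ N * Q ^ N) * (C1 * (B : ℝ) ^ a) := by
          have : Q ^ N * 1 ≤ Q ^ N * (B : ℝ) ^ a := mul_le_mul_of_nonneg_left hBa hQN.le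
          linarith
      _ = _ := by ring
  -- the bound on the small disc
  set ε : ℝ := 3 ^ N * C3 * (X : ℝ) ^ (-(1 / 2) : ℝ) with hε
  have hXr : (0 : ℝ) < X := by exact_mod_cast hX
  have hε0 : 0 ≤ ε := by positivity
  have hGε : ∀ s ∈ Metric.closedBall (2 : ℂ) (1 / 4), ‖G s‖ ≤ ε := by
    intro s hs
    rw [mem_closedBall_iff_norm] at hs
    have h1 := hre s _ hs
    have hs1 : 1 < s.re := by linarith
    have h2 : G s = (s - 1) ^ Fintype.card I * (∏ i, f i s - (∏ j, g j s) * hh E F X s) := by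
      rw [hG]
      simp only
      have h3 : ∏ i, Z i s = (s - 1) ^ Fintype.card I * ∏ i, f i s := by
        rw [← Finset.card_univ, ← Finset.prod_const, ← Finset.prod_mul_distrib]
        exact Finset.prod_congr rfl fun i _ => (hE i).eqZ s hs1
      have h4 : ∏ j, W j s = (s - 1) ^ Fintype.card J * ∏ j, g j s := by
        rw [← Finset.card_univ, ← Finset.prod_const, ← Finset.prod_mul_distrib]
        exact Finset.prod_congr rfl fun j _ => (hF j).eqZ s hs1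
      have h5 : (s - 1) ^ c * (s - 1) ^ Fintype.card J = (s - 1) ^ Fintype.card I := by
        rw [← pow_add]; congr 1; omega
      rw [h3, h4, ← h5]
      ring
    rw [h2, norm_mul]
    have h6 := hd n Q I J f Z g W E F hI hJ hE hF X hX s (by linarith)
    have h7 : ‖(s - 1) ^ Fintype.card I‖ ≤ 3 ^ N := by
      rw [norm_pow]
      calc ‖s - 1‖ ^ Fintype.card I ≤ 3 ^ Fintype.card I :=
            pow_le_pow_left₀ (norm_nonneg _) (hnorm3 s (by linarith)) _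
        _ ≤ 3 ^ N := pow_le_pow_right₀ (by norm_num) hI
    calc ‖(s - 1) ^ Fintype.card I‖ * ‖∏ i, f i s - (∏ j, g j s) * hh E F X s‖
        ≤ 3 ^ N * (C3 * (X : ℝ) ^ (-(1 / 2) : ℝ)) :=
          mul_le_mul h7 h6 (norm_nonneg _) (by positivity)
      _ = ε := by rw [hε]; ring
  -- the value at one
  have hG1 : (Q ^ N)⁻¹ ≤ ‖G 1‖ := by
    have h1 : G 1 = ∏ i, Z i 1 := by
      rw [hG]
      simp [hc1]
    rw [h1, norm_prod]
    have h2 : ∀ i, Q⁻¹ ≤ ‖Z i 1‖ := by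
      intro i
      rw [inv_le_iff_one_le_mul₀' hQ0]
      exact (hE i).oneZ
    calc (Q ^ N)⁻¹ ≤ (Q ^ Fintype.card I)⁻¹ :=
          inv_anti₀ (by positivity) (pow_le_pow_right₀ hQ hI)
      _ = ∏ _i : I, Q⁻¹ := by rw [Finset.prod_const, Finset.card_univ, inv_pow]
      _ ≤ ∏ i, ‖Z i 1‖ := Finset.prod_le_prod (fun i _ => by positivity) (fun i _ => h2 i)
  have hcau := fun m : ℕ => cauchy_small hδ0 (by linarith) hUo hGd hsub hGQ hGε m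
  have hfin := hel (Q ^ N) (Q ^ N * (B : ℝ) ^ a) ε (one_le_pow₀ hQ)
    (by
      have h1 : (1 : ℝ) ≤ Q ^ N := one_le_pow₀ hQ
      have h2 : (1 : ℝ) ≤ (B : ℝ) ^ a := one_le_pow₀ hB1
      nlinarith) hε0 (fun m => by
      refine hG1.trans ((hcau m).trans (le_of_eq ?_))
      rw [hD]; ring)
  -- conclusion
  have hUV : Q ^ N * (Q ^ N * (B : ℝ) ^ a) ≤ (Q * B) ^ (2 * N + a) := by
    have h1 : Q ^ N * (Q ^ N * (B : ℝ) ^ a) = Q ^ (2 * N) * (B : ℝ) ^ a := by ring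
    rw [h1, mul_pow]
    refine mul_le_mul (pow_le_pow_right₀ hQ (by omega)) (pow_le_pow_right₀ hB1 (by omega))
      (by positivity) (by positivity)
  have hUV2 : (Q ^ N * (Q ^ N * (B : ℝ) ^ a)) ^ k ≤ (Q * B) ^ ((2 * N + a) * k) := by
    rw [pow_mul]
    exact pow_le_pow_left₀ (by positivity) hUV k
  have h1 : 1 ≤ C5 * (Q * B) ^ ((2 * N + a) * k) * ε := by
    refine hfin.trans (mul_le_mul_of_nonneg_right ?_ hε0)
    exact mul_le_mul_of_nonneg_left hUV2 hC5.le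
  have hXs : (X : ℝ) ^ (-(1 / 2) : ℝ) = (√(X : ℝ))⁻¹ := by
    rw [Real.rpow_neg hXr.le, ← Real.sqrt_eq_rpow]
  have hsq : 0 < √(X : ℝ) := Real.sqrt_pos.2 hXr
  have h2 : √(X : ℝ) ≤ (C5 * (3 ^ N * C3)) * (Q * B) ^ ((2 * N + a) * k) := by
    rw [hε, hXs] at h1
    have h3 : C5 * (Q * B) ^ ((2 * N + a) * k) * (3 ^ N * C3 * (√(X : ℝ))⁻¹) =
        (C5 * (3 ^ N * C3) * (Q * B) ^ ((2 * N + a) * k)) / √(X : ℝ) := by
      rw [div_eq_mul_inv]; ring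
    rw [h3, le_div_iff₀ hsq, one_mul] at h1
    exact h1
  calc (X : ℝ) = √(X : ℝ) ^ 2 := (Real.sq_sqrt hXr.le).symm
    _ ≤ ((C5 * (3 ^ N * C3)) * (Q * B) ^ ((2 * N + a) * k)) ^ 2 :=
        pow_le_pow_left₀ hsq.le h2 2
    _ = (C5 * (3 ^ N * C3)) ^ 2 * (Q * B) ^ (2 * ((2 * N + a) * k)) := by
        rw [mul_pow, ← pow_mul, mul_comm ((2 * N + a) * k) 2]
    _ ≤ ((C5 * (3 ^ N * C3)) ^ 2 + 1) * (Q * B) ^ (2 * ((2 * N + a) * k)) := by
        refine mul_le_mul_of_nonneg_right ?_ (by positivity)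
        linarith

end Pool.Agent.H85.CP
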