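import Pool.Agent.H85.CP.Fro

/-!
# [H85 CP CNT] Primes of degree one of a fixed field, counted by Frobenius automorphisms

`aa k ℓ` = number of the primes of `k` above `ℓ` of norm `ℓ`. Statement: `M/ℚ` Galois, `ℓ ∤ discr M`, `H` a subgroup, `F` its fixed field,
`T P` the Frobenius at `P`. Then `aa F ℓ * |H| = f * #{P ∈ Pr M ℓ : T P ∈ H}`, `f = orderOf (T P₀)`.

Proof. The `T P`, `P ∈ Pr M ℓ`, are conjugate (`Pr_trans`, `Fr_conj`, `Fr_unique`), so `orderOf (T P) = f` for all of them. `H` acts on `𝓞 M` with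
ring of invariants `𝓞 F` (`IsGaloisGroup H F M` by Galois theory, then `IsGaloisGroup.of_isFractionRing` or a direct check:
an element of `𝓞 M` fixed by `H` lies in `F` and is integral). For `P ∈ Pr M ℓ` let `v = P.under (𝓞 F) ∈ Pr F ℓ`.
(1) `N v = ℓ` iff `T P ∈ H`. If `T P ∈ H` then `x = T P • x`, `x - x^ℓ ∈ P`, for every `x ∈ 𝓞 F`: all elements of the field `𝓞 F / v` are roots of
`X^ℓ - X`, so it has at most `ℓ` elements, and `N v` is a power `ℓ^i`, `i > 0` (`norm_Pr`). If `N v = ℓ`, then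
`IsArithFrobAt.exists_of_isInvariant (𝓞 F) H P` gives `t ∈ H` with `t x - x^(N v) ∈ P`, so `IsFr ℓ P t`, `T P = t ∈ H` by `Fr_unique`.
(2) If `v ∈ Pr F ℓ`, `N v = ℓ`: the primes `P` over `v` are one orbit of `H` (`Algebra.IsInvariant.orbit_eq_primesOver`), and
the stabilizer of such a `P` in `H` is `H ∩ zpowers (T P) = zpowers (T P)` (`stab_Fr`, (1)), of order `f`. Orbit-stabilizer:
`#{P over v} * f = |H|`.
(3) Sum over the `v ∈ Pr F ℓ` with `N v = ℓ` (`Finset.card_eq_sum_card_fiberwise`):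
`aa F ℓ * |H| = f * #{P : N (P.under) = ℓ} = f * #{P : T P ∈ H}`.
-/

set_option autoImplicit false

namespace Pool.Agent.H85.CP

open NumberField
open scoped Pointwise

/-- number of the primes of degree one of `k` above `ℓ` -/
noncomputable def aa (k : Type) [Field k] [NumberField k] (ℓ : ℕ) : ℕ :=
  ((Pr k ℓ).filter fun v => Ideal.absNorm v = ℓ).card

section

variable {M : Type} [Field M] [NumberField M]

private theorem cnt_gal (H : Subgroup Gal(M/ℚ)) (F : IntermediateField ℚ M)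
    [IsGaloisGroup H F M] : IsGaloisGroup H (𝓞 F) (𝓞 M) :=
  IsGaloisGroup.of_isFractionRing H (𝓞 F) (𝓞 M) F M

private theorem cnt_under {F : IntermediateField ℚ M} {ℓ : ℕ} (hℓ : ℓ.Prime) {P : Ideal (𝓞 M)}
    (hP : P ∈ Pr M ℓ) : P.under (𝓞 F) ∈ Pr F ℓ := by
  rw [mem_Pr hℓ] at hP ⊢
  have h1 := hP.1
  refine ⟨Ideal.IsPrime.under _ _, ?_⟩
  rw [Ideal.under_def, Ideal.mem_comap, map_natCast]
  exact hP.2

private theorem cnt_card {k : Type} [Field k] [NumberField k] {ℓ : ℕ} (hℓ : ℓ.Prime)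
    {v : Ideal (𝓞 k)} (hv : v ∈ Pr k ℓ) (h : ∀ x : 𝓞 k, x - x ^ ℓ ∈ v) :
    Ideal.absNorm v = ℓ := by
  obtain ⟨f, hf, hN⟩ := norm_Pr hℓ hv
  have h1 := ((mem_Pr hℓ).1 hv).1
  have hfin := finite_Pr hℓ hv
  have hmax : v.IsMaximal :=
    Ideal.Quotient.maximal_of_isField _ (Finite.isField_of_domain (𝓞 k ⧸ v))
  letI : Field (𝓞 k ⧸ v) := Ideal.Quotient.field v
  have hfld : Fintype (𝓞 k ⧸ v) := Fintype.ofFinite _
  have hroot : ∀ y : 𝓞 k ⧸ v, y ^ ℓ = y := by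
    intro y
    obtain ⟨x, rfl⟩ := Ideal.Quotient.mk_surjective y
    rw [← map_pow]
    exact (Ideal.Quotient.eq.2 (h x)).symm
  have h5 : Nat.card (𝓞 k ⧸ v) ≤ ℓ := by
    have h7 := FiniteField.X_pow_card_sub_X_ne_zero (𝓞 k ⧸ v) hℓ.one_lt
    have h8 := FiniteField.X_pow_card_sub_X_natDegree_eq (𝓞 k ⧸ v) hℓ.one_lt
    rw [Nat.card_eq_fintype_card]
    conv_rhs => rw [← h8]
    refine Polynomial.card_le_degree_of_subset_roots (Z := Finset.univ) ?_
    intro y _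
    rw [Polynomial.mem_roots h7, Polynomial.IsRoot.def]
    simp [hroot y]
  have h6 : Ideal.absNorm v ≤ ℓ := h5
  rw [hN] at h6 ⊢
  have h7 : f ≤ 1 := by
    by_contra h8
    have h9 : ℓ ^ 1 < ℓ ^ f := Nat.pow_lt_pow_right hℓ.one_lt (by omega)
    rw [pow_one] at h9
    omega
  have h8 : f = 1 := by omega
  rw [h8, pow_one]

variable [IsGalois ℚ M] (H : Subgroup Gal(M/ℚ)) (F : IntermediateField ℚ M)
  [IsGaloisGroup H F M]

private theorem cnt_iff {ℓ : ℕ} (hℓ : ℓ.Prime) (hd : ¬ (ℓ : ℤ) ∣ discr M) {P : Ideal (𝓞 M)}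
    (hP : P ∈ Pr M ℓ) {t : Gal(M/ℚ)} (ht : IsFr ℓ P t) :
    Ideal.absNorm (P.under (𝓞 F)) = ℓ ↔ t ∈ H := by
  have hgal := cnt_gal H F
  have hPp := ((mem_Pr hℓ).1 hP).1
  have hfin := finite_Pr hℓ hP
  constructor
  · intro h
    obtain ⟨t', ht'⟩ := IsArithFrobAt.exists_of_isInvariant (𝓞 F) H P
    have h1 : IsFr ℓ P (t' : Gal(M/ℚ)) := by
      intro x
      have h2 := ht' x
      have h3 : Nat.card (𝓞 F ⧸ P.under (𝓞 F)) = ℓ := h
      rw [h3] at h2
      exact h2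
    rw [Fr_unique hℓ hd hP ht h1]
    exact t'.2
  · intro h
    refine cnt_card hℓ (cnt_under hℓ hP) ?_
    intro x
    rw [Ideal.under_def, Ideal.mem_comap, map_sub, map_pow]
    have h2 : (⟨t, h⟩ : H) • algebraMap (𝓞 F) (𝓞 M) x = algebraMap (𝓞 F) (𝓞 M) x :=
      smul_algebraMap _ _
    have h3 := ht (algebraMap (𝓞 F) (𝓞 M) x)
    have h4 : t • algebraMap (𝓞 F) (𝓞 M) x = algebraMap (𝓞 F) (𝓞 M) x := h2
    rwa [h4] at h3

open Classical in
private theorem cnt_orb {ℓ : ℕ} (hℓ : ℓ.Prime) (hd : ¬ (ℓ : ℤ) ∣ discr M)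
    (T : Ideal (𝓞 M) → Gal(M/ℚ)) (hT : ∀ P ∈ Pr M ℓ, IsFr ℓ P (T P)) {f : ℕ}
    (hf : ∀ P ∈ Pr M ℓ, orderOf (T P) = f) {v : Ideal (𝓞 F)} (hv : v ∈ Pr F ℓ)
    (hN : Ideal.absNorm v = ℓ) :
    ((Pr M ℓ).filter fun P => P.under (𝓞 F) = v).card * f = Nat.card H := by
  have hgal := cnt_gal H F
  have hv1 := (mem_Pr hℓ).1 hv
  have hvp := hv1.1
  obtain ⟨P, hPp, hPo⟩ := (Ideal.nonempty_primesOver (S := 𝓞 M) (P := v))
  have hPu : P.under (𝓞 F) = v := hPo.over.symm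
  have hP : P ∈ Pr M ℓ := by
    refine (mem_Pr hℓ).2 ⟨hPp, ?_⟩
    have h1 := hv1.2
    rw [← hPu, Ideal.under_def, Ideal.mem_comap, map_natCast] at h1
    exact h1
  have hset : (((Pr M ℓ).filter fun P => P.under (𝓞 F) = v : Finset (Ideal (𝓞 M))) :
      Set (Ideal (𝓞 M))) = MulAction.orbit H P := by
    have horb : MulAction.orbit H P = v.primesOver (𝓞 M) :=
      Algebra.IsInvariant.orbit_eq_primesOver (𝓞 F) (𝓞 M) H v P
    rw [horb]
    ext Q
    rw [Finset.mem_coe, Finset.mem_filter]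
    constructor
    · rintro ⟨h1, h2⟩
      exact ⟨((mem_Pr hℓ).1 h1).1, ⟨h2.symm⟩⟩
    · rintro ⟨h1, h2⟩
      have h3 : Q.under (𝓞 F) = v := h2.over.symm
      refine ⟨(mem_Pr hℓ).2 ⟨h1, ?_⟩, h3⟩
      have h4 := hv1.2
      rw [← h3, Ideal.under_def, Ideal.mem_comap, map_natCast] at h4
      exact h4
  have hTP : T P ∈ H := by
    rw [← cnt_iff H F hℓ hd hP (hT P hP), hPu]
    exact hN
  have hzp : Subgroup.zpowers (T P) ≤ H := by
    rw [Subgroup.zpowers_le]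
    exact hTP
  have hstab : MulAction.stabilizer H P = (Subgroup.zpowers (T P)).subgroupOf H := by
    ext g
    rw [MulAction.mem_stabilizer_iff, Subgroup.mem_subgroupOf,
      ← stab_Fr hℓ hd hP (hT P hP) (g : Gal(M/ℚ))]
    rfl
  have hcs : Nat.card (MulAction.stabilizer H P) = f := by
    rw [hstab, Nat.card_congr (Subgroup.subgroupOfEquivOfLe hzp).toEquiv, Nat.card_zpowers]
    exact hf P hP
  have h1 := Nat.card_congr (MulAction.orbitProdStabilizerEquivGroup H P)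
  rw [Nat.card_prod, hcs, ← hset] at h1
  rw [← h1]
  congr 1
  rw [Nat.card_coe_set_eq, Set.ncard_coe_finset]

end

open Classical in
theorem count_Pr {M : Type} [Field M] [NumberField M] [IsGalois ℚ M] {ℓ : ℕ} (hℓ : ℓ.Prime)
    (hd : ¬ (ℓ : ℤ) ∣ discr M) (H : Subgroup Gal(M/ℚ)) (T : Ideal (𝓞 M) → Gal(M/ℚ))
    (hT : ∀ P ∈ Pr M ℓ, IsFr ℓ P (T P)) {P₀ : Ideal (𝓞 M)} (h0 : P₀ ∈ Pr M ℓ) :
    aa (IntermediateField.fixedField H) ℓ * Nat.card H =
      orderOf (T P₀) * ((Pr M ℓ).filter fun P => T P ∈ H).card := by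
  have hF : IsGaloisGroup H (IntermediateField.fixedField H) M :=
    inferInstanceAs (IsGaloisGroup H (FixedPoints.intermediateField H : IntermediateField ℚ M) M)
  have hf : ∀ P ∈ Pr M ℓ, orderOf (T P) = orderOf (T P₀) := by
    intro P hP
    obtain ⟨g, hg⟩ := Pr_trans hℓ h0 hP
    have h1 := Fr_conj (hT P₀ h0) g
    rw [hg] at h1
    rw [Fr_unique hℓ hd hP (hT P hP) h1]
    exact orderOf_injective (MulAut.conj g).toMonoidHom (MulAut.conj g).injective (T P₀)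
  have hfib : ((Pr M ℓ).filter fun P => T P ∈ H).card =
      ∑ v ∈ (Pr (IntermediateField.fixedField H) ℓ).filter (fun v => Ideal.absNorm v = ℓ),
        ((Pr M ℓ).filter fun P => P.under (𝓞 (IntermediateField.fixedField H)) = v).card := by
    rw [Finset.card_eq_sum_card_fiberwise
      (f := fun P : Ideal (𝓞 M) => P.under (𝓞 (IntermediateField.fixedField H)))
      (t := (Pr (IntermediateField.fixedField H) ℓ).filter (fun v => Ideal.absNorm v = ℓ))]
    · refine Finset.sum_congr rfl fun v hv => ?_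
      congr 1
      ext P
      simp only [Finset.mem_filter]
      constructor
      · rintro ⟨⟨h1, h2⟩, h3⟩
        exact ⟨h1, h3⟩
      · rintro ⟨h1, h3⟩
        refine ⟨⟨h1, ?_⟩, h3⟩
        rw [← cnt_iff H (IntermediateField.fixedField H) hℓ hd h1 (hT P h1), h3]
        exact (Finset.mem_filter.1 hv).2
    · intro P hP
      obtain ⟨h1, h2⟩ := Finset.mem_filter.1 hP
      refine Finset.mem_filter.2 ⟨cnt_under hℓ h1, ?_⟩
      exact (cnt_iff H _ hℓ hd h1 (hT P h1)).2 h2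
  rw [hfib, Finset.mul_sum, aa, Finset.card_eq_sum_ones, Finset.sum_mul]
  refine Finset.sum_congr rfl fun v hv => ?_
  obtain ⟨h1, h2⟩ := Finset.mem_filter.1 hv
  rw [one_mul, mul_comm]
  exact (cnt_orb H _ hℓ hd T hT hf h1 h2).symm

end Pool.Agent.H85.CP
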