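import Mathlib

/-!
# [H85 CP DQ] The discriminant of a field `L(√m)`

Proof. Let `R = 𝓞 L`, `S = 𝓞 M`. `y` is integral, `y ∈ S`. By `NumberField.natAbs_discr_eq_absNorm_differentIdeal_mul_natAbs_discr_pow`
(`Mathlib/NumberTheory/NumberField/Discriminant/Different.lean`), `|discr M| = N(differentIdeal R S) * |discr L|^[M:L]`, and `[M:L] ≤ 2` (`y` is a root of
`X^2 - m`, `adjoin L {y} = ⊤`).
Case `[M:L] = 1`: `differentIdeal` contains ... or simply: `M = L`, so the discriminants are equal (`NumberField.discr_eq_discr_of_algEquiv` with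
`L ≃ M` from `Algebra.adjoin = ⊤`/`finrank = 1`), and `|discr L| ≤ |discr L|^2 ≤ ..` as both are `≥ 1`, `4 |m| ≥ 1`.
Case `[M:L] = 2`: the minimal polynomial of `y` over `L` (and over `R`) is `X^2 - m` (degree `2`), so `2 y ∈ differentIdeal R S`
(`aeval_derivative_mem_differentIdeal` with `adjoin L {y} = ⊤`). So `N(differentIdeal)` divides `N_{S/ℤ}(2 y)` (`Ideal.absNorm_dvd_absNorm_of_le`,
`Ideal.absNorm_span_singleton`), and `N(2y)^2 = N(4 m) = (4 m)^[M:ℚ] = ((4 m)^[L:ℚ])^2`, so `|N(2y)| = (4 |m|)^[L:ℚ] > 0`.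
-/

set_option autoImplicit false

namespace Pool.Agent.H85.CP

open NumberField

theorem discr_quad (L M : Type) [Field L] [NumberField L] [Field M] [NumberField M] [Algebra L M]
    {m : ℤ} (hm : m ≠ 0) {y : M} (hy : y ^ 2 = (m : M)) (htop : IntermediateField.adjoin L {y} = ⊤) :
    (discr M).natAbs ≤ (4 * m.natAbs) ^ Module.finrank ℚ L * (discr L).natAbs ^ 2 := by
  have hyint : IsIntegral ℤ y := by
    refine IsIntegral.of_pow (n := 2) (by norm_num) ?_
    rw [hy]
    exact isIntegral_intCast m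
  obtain ⟨Y, hY⟩ : ∃ Y : 𝓞 M, algebraMap (𝓞 M) M Y = y := ⟨⟨y, hyint⟩, rfl⟩
  have hYsq : Y ^ 2 = (m : 𝓞 M) := by
    apply FaithfulSMul.algebraMap_injective (𝓞 M) M
    rw [map_pow, hY, hy, map_intCast]
  have hyL : IsIntegral L y := hyint.tower_top
  have hYL : IsIntegral (𝓞 L) Y := by
    refine IsIntegral.of_pow (n := 2) (by norm_num) ?_
    rw [hYsq]
    exact isIntegral_intCast m
  have hadj : Algebra.adjoin L {algebraMap (𝓞 M) M Y} = ⊤ := by
    rw [hY, ← IntermediateField.adjoin_simple_toSubalgebra_of_isAlgebraic hyL.isAlgebraic, htop,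
      IntermediateField.top_toSubalgebra]
  have hmem := aeval_derivative_mem_differentIdeal (𝓞 L) L M (B := 𝓞 M) Y hadj
  have hdeg : (minpoly (𝓞 L) Y).natDegree = Module.finrank L M := by
    have h1 := minpoly.isIntegrallyClosed_eq_field_fractions L M hYL
    have h2 := IntermediateField.adjoin.finrank hyL
    rw [htop, IntermediateField.finrank_top', ← hY, h1, Polynomial.Monic.natDegree_map
      (minpoly.monic hYL)] at h2
    exact h2.symm
  have hmain := natAbs_discr_eq_absNorm_differentIdeal_mul_natAbs_discr_pow L (𝓞 L) M (𝓞 M)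
  have hmon := minpoly.monic hYL
  have hXm : (Polynomial.X ^ 2 - Polynomial.C (m : 𝓞 L)).Monic :=
    Polynomial.monic_X_pow_sub_C _ (by norm_num)
  have hXd : (Polynomial.X ^ 2 - Polynomial.C (m : 𝓞 L)).natDegree = 2 :=
    Polynomial.natDegree_X_pow_sub_C
  have hdvd : minpoly (𝓞 L) Y ∣ Polynomial.X ^ 2 - Polynomial.C (m : 𝓞 L) := by
    refine minpoly.isIntegrallyClosed_dvd hYL ?_
    rw [map_sub, map_pow, Polynomial.aeval_X, Polynomial.aeval_C, map_intCast, hYsq, sub_self]
  have hpos : 0 < Module.finrank L M := Module.finrank_pos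
  have hle2 : Module.finrank L M ≤ 2 := by
    rw [← hdeg, ← hXd]
    exact Polynomial.natDegree_le_of_dvd hdvd hXm.ne_zero
  have hdL : 1 ≤ (discr L).natAbs := Int.natAbs_pos.2 (discr_ne_zero L)
  have hm1 : 1 ≤ 4 * m.natAbs := by
    have := Int.natAbs_pos.2 hm
    omega
  rcases Nat.lt_or_ge (Module.finrank L M) 2 with h2 | h2
  · have hn : Module.finrank L M = 1 := by omega
    rw [hn] at hdeg hmain
    have h3 := hmon.eq_X_add_C hdeg
    rw [h3, Polynomial.derivative_add, Polynomial.derivative_X, Polynomial.derivative_C, add_zero,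
      map_one] at hmem
    have h4 : differentIdeal (𝓞 L) (𝓞 M) = ⊤ := (Ideal.eq_top_iff_one _).2 hmem
    rw [h4, Ideal.absNorm_top, one_mul, pow_one] at hmain
    rw [hmain]
    calc (discr L).natAbs = 1 * (discr L).natAbs ^ 1 := by rw [one_mul, pow_one]
      _ ≤ (4 * m.natAbs) ^ Module.finrank ℚ L * (discr L).natAbs ^ 2 :=
          Nat.mul_le_mul (Nat.one_le_pow _ _ (by omega)) (Nat.pow_le_pow_right hdL (by norm_num))
  · have hn : Module.finrank L M = 2 := by omega
    rw [hn] at hdeg hmain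
    have h3 : minpoly (𝓞 L) Y = Polynomial.X ^ 2 - Polynomial.C (m : 𝓞 L) :=
      (Polynomial.eq_of_monic_of_dvd_of_natDegree_le hmon hXm hdvd (by rw [hXd, hdeg])).symm
    rw [h3, Polynomial.derivative_sub, Polynomial.derivative_C, sub_zero,
      Polynomial.derivative_X_pow] at hmem
    have h4 : Polynomial.aeval Y (Polynomial.C ((2 : ℕ) : 𝓞 L) * Polynomial.X ^ (2 - 1)) =
        2 * Y := by
      rw [map_mul, Polynomial.aeval_C, map_pow, Polynomial.aeval_X, map_natCast]
      norm_num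
    rw [h4] at hmem
    have h5 : Ideal.span {2 * Y} ≤ differentIdeal (𝓞 L) (𝓞 M) :=
      (Ideal.span_singleton_le_iff_mem _).2 hmem
    have h6 := Ideal.absNorm_dvd_absNorm_of_le h5
    have h7 : Ideal.absNorm (Ideal.span {2 * Y}) ^ 2 =
        ((4 * m.natAbs) ^ Module.finrank ℚ L) ^ 2 := by
      rw [← map_pow, Ideal.span_singleton_pow, Ideal.absNorm_span_singleton]
      have h8 : (2 * Y) ^ 2 = algebraMap ℤ (𝓞 M) (4 * m) := by
        rw [mul_pow, hYsq, eq_intCast]
        push_cast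
        ring
      rw [h8, Algebra.norm_algebraMap, Int.natAbs_pow, RingOfIntegers.rank M,
        ← Module.finrank_mul_finrank ℚ L M, hn, pow_mul, Int.natAbs_mul]
      norm_num
    have h9 : Ideal.absNorm (Ideal.span {2 * Y}) = (4 * m.natAbs) ^ Module.finrank ℚ L :=
      Nat.pow_left_injective (n := 2) (by norm_num) h7
    rw [hmain]
    refine Nat.mul_le_mul_right _ (Nat.le_of_dvd ?_ (h9 ▸ h6))
    exact Nat.pow_pos (by omega)

end Pool.Agent.H85.CP
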