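import Pool.Agent.H27.SU.TRdef

/-!
# THEOREM CP (MP_cda23d_nt): definitions

`TT E r` is the `r`-torsion of `E` over `QB = ℚ̄`, `rhoQ E r` the Galois action, `cx` the x-coordinate.
-/

set_option autoImplicit false

namespace Pool.Agent.H85.CP

open Pool.Agent.H27.SU

/-- `σ²` acts as a scalar on `E[r]` -/
def SqSc (E : WeierstrassCurve ℚ) (r : ℕ) (σ : GQ) : Prop :=
  ∃ n : ℤ, ∀ v : TT E r, (rhoQ E r σ).1 ((rhoQ E r σ).1 v) = n • v

/-- `E[r]` is not dihedral for any imaginary quadratic field `ℚ(√m)` which is unramified at the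
primes `q = 1 mod 4`: some `σ` moves `√m`, and `σ²` is not a scalar on `E[r]` -/
def NotDih (E : WeierstrassCurve ℚ) (r : ℕ) : Prop :=
  ∀ m : ℤ, m < 0 → Squarefree m → (∀ q : ℕ, q.Prime → q % 4 = 1 → ¬ (q : ℤ) ∣ m) →
    ∀ y : QB, y ^ 2 = (m : QB) → ∃ σ : GQ, σ y ≠ y ∧ ¬ SqSc E r σ

/-- the field generated by the x-coordinates of the `r`-torsion points -/
noncomputable def LX (E : WeierstrassCurve ℚ) (r : ℕ) : IntermediateField ℚ QB :=
  IntermediateField.adjoin ℚ (Set.range fun v : TT E r => cx v.1)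

end Pool.Agent.H85.CP
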