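import Pool.Agent.H85.CP.PrB

/-!
# [H85 CP FRO] Frobenius automorphisms of a Galois number field at the unramified primes

`G = Gal(M/ℚ)` acts on `𝓞 M` (instance of Mathlib), `IsGaloisGroup G ℤ (𝓞 M)` is an instance. Mathlib: `RingTheory/Frobenius.lean`,
`RingTheory/Invariant/Basic.lean`, `NumberTheory/RamificationInertia/Galois.lean`. For `P ∈ Pr M ℓ` (so `P` lies over `(ℓ)`, `mem_Pr`):
`Nat.card (ℤ ⧸ P.under ℤ) = ℓ`, so `IsFr ℓ P t` is `IsArithFrobAt ℤ t P`.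
* `exists_Fr`: `IsArithFrobAt.exists_of_isInvariant`.
* `Fr_unique`: `AlgHom.IsArithFrobAt.eq_of_isUnramifiedAt` (unramified: `NumberField.not_dvd_discr_iff_isUnramifiedIn`, with
  `𝒪 = 𝓞 M`), which gives `t • x = t' • x` for all `x ∈ 𝓞 M`, hence `t = t'` (every element of `M` is `x / n`).
  Or: `t * t'⁻¹` is in the inertia group (`IsArithFrobAt.mul_inv_mem_inertia`), whose order is the ramification index `1`
  (`Ideal.card_inertia_eq_ramificationIdxIn`).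
* `Fr_conj`: `IsArithFrobAt.conj`, or directly: `(g t g⁻¹) x - x^ℓ = g (t (g⁻¹ x) - (g⁻¹ x)^ℓ)`.
* `Pr_trans`: `Ideal.exists_smul_eq_of_isGaloisGroup` or `Algebra.IsInvariant.exists_smul_of_under_eq`.
* `stab_Fr`: `t • P = P` (`IsArithFrobAt.mem_stabilizer`). If `g • P = P`, then `g` acts on the finite field `𝓞 M / P` of characteristic
  `ℓ`, as a power `x ↦ x^(ℓ^i)` of Frobenius (the automorphism group of a finite field is generated by Frobenius, e.g.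
  `FiniteField.bijective_frobeniusAlgEquivOfAlgebraic_pow` or similar), as does `t^i`. So `g x - t^i x ∈ P` for all `x`, hence
  `h = g⁻¹ t^i` has `h x - x ∈ P` for all `x` (apply `g⁻¹`, `g⁻¹ P = P`), so `t h` is a Frobenius at `P` too
  (`t (h x) - (h x)^ℓ ∈ P`, `(h x)^ℓ - x^ℓ ∈ P`), `t h = t` by `Fr_unique`, `g = t^i`.
  Or: count with `Ideal.card_stabilizer_eq_card_inertia_mul_finrank`.
-/

set_option autoImplicit false

namespace Pool.Agent.H85.CP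

open NumberField
open scoped Pointwise

variable {M : Type} [Field M] [NumberField M]

/-- `t` is a Frobenius automorphism at `P` (over `ℓ`) -/
def IsFr (ℓ : ℕ) (P : Ideal (𝓞 M)) (t : Gal(M/ℚ)) : Prop := ∀ x : 𝓞 M, t • x - x ^ ℓ ∈ P

theorem under_Pr {ℓ : ℕ} (hℓ : ℓ.Prime) {P : Ideal (𝓞 M)} (hP : P ∈ Pr M ℓ) :
    P.under ℤ = Ideal.span {(ℓ : ℤ)} := by
  obtain ⟨h1, h2⟩ := (mem_Pr hℓ).1 hP
  have h3 : P.LiesOver (Ideal.span {(ℓ : ℤ)}) := by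
    refine (Ideal.liesOver_span_iff h1.ne_top (Nat.prime_iff_prime_int.1 hℓ)).2 ?_
    rw [map_natCast]
    exact h2
  exact h3.over.symm

theorem card_under_Pr {ℓ : ℕ} (hℓ : ℓ.Prime) {P : Ideal (𝓞 M)} (hP : P ∈ Pr M ℓ) :
    Nat.card (ℤ ⧸ P.under ℤ) = ℓ := by
  rw [under_Pr hℓ hP, Nat.card_congr (Int.quotientSpanNatEquivZMod ℓ).toEquiv, Nat.card_zmod]

theorem finite_Pr {ℓ : ℕ} (hℓ : ℓ.Prime) {P : Ideal (𝓞 M)} (hP : P ∈ Pr M ℓ) :
    Finite (𝓞 M ⧸ P) := by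
  obtain ⟨f, hf, h⟩ := norm_Pr hℓ hP
  rw [← Ideal.absNorm_ne_zero_iff, h]
  exact pow_ne_zero f hℓ.ne_zero

theorem isFr_iff {ℓ : ℕ} (hℓ : ℓ.Prime) {P : Ideal (𝓞 M)} (hP : P ∈ Pr M ℓ) (t : Gal(M/ℚ)) :
    IsFr ℓ P t ↔ IsArithFrobAt ℤ t P := by
  unfold IsFr IsArithFrobAt AlgHom.IsArithFrobAt
  rw [card_under_Pr hℓ hP]
  rfl

theorem exists_Fr [IsGalois ℚ M] {ℓ : ℕ} (hℓ : ℓ.Prime) {P : Ideal (𝓞 M)} (hP : P ∈ Pr M ℓ) :
    ∃ t : Gal(M/ℚ), IsFr ℓ P t := by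
  have h1 := ((mem_Pr hℓ).1 hP).1
  have h2 := finite_Pr hℓ hP
  obtain ⟨t, ht⟩ := IsArithFrobAt.exists_of_isInvariant ℤ Gal(M/ℚ) P
  exact ⟨t, (isFr_iff hℓ hP t).2 ht⟩

theorem Fr_unique [IsGalois ℚ M] {ℓ : ℕ} (hℓ : ℓ.Prime) (hd : ¬ (ℓ : ℤ) ∣ discr M)
    {P : Ideal (𝓞 M)} (hP : P ∈ Pr M ℓ) {t t' : Gal(M/ℚ)} (h : IsFr ℓ P t) (h' : IsFr ℓ P t') :
    t = t' := by
  have h1 := ((mem_Pr hℓ).1 hP)
  have h2 := h1.1
  have h3 : Algebra.IsUnramifiedAt ℤ P := by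
    refine (NumberField.not_dvd_discr_iff_forall_mem M (𝓞 M) (Nat.prime_iff_prime_int.1 hℓ)).1 hd P h2 ?_
    rw [Int.cast_natCast]
    exact h1.2
  have h4 := AlgHom.IsArithFrobAt.eq_of_isUnramifiedAt ((isFr_iff hℓ hP t).1 h)
    ((isFr_iff hℓ hP t').1 h') (le_nonZeroDivisors_of_noZeroDivisors fun h5 => h5 P.zero_mem)
  have h5 : FaithfulSMul Gal(M/ℚ) (𝓞 M) := IsGaloisGroup.faithful ℤ
  refine eq_of_smul_eq_smul (α := 𝓞 M) fun x => ?_
  exact DFunLike.congr_fun h4 x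

theorem Fr_conj {ℓ : ℕ} {P : Ideal (𝓞 M)} {t : Gal(M/ℚ)} (h : IsFr ℓ P t) (g : Gal(M/ℚ)) :
    IsFr ℓ (g • P) (g * t * g⁻¹) := by
  intro x
  have h1 := Ideal.smul_mem_pointwise_smul g _ P (h (g⁻¹ • x))
  have h2 : g • (t • g⁻¹ • x - (g⁻¹ • x) ^ ℓ) = (g * t * g⁻¹) • x - x ^ ℓ := by
    rw [smul_sub, smul_pow', smul_inv_smul, mul_smul, mul_smul]
  rwa [h2] at h1

theorem Pr_trans [IsGalois ℚ M] {ℓ : ℕ} (hℓ : ℓ.Prime) {P P' : Ideal (𝓞 M)} (hP : P ∈ Pr M ℓ)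
    (hP' : P' ∈ Pr M ℓ) : ∃ g : Gal(M/ℚ), g • P = P' := by
  have h1 := ((mem_Pr hℓ).1 hP).1
  have h2 := ((mem_Pr hℓ).1 hP').1
  obtain ⟨g, hg⟩ := Algebra.IsInvariant.exists_smul_of_under_eq ℤ (𝓞 M) Gal(M/ℚ) P P'
    (by rw [under_Pr hℓ hP, under_Pr hℓ hP'])
  exact ⟨g, hg.symm⟩

theorem stab_Fr [IsGalois ℚ M] {ℓ : ℕ} (hℓ : ℓ.Prime) (hd : ¬ (ℓ : ℤ) ∣ discr M)
    {P : Ideal (𝓞 M)} (hP : P ∈ Pr M ℓ) {t : Gal(M/ℚ)} (h : IsFr ℓ P t) (g : Gal(M/ℚ)) :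
    g • P = P ↔ g ∈ Subgroup.zpowers t := by
  have h1 := ((mem_Pr hℓ).1 hP).1
  have hfin := finite_Pr hℓ hP
  have hprime : (Ideal.span {(ℓ : ℤ)}).IsMaximal :=
    PrincipalIdealRing.isMaximal_of_irreducible (Nat.prime_iff_prime_int.1 hℓ).irreducible
  have hov : P.LiesOver (Ideal.span {(ℓ : ℤ)}) := ⟨(under_Pr hℓ hP).symm⟩
  have hts : t ∈ MulAction.stabilizer Gal(M/ℚ) P :=
    IsArithFrobAt.mem_stabilizer ((isFr_iff hℓ hP t).1 h)
  have hle : Subgroup.zpowers t ≤ MulAction.stabilizer Gal(M/ℚ) P := by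
    rw [Subgroup.zpowers_le]
    exact hts
  have hin : Nat.card (P.inertia Gal(M/ℚ)) = 1 := by
    have h2 : P.inertia Gal(M/ℚ) = ⊥ := by
      rw [eq_bot_iff]
      intro u hu
      rw [Subgroup.mem_bot]
      have h3 : IsFr ℓ P (u * t) := by
        intro x
        have h4 : (u * t) • x - x ^ ℓ = (u • (t • x) - t • x) + (t • x - x ^ ℓ) := by
          rw [mul_smul]
          ring
        rw [h4]
        exact P.add_mem (hu (t • x)) (h x)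
      have h4 := Fr_unique hℓ hd hP h3 h
      exact mul_eq_right.1 h4
    rw [h2, Subgroup.card_bot]
  have hst := Ideal.card_stabilizer_eq_card_inertia_mul_finrank (G := Gal(M/ℚ))
    (Ideal.span {(ℓ : ℤ)}) P
  rw [hin, one_mul] at hst
  have hcard : Nat.card (𝓞 M ⧸ P) = ℓ ^ (P.inertiaDeg ℤ) := by
    have h2 := Ideal.natAbs_pow_inertiaDeg (ℓ : ℤ) P
    rw [Int.natAbs_natCast] at h2
    rw [h2]
    rfl
  have hpos : 0 < orderOf t := orderOf_pos t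
  have hpow : ∀ (i : ℕ) (x : 𝓞 M), (t ^ i) • x - x ^ (ℓ ^ i) ∈ P := by
    intro i
    induction i with
    | zero => intro x; rw [pow_zero, pow_zero, one_smul, pow_one, sub_self]; exact P.zero_mem
    | succ i ih =>
      intro x
      have h3 : (t ^ (i + 1)) • x - x ^ (ℓ ^ (i + 1)) =
          (t ^ i • (t • x) - (t • x) ^ (ℓ ^ i)) + ((t • x) ^ (ℓ ^ i) - (x ^ ℓ) ^ (ℓ ^ i)) := by
        rw [pow_succ t, mul_smul, ← pow_mul x, ← pow_succ' ℓ]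
        ring
      rw [h3]
      refine P.add_mem (ih (t • x)) ?_
      exact P.mem_of_dvd (sub_dvd_pow_sub_pow _ _ _) (h x)
  have hord : P.inertiaDeg ℤ ≤ orderOf t := by
    have hfld : Fintype (𝓞 M ⧸ P) := Fintype.ofFinite _
    have hmax : P.IsMaximal :=
      Ideal.Quotient.maximal_of_isField _ (Finite.isField_of_domain (𝓞 M ⧸ P))
    letI : Field (𝓞 M ⧸ P) := Ideal.Quotient.field P
    have hroot : ∀ y : 𝓞 M ⧸ P, y ^ (ℓ ^ orderOf t) = y := by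
      intro y
      obtain ⟨x, rfl⟩ := Ideal.Quotient.mk_surjective y
      have h4 := hpow (orderOf t) x
      rw [pow_orderOf_eq_one, one_smul] at h4
      rw [← map_pow]
      exact (Ideal.Quotient.eq.2 h4).symm
    have h5 : Nat.card (𝓞 M ⧸ P) ≤ ℓ ^ orderOf t := by
      have h6 : 1 < ℓ ^ orderOf t := Nat.one_lt_pow hpos.ne' hℓ.one_lt
      have h7 := FiniteField.X_pow_card_sub_X_ne_zero (𝓞 M ⧸ P) h6
      have h8 := FiniteField.X_pow_card_sub_X_natDegree_eq (𝓞 M ⧸ P) h6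
      rw [Nat.card_eq_fintype_card, ← h8]
      refine Polynomial.card_le_degree_of_subset_roots (Z := Finset.univ) ?_
      intro y _
      rw [Polynomial.mem_roots h7, Polynomial.IsRoot.def]
      simp [hroot y]
    rw [hcard] at h5
    exact (Nat.pow_le_pow_iff_right hℓ.one_lt).1 h5
  have heq : Subgroup.zpowers t = MulAction.stabilizer Gal(M/ℚ) P := by
    refine Subgroup.eq_of_le_of_card_ge hle ?_
    rw [hst, Nat.card_zpowers]
    exact hord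
  rw [heq]
  exact (MulAction.mem_stabilizer_iff).symm

end Pool.Agent.H85.CP
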