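import Pool.Agent.H85.CP.Def
import Pool.Agent.H80.CP.Ram

/-!
# THEOREM CP: squares of elements acting on `E[r]`, conjugation, powers, elements fixing the x-coordinates
-/

set_option autoImplicit false

namespace Pool.Agent.H85.CP

open Pool.Agent.H27.SU Pool.Agent.H80.CP WeierstrassCurve

/-- an additive automorphism which maps every `v` to `v` or `-v` is `1` or `-1` -/
theorem eq_or_neg_of_forall {V : Type} [AddCommGroup V] (a : V →+ V)
    (h : ∀ v, a v = v ∨ a v = -v) : (∀ v, a v = v) ∨ ∀ v, a v = -v := by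
  by_contra hcon
  rw [not_or, not_forall, not_forall] at hcon
  obtain ⟨⟨u, hu⟩, ⟨w, hw⟩⟩ := hcon
  have hu' : a u = -u := (h u).resolve_left hu
  have hw' : a w = w := (h w).resolve_right hw
  rcases h (u + w) with h1 | h1
  · rw [map_add, hu', hw'] at h1
    apply hu
    rw [hu']
    exact add_right_cancel h1
  · rw [map_add, hu', hw', neg_add] at h1
    apply hw
    rw [hw']
    exact add_left_cancel h1

/-- an element fixing the `x`-coordinates of the `r`-torsion acts as `1` or `-1` -/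
theorem fix_LX (E : WeierstrassCurve ℚ) (r : ℕ) {τ : GQ} (h : ∀ x ∈ LX E r, τ x = x) :
    (∀ v : TT E r, (rhoQ E r τ).1 v = v) ∨ ∀ v : TT E r, (rhoQ E r τ).1 v = -v := by
  refine eq_or_neg_of_forall (rhoQ E r τ).1 fun v => ?_
  by_cases hv : v = 0
  · left
    rw [hv]
    exact map_zero (rhoQ E r τ).1
  have hv1 : v.1 ≠ 0 := fun h0 => hv (Subtype.ext h0)
  have hv2 : ((rhoQ E r τ).1 v).1 ≠ 0 := by
    intro h0
    apply hv
    apply alb_inj (rhoQ E r τ)
    rw [map_zero]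
    exact Subtype.ext h0
  have hx : cx ((rhoQ E r τ).1 v).1 = cx v.1 := by
    rw [rhoQ_cx]
    exact h _ (IntermediateField.subset_adjoin _ _ ⟨v, rfl⟩)
  rcases eq_or_neg hv2 hv1 hx with h1 | h1
  · left
    exact Subtype.ext h1
  · right
    exact Subtype.ext h1

theorem SqSc_conj' (E : WeierstrassCurve ℚ) (r : ℕ) {φ : GQ} (h : SqSc E r φ) (g : GQ) :
    SqSc E r (g * φ * g⁻¹) := by
  obtain ⟨n, hn⟩ := h
  refine ⟨n, fun v => ?_⟩
  have h1 : (rhoQ E r (g * φ * g⁻¹)) = rhoQ E r g * rhoQ E r φ * (rhoQ E r g)⁻¹ := by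
    rw [map_mul, map_mul, map_inv]
  rw [← alb_mul_apply, h1]
  have h2 : rhoQ E r g * rhoQ E r φ * (rhoQ E r g)⁻¹ * (rhoQ E r g * rhoQ E r φ * (rhoQ E r g)⁻¹) =
      rhoQ E r g * (rhoQ E r φ * rhoQ E r φ) * (rhoQ E r g)⁻¹ := by group
  rw [h2, alb_mul_apply, alb_mul_apply, alb_mul_apply, hn, map_zsmul, ← alb_mul_apply,
    mul_inv_cancel, alb_one_apply]

theorem SqSc_of_pow' (E : WeierstrassCurve ℚ) (r : ℕ) {σ φ : GQ}
    (h : SqSc E r φ) (n : ℕ) (hx : ∀ x ∈ LX E r, σ x = (φ ^ n) x) : SqSc E r σ := by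
  obtain ⟨c, hc⟩ := h
  obtain ⟨τ, hτ⟩ : ∃ τ : GQ, τ = (φ ^ n)⁻¹ * σ := ⟨_, rfl⟩
  have hσ : σ = φ ^ n * τ := by rw [hτ, mul_inv_cancel_left]
  have hfix : ∀ x ∈ LX E r, τ x = x := by
    intro x hxx
    rw [hτ, AlgEquiv.mul_apply, hx x hxx, ← AlgEquiv.mul_apply, inv_mul_cancel, AlgEquiv.one_apply]
  have hpow : ∀ m : ℕ, ∀ v : TT E r, (rhoQ E r (φ ^ m)).1 ((rhoQ E r (φ ^ m)).1 v) = (c ^ m) • v := by
    intro m
    induction m with
    | zero =>
      intro v
      rw [pow_zero, pow_zero, map_one, one_smul]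
      rfl
    | succ m ih =>
      intro v
      have h1 : rhoQ E r (φ ^ (m + 1)) * rhoQ E r (φ ^ (m + 1)) =
          (rhoQ E r (φ ^ m) * rhoQ E r (φ ^ m)) * (rhoQ E r φ * rhoQ E r φ) := by
        rw [← map_mul, ← map_mul, ← map_mul, ← map_mul]
        congr 1
        rw [← pow_add, ← pow_add, ← sq, ← pow_add]
        congr 1
        omega
      rw [← alb_mul_apply, h1, alb_mul_apply, alb_mul_apply, alb_mul_apply, hc, ih, pow_succ,
        mul_smul]
  refine ⟨c ^ n, fun v => ?_⟩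
  have h2 : ∀ w : TT E r, (rhoQ E r σ).1 w = (rhoQ E r (φ ^ n)).1 ((rhoQ E r τ).1 w) := by
    intro w
    rw [hσ, map_mul]
    rfl
  rw [h2, h2]
  rcases fix_LX E r hfix with h1 | h1
  · rw [h1, h1, hpow]
  · rw [h1, h1, map_neg, map_neg, map_neg, neg_neg, hpow]

end Pool.Agent.H85.CP
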