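import Pool.Agent.H85.CP.GrA

/-!
# [H85 CP GRB] Surjective `ρ_{E,r}`, `r ≥ 3`, is not dihedral

Proof. `V = TT E r`, `r • v = 0`, `card V = r^2` (`card_TT`), a vector space over `ZMod r` (`AddCommGroup.zmodModule` or similar), `n • v = (n : ZMod r) • v`.
* `transvection`: `w ≠ 0`, `v ∉ span {w}`: there is a functional `f` with `f w = 0`, `f v = 1` (`Submodule.exists_dual_map_eq_bot_of_notMem` or similar, scaled);
  `u x = x + f x • w` is an additive automorphism (inverse `x - f x • w`) with `u v = v + w`, `u w = w`. `u (u v) = v + 2 w` is not a multiple of `v` (`r` odd).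
* `key`: `g : Au V`, `g (g x) = n • x` for all `x`. There is `u : Au V` such that neither `u ∘ u` nor `(g u) ∘ (g u)` is a scalar:
  (a) if some `v` has `g v ∉ span {v}`: put `w = g v` (`v, w` independent, `g w = n • v`, `n ≠ 0` in `ZMod r` as `g` is injective), `u` the transvection.
  `g u v = g (v + w) = w + n v`, `u (w + n v) = w + n v + n w`, `g (..) = n v + n w + n n v`, so `(g u)^2 v = (n + n^2) v + n w`, not a multiple of `v`.
  (b) otherwise `g x ∈ span {x}` for all `x`: take any `v ≠ 0` and `w ∉ span {v}` (`card V > r`; then `v ∉ span {w}` too). `g u v = g (v + w) = c (v + w)`,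
  `u (c (v + w)) = c (v + 2 w)`, `g (..) = c c' (v + 2 w)`, `c, c' ≠ 0` (`g` injective, `v + w, v + 2 w ≠ 0`): not a multiple of `v` (`r` odd).
* Theorem. `m < 0` is not a square in `ℚ`, so `y ∉ ℚ` and some `τ ∈ GQ` has `τ y ≠ y` (`QB/ℚ` is Galois; or: `y ∉ ⊥`, `IsGalois.mem_bot_iff_fixed`-like, or the
  automorphism from the conjugate root `-y` of the minimal polynomial). If `τ` is not `SqSc`, done. Otherwise `key` with `g = rhoQ E r τ` gives `u = rhoQ E r s`.
  If `s y ≠ y`: `s` is not `SqSc`. If `s y = y`: `(τ * s) y = τ y ≠ y` and `τ * s` is not `SqSc`.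
-/

set_option autoImplicit false

namespace Pool.Agent.H85.CP

open Pool.Agent.H27.SU Pool.Agent.H80.CP

section Abs

variable {V : Type} [AddCommGroup V] {r : ℕ} [Fact r.Prime] [Module (ZMod r) V]

private theorem zsm (n : ℤ) (v : V) : n • v = (n : ZMod r) • v := (Int.cast_smul_eq_zsmul (ZMod r) n v).symm

/-- the transvection `x ↦ x + f x • w` -/
private theorem transv (f : V →ₗ[ZMod r] ZMod r) (w : V) (hf : f w = 0) : ∃ u : Au V, ∀ x, u.1 x = x + f x • w := by
  obtain ⟨A, hA⟩ : ∃ A : AddMonoid.End V, ∀ x, A x = x + f x • w :=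
    ⟨{ toFun := fun x => x + f x • w
       map_zero' := by simp
       map_add' := fun x y => by rw [map_add, add_smul]; abel }, fun _ => rfl⟩
  obtain ⟨B, hB⟩ : ∃ B : AddMonoid.End V, ∀ x, B x = x - f x • w :=
    ⟨{ toFun := fun x => x - f x • w
       map_zero' := by simp
       map_add' := fun x y => by rw [map_add, add_smul]; abel }, fun _ => rfl⟩
  refine ⟨⟨A, B, ?_, ?_⟩, hA⟩
  · refine DFunLike.ext _ _ fun x => ?_
    show A (B x) = x
    rw [hA, hB, map_sub, map_smul, hf, smul_zero, sub_zero]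
    abel
  · refine DFunLike.ext _ _ fun x => ?_
    show B (A x) = x
    rw [hA, hB, map_add, map_smul, hf, smul_zero, add_zero]
    abel

/-- a transvection `v ↦ v + w`, `w ↦ w` for independent `v`, `w` -/
private theorem transv2 (v w : V) (h : v ∉ Submodule.span (ZMod r) {w}) : ∃ u : Au V, u.1 v = v + w ∧ u.1 w = w := by
  obtain ⟨f, hf, hf'⟩ := Submodule.exists_dual_map_eq_bot_of_notMem h inferInstance
  have hfw : f w = 0 := by
    have h1 : f w ∈ (Submodule.span (ZMod r) {w}).map f := Submodule.mem_map_of_mem (Submodule.mem_span_singleton_self w)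
    rw [hf'] at h1
    exact (Submodule.mem_bot _).1 h1
  obtain ⟨u, hu⟩ := transv ((f v)⁻¹ • f) w (by rw [LinearMap.smul_apply, hfw, smul_zero])
  refine ⟨u, ?_, ?_⟩
  · rw [hu, LinearMap.smul_apply, smul_eq_mul, inv_mul_cancel₀ hf, one_smul]
  · rw [hu, LinearMap.smul_apply, hfw, smul_zero, zero_smul, add_zero]

/-- `a v + b w` is no multiple of `v` if `b ≠ 0` -/
private theorem ind {v w : V} (h : w ∉ Submodule.span (ZMod r) {v}) {a b c : ZMod r} (hb : b ≠ 0)
    (he : a • v + b • w = c • v) : False := by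
  apply h
  rw [Submodule.mem_span_singleton]
  refine ⟨b⁻¹ * (c - a), ?_⟩
  rw [mul_smul, sub_smul, ← he, add_sub_cancel_left, smul_smul, inv_mul_cancel₀ hb, one_smul]

private theorem key (hr : 3 ≤ r) (hcard : Nat.card V = r ^ 2) (g : Au V) (hg : ∃ n : ℤ, ∀ x, g.1 (g.1 x) = n • x) :
    ∃ u : Au V, (¬ ∃ n : ℤ, ∀ v, u.1 (u.1 v) = n • v) ∧ ¬ ∃ n : ℤ, ∀ v, (g * u).1 ((g * u).1 v) = n • v := by
  obtain ⟨n, hn⟩ := hg
  have h2 : (2 : ZMod r) ≠ 0 := by
    intro h
    have h1 : ((2 : ℕ) : ZMod r) = 0 := by exact_mod_cast h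
    rw [ZMod.natCast_eq_zero_iff] at h1
    have := Nat.le_of_dvd (by norm_num) h1
    omega
  have hsm : ∀ (a : Au V) (c : ZMod r) (x : V), a.1 (c • x) = c • a.1 x := by
    intro a c x
    obtain ⟨m, rfl⟩ := ZMod.intCast_surjective c
    rw [Int.cast_smul_eq_zsmul, Int.cast_smul_eq_zsmul, map_zsmul]
  have hne : ∀ (a : Au V) (x : V), x ≠ 0 → a.1 x ≠ 0 := by
    intro a x hx h
    apply hx
    apply alb_inj a
    rw [h, map_zero]
  by_cases ha : ∃ v : V, g.1 v ∉ Submodule.span (ZMod r) {v}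
  · obtain ⟨v, hv⟩ := ha
    obtain ⟨w, hw⟩ : ∃ w, w = g.1 v := ⟨_, rfl⟩
    rw [← hw] at hv
    have hv0 : v ≠ 0 := by
      rintro rfl
      apply hv
      rw [hw, map_zero]
      exact Submodule.zero_mem _
    have hgw : g.1 w = (n : ZMod r) • v := by
      rw [hw, hn, zsm (r := r)]
    have hn0 : (n : ZMod r) ≠ 0 := by
      intro h
      rw [h, zero_smul] at hgw
      have hw0 : w ≠ 0 := by
        rintro rfl
        exact hv (Submodule.zero_mem _)
      exact hne g w hw0 hgw
    have hvw : v ∉ Submodule.span (ZMod r) {w} := by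
      intro h
      rw [Submodule.mem_span_singleton] at h
      obtain ⟨c, hc⟩ := h
      have hc0 : c ≠ 0 := by
        rintro rfl
        rw [zero_smul] at hc
        exact hv0 hc.symm
      apply hv
      rw [Submodule.mem_span_singleton]
      exact ⟨c⁻¹, by rw [← hc, smul_smul, inv_mul_cancel₀ hc0, one_smul]⟩
    obtain ⟨u, hu1, hu2⟩ := transv2 v w hvw
    refine ⟨u, ?_, ?_⟩
    · rintro ⟨m, hm⟩
      have h1 := hm v
      rw [hu1, map_add, hu1, hu2, zsm (r := r)] at h1
      refine ind hv h2 (a := 1) (c := (m : ZMod r)) ?_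
      rw [← h1, one_smul, two_smul]
      abel
    · rintro ⟨m, hm⟩
      have h1 := hm v
      rw [alb_mul_apply, alb_mul_apply, hu1, map_add, hgw, ← hw, map_add, hu2, hsm, hu1, map_add, hgw, hsm, map_add, ← hw,
        hgw, zsm (r := r)] at h1
      refine ind hv hn0 (a := n + n * n) (c := (m : ZMod r)) ?_
      rw [← h1, add_smul, mul_smul, smul_add]
      abel
  · push Not at ha
    haveI : Finite V := Nat.finite_of_card_ne_zero (by
      rw [hcard]
      exact pow_ne_zero _ (by omega))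
    haveI : Nontrivial V := Finite.one_lt_card_iff_nontrivial.1 (by
      rw [hcard]
      exact Nat.one_lt_pow (by norm_num) (by omega))
    obtain ⟨v, hv0⟩ := exists_ne (0 : V)
    obtain ⟨w, hw⟩ : ∃ w : V, w ∉ Submodule.span (ZMod r) {v} := by
      by_contra hcon
      push Not at hcon
      have hsur : Function.Surjective (fun c : ZMod r => c • v) := by
        intro x
        have := hcon x
        rw [Submodule.mem_span_singleton] at this
        exact this
      have h1 := Nat.card_le_card_of_surjective _ hsur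
      rw [hcard, Nat.card_zmod] at h1
      nlinarith
    have hvw : v ∉ Submodule.span (ZMod r) {w} := by
      intro h
      rw [Submodule.mem_span_singleton] at h
      obtain ⟨c, hc⟩ := h
      have hc0 : c ≠ 0 := by
        rintro rfl
        rw [zero_smul] at hc
        exact hv0 hc.symm
      apply hw
      rw [Submodule.mem_span_singleton]
      exact ⟨c⁻¹, by rw [← hc, smul_smul, inv_mul_cancel₀ hc0, one_smul]⟩
    obtain ⟨u, hu1, hu2⟩ := transv2 v w hvw
    have hx : ∀ x : V, x ≠ 0 → ∃ c : ZMod r, c ≠ 0 ∧ g.1 x = c • x := by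
      intro x hx0
      have h1 := ha x
      rw [Submodule.mem_span_singleton] at h1
      obtain ⟨c, hc⟩ := h1
      refine ⟨c, ?_, hc.symm⟩
      rintro rfl
      rw [zero_smul] at hc
      exact hne g x hx0 hc.symm
    have hvw1 : v + w ≠ 0 := by
      intro h
      refine ind hw (a := 1) (b := 1) (c := 0) one_ne_zero ?_
      rw [one_smul, one_smul, zero_smul, h]
    have hvw2 : v + (2 : ZMod r) • w ≠ 0 := by
      intro h
      refine ind hw (a := 1) (b := 2) (c := 0) h2 ?_
      rw [one_smul, zero_smul, h]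
    obtain ⟨c, hc0, hc⟩ := hx _ hvw1
    obtain ⟨c', hc'0, hc'⟩ := hx _ hvw2
    refine ⟨u, ?_, ?_⟩
    · rintro ⟨m, hm⟩
      have h1 := hm v
      rw [hu1, map_add, hu1, hu2, zsm (r := r)] at h1
      refine ind hw h2 (a := 1) (c := (m : ZMod r)) ?_
      rw [← h1, one_smul, two_smul]
      abel
    · rintro ⟨m, hm⟩
      have h1 := hm v
      have h3 : v + w + w = v + (2 : ZMod r) • w := by
        rw [two_smul]
        abel
      rw [alb_mul_apply, alb_mul_apply, hu1, hc, hsm, map_add, hu1, hu2, h3, hsm, hc', zsm (r := r)] at h1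
      refine ind hw (a := c * c') (b := c * c' * 2) (c := (m : ZMod r)) (mul_ne_zero (mul_ne_zero hc0 hc'0) h2) ?_
      rw [← h1, smul_add, smul_add, smul_smul, smul_smul, smul_smul, mul_assoc c c' 2]

end Abs

/-- some element of the Galois group moves a square root of a negative integer -/
theorem exists_moves {m : ℤ} (hm : m < 0) {y : QB} (hy : y ^ 2 = (m : QB)) : ∃ τ : GQ, τ y ≠ y := by
  by_contra hcon
  push Not at hcon
  have h0 : IsAlgClosure ℚ QB := ⟨inferInstance, AlgebraicClosure.isAlgebraic ℚ⟩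
  have hgal : IsGalois ℚ QB := IsAlgClosure.isGalois ℚ QB
  obtain ⟨q, hq⟩ := (InfiniteGalois.mem_bot_iff_fixed (k := ℚ) (K := QB) y).2 hcon
  have hq' : algebraMap ℚ QB q = y := hq
  rw [← hq', ← map_pow] at hy
  have h1 : algebraMap ℚ QB (q ^ 2) = algebraMap ℚ QB (m : ℚ) := by
    rw [hy]
    simp
  have h2 : q ^ 2 = (m : ℚ) := (algebraMap ℚ QB).injective h1
  have h3 : (m : ℚ) < 0 := by exact_mod_cast hm
  nlinarith [sq_nonneg q]

open scoped Classical in
private theorem tors (E : WeierstrassCurve ℚ) (r : ℕ) (v : TT E r) : r • v = 0 := by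
  have h1 : (r : ℤ) • v.1 = 0 := v.2
  apply Subtype.ext
  rw [AddSubgroup.coe_nsmul, AddSubgroup.coe_zero, ← natCast_zsmul]
  exact h1

theorem notDih_surj' (E : WeierstrassCurve ℚ) [E.IsElliptic] (r : ℕ) [Fact r.Prime] (hr : 3 ≤ r)
    (hs : ∀ a : Au (TT E r), ∃ σ : GQ, rhoQ E r σ = a) : NotDih E r := by
  intro m hm _ _ y hy
  obtain ⟨τ, hτ⟩ := exists_moves hm hy
  by_cases hsc : SqSc E r τ
  swap
  · exact ⟨τ, hτ, hsc⟩
  let _ : Module (ZMod r) (TT E r) := AddCommGroup.zmodModule (tors E r)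
  have hcard : Nat.card (TT E r) = r ^ 2 := card_TT E r (by omega)
  obtain ⟨u, hu1, hu2⟩ := key hr hcard (rhoQ E r τ) hsc
  obtain ⟨s, hss⟩ := hs u
  by_cases hsy : s y = y
  · refine ⟨τ * s, ?_, ?_⟩
    · rw [AlgEquiv.mul_apply, hsy]
      exact hτ
    · rintro ⟨n, hn⟩
      apply hu2
      refine ⟨n, fun v => ?_⟩
      have h1 := hn v
      rw [map_mul, hss] at h1
      exact h1
  · refine ⟨s, hsy, ?_⟩
    rintro ⟨n, hn⟩
    apply hu1
    refine ⟨n, fun v => ?_⟩
    have h1 := hn v
    rw [hss] at h1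
    exact h1

end Pool.Agent.H85.CP
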