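import Pool.Agent.H85.CP.Def
import Pool.Agent.H80.CP.Loc
import Pool.Agent.H80.CP.Ram

/-!
# [H85 CP LC] The local part (helper80, folder H80/CP)
-/

set_option autoImplicit false

namespace Pool.Agent.H85.CP

open Pool.Agent.H27.SU

theorem cp_local (E : WeierstrassCurve ℚ) [E.IsElliptic] (hj0 : E.j ≠ 0) (hj1 : E.j ≠ 1728)
    (p : ℕ) [Fact p.Prime] (hp : 29 ≤ p) (hE : InNonsplitNormaliser E p) :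
    ∃ (m : ℤ) (y : QB), Squarefree m ∧ m < 0 ∧ y ^ 2 = (m : QB) ∧
      (∀ q : ℕ, q.Prime → 5 ≤ q → (q : ℤ) ∣ m → 0 < padicValRat q (E.j - 1728) ∧
        Odd (padicValRat q (E.j - 1728)) ∧ ¬ (q % 4 = 1 ∧ 4 * q < p ^ 2)) ∧
      ∀ (r ℓ : ℕ) [Fact r.Prime] [Fact ℓ.Prime], 5 ≤ ℓ → ℓ ≠ r → 2 * ℓ < p →
        ∀ (ι : QB →ₐ[ℚ] PadicAlgCl ℓ) (res : GG ℓ →* GQ), (∀ φ x, ι (res φ x) = φ (ι x)) →
        ∀ Y : Finset (PadicAlgCl ℓ), (∀ z ∈ Y, ‖z‖ ≤ 1) →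
          ∃ φ : GG ℓ, (∀ z ∈ Y, ‖φ z - z ^ ℓ‖ < 1) ∧ (res φ y ≠ y → SqSc E r (res φ)) :=
  Pool.Agent.H80.CP.cp_local E hj0 hj1 p hp hE

theorem cp_ram (E : WeierstrassCurve ℚ) [E.IsElliptic] (hj1 : E.j ≠ 1728) (r q : ℕ)
    [Fact r.Prime] [Fact q.Prime] (h5 : 5 ≤ q) (hqr : q ≠ r)
    (hv : 0 < padicValRat q (E.j - 1728)) (ho : Odd (padicValRat q (E.j - 1728)))
    (ι : QB →ₐ[ℚ] PadicAlgCl q) (res : GG q →* GQ) (hres : ∀ φ x, ι (res φ x) = φ (ι x)) :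
    ∃ γ ∈ Inr q, ∃ v : TT E r, res γ (cx v.1) ≠ cx v.1 :=
  Pool.Agent.H80.CP.cp_ram E hj1 r q h5 hqr hv ho ι res hres

end Pool.Agent.H85.CP
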