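import Pool.Agent.H85.CP.Def
import Pool.Agent.H80.CP.CardTT

/-!
# [H85 CP MX] The fields `LX E r` and `MX E r y = LX(y)`

* `LX_galois`: `TT E r` is finite with `r^2` elements (`Pool.Agent.H80.CP`), every `cx v.1` is algebraic over `ℚ` (as is every
  element of `QB`), and `σ (cx v.1) = cx ((rhoQ E r σ).1 v).1` (`rhoQ_cx`), so the finite set `S = {cx v.1}` is stable under
  `GQ`: `adjoin ℚ S` is finite dimensional (`IntermediateField.finiteDimensional_adjoin`) and normal (`IntermediateField.normal_iff_forall_map_le` or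
  `..map_eq`), separable in characteristic `0`. Degree = number of elements of `Gal(LX/ℚ)` (`IsGalois.card_aut_eq_finrank`): choose for `s` in it an extension
  `s' ∈ GQ` (`AlgEquiv.restrictNormalHom_surjective` or `IsAlgClosed.lift`) and map `s` to the map `v ↦ (rhoQ E r s').1 v` of `TT E r`: injective, as
  it determines `s` on all `cx v.1`. There are `(r^2)^(r^2)` maps `TT → TT`.
* `MX_galois`: the same for `S ∪ {y, -y}` (`σ y = y` or `-y` as `(σ y)^2 = m`); `adjoin ℚ {y}` has degree `≤ 2`
  and `finrank (A ⊔ B) ≤ finrank A * finrank B` (`IntermediateField.finrank_sup_le`).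
-/

set_option autoImplicit false

namespace Pool.Agent.H85.CP

open NumberField Pool.Agent.H27.SU

/-- the field `LX E r` with `y` adjoined -/
noncomputable def MX (E : WeierstrassCurve ℚ) (r : ℕ) (y : QB) : IntermediateField ℚ QB :=
  LX E r ⊔ IntermediateField.adjoin ℚ {y}

private theorem qb_alg : Algebra.IsAlgebraic ℚ QB := AlgebraicClosure.isAlgebraic ℚ

private theorem qb_normal : Normal ℚ QB := by
  have hAlg : Algebra.IsAlgebraic ℚ QB := qb_alg
  have hClo : IsAlgClosure ℚ QB := ⟨inferInstance, hAlg⟩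
  exact IsAlgClosure.normal ℚ QB

private theorem adj_gal {S : Set QB} (hS : S.Finite) (hst : ∀ (σ : GQ), ∀ x ∈ S, σ x ∈ S) :
    FiniteDimensional ℚ (IntermediateField.adjoin ℚ S) ∧
      IsGalois ℚ (IntermediateField.adjoin ℚ S) := by
  have halg : Algebra.IsAlgebraic ℚ QB := qb_alg
  have hnor : Normal ℚ QB := qb_normal
  have hf : Finite S := hS
  have h1 : FiniteDimensional ℚ (IntermediateField.adjoin ℚ S) :=
    IntermediateField.finiteDimensional_adjoin fun x _ => Algebra.IsIntegral.isIntegral x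
  refine ⟨h1, ?_⟩
  have h2' : @Normal ℚ (IntermediateField.adjoin ℚ S) _ _ (IntermediateField.algebra' _) := by
    rw [IntermediateField.normal_iff_forall_map_le']
    intro σ
    rw [IntermediateField.adjoin_map, IntermediateField.adjoin_le_iff]
    rintro z ⟨x, hx, rfl⟩
    exact IntermediateField.subset_adjoin ℚ S (hst σ x hx)
  have h2 : Normal ℚ (IntermediateField.adjoin ℚ S) := h2'
  exact ⟨⟩

private theorem deg_le (L : IntermediateField ℚ QB) [FiniteDimensional ℚ L] [IsGalois ℚ L]
    {X : Type*} [Finite X] (Φ : GQ → X)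
    (hΦ : ∀ σ τ : GQ, Φ σ = Φ τ → ∀ x ∈ L, σ x = τ x) :
    Module.finrank ℚ L ≤ Nat.card X := by
  have hnor : Normal ℚ QB := qb_normal
  rw [← IsGalois.card_aut_eq_finrank ℚ L]
  refine Nat.card_le_card_of_injective (fun s : Gal(L/ℚ) => Φ (s.liftNormal QB)) ?_
  intro s t h
  have h1 := hΦ _ _ h
  ext x
  have h2 := h1 x.1 x.2
  have h3 := s.liftNormal_commutes QB x
  have h4 := t.liftNormal_commutes QB x
  exact h3.symm.trans (h2.trans h4)

private theorem ext_adj {S : Set QB} {σ τ : GQ} (h : ∀ x ∈ S, σ x = τ x) :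
    ∀ x ∈ IntermediateField.adjoin ℚ S, σ x = τ x := by
  intro x hx
  induction hx using IntermediateField.adjoin_induction with
  | mem x hx => exact h x hx
  | algebraMap x => rw [σ.commutes, τ.commutes]
  | add x y _ _ hx hy => rw [map_add, map_add, hx, hy]
  | inv x _ hx => rw [map_inv₀, map_inv₀, hx]
  | mul x y _ _ hx hy => rw [map_mul, map_mul, hx, hy]

private theorem st_LX (E : WeierstrassCurve ℚ) (r : ℕ) (σ : GQ) :
    ∀ x ∈ Set.range (fun v : TT E r => cx v.1), σ x ∈ Set.range (fun v : TT E r => cx v.1) := by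
  rintro x ⟨v, rfl⟩
  exact ⟨(rhoQ E r σ).1 v, rhoQ_cx E r σ v⟩

theorem LX_galois (E : WeierstrassCurve ℚ) [E.IsElliptic] (r : ℕ) [Fact r.Prime] :
    FiniteDimensional ℚ (LX E r) ∧ IsGalois ℚ (LX E r) ∧
      Module.finrank ℚ (LX E r) ≤ (r ^ 2) ^ (r ^ 2) := by
  have hne : NeZero r := ⟨(Fact.out : r.Prime).ne_zero⟩
  have hfin : Finite (TT E r) := Pool.Agent.H80.CP.finite_TT E r
  obtain ⟨h1, h2⟩ := adj_gal (Set.finite_range fun v : TT E r => cx v.1)
    (fun σ => st_LX E r σ)
  refine ⟨h1, h2, ?_⟩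
  have h3 : Module.finrank ℚ (LX E r) ≤ Nat.card (TT E r → TT E r) := by
    have : FiniteDimensional ℚ (LX E r) := h1
    have : IsGalois ℚ (LX E r) := h2
    refine deg_le (LX E r) (fun σ : GQ => fun v : TT E r => (rhoQ E r σ).1 v) ?_
    intro σ τ h
    refine ext_adj ?_
    rintro x ⟨v, rfl⟩
    have h4 := congrFun h v
    show σ (cx v.1) = τ (cx v.1)
    rw [← rhoQ_cx, ← rhoQ_cx]
    exact congrArg (fun w : TT E r => cx w.1) h4
  rwa [Nat.card_fun, Pool.Agent.H80.CP.card_TT E r (Nat.one_le_iff_ne_zero.2 hne.1)] at h3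

theorem MX_galois (E : WeierstrassCurve ℚ) [E.IsElliptic] (r : ℕ) [Fact r.Prime] {m : ℤ} {y : QB}
    (hy : y ^ 2 = (m : QB)) : FiniteDimensional ℚ (MX E r y) ∧ IsGalois ℚ (MX E r y) ∧
      Module.finrank ℚ (MX E r y) ≤ 2 * (r ^ 2) ^ (r ^ 2) := by
  have hne : NeZero r := ⟨(Fact.out : r.Prime).ne_zero⟩
  have hfin : Finite (TT E r) := Pool.Agent.H80.CP.finite_TT E r
  obtain ⟨-, -, hd⟩ := LX_galois E r
  have hpm : ∀ σ : GQ, σ y = y ∨ σ y = -y := by
    intro σ
    have h1 : (σ y) ^ 2 = y ^ 2 := by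
      rw [← map_pow, hy, map_intCast]
    exact sq_eq_sq_iff_eq_or_eq_neg.1 h1
  have hset : MX E r y = IntermediateField.adjoin ℚ
      (Set.range (fun v : TT E r => cx v.1) ∪ {y, -y}) := by
    unfold MX LX
    rw [IntermediateField.adjoin_union]
    congr 1
    apply le_antisymm
    · exact IntermediateField.adjoin.mono ℚ _ _ (by simp)
    · rw [IntermediateField.adjoin_le_iff]
      rintro z (rfl | hz)
      · exact IntermediateField.mem_adjoin_simple_self ℚ _
      · rw [Set.mem_singleton_iff] at hz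
        rw [hz]
        exact neg_mem (IntermediateField.mem_adjoin_simple_self ℚ _)
  obtain ⟨h1, h2⟩ := adj_gal (S := Set.range (fun v : TT E r => cx v.1) ∪ {y, -y})
    ((Set.finite_range fun v : TT E r => cx v.1).union (by simp)) (by
      rintro σ x (hx | hx)
      · exact Or.inl (st_LX E r σ x hx)
      · right
        rcases hx with rfl | hx
        · rcases hpm σ with h | h
          · rw [h]; simp
          · rw [h]; simp
        · rw [Set.mem_singleton_iff] at hx
          rw [hx, map_neg]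
          rcases hpm σ with h | h
          · rw [h]; simp
          · rw [h]; simp)
  refine ⟨by rw [hset]; exact h1, by rw [hset]; exact h2, ?_⟩
  have h3 : Module.finrank ℚ (IntermediateField.adjoin ℚ {y}) ≤ 2 := by
    have halg : Algebra.IsAlgebraic ℚ QB := qb_alg
    rw [IntermediateField.adjoin.finrank (Algebra.IsIntegral.isIntegral y)]
    have h4 : (minpoly ℚ y).natDegree ≤ (Polynomial.X ^ 2 - Polynomial.C (m : ℚ)).natDegree := by
      apply Polynomial.natDegree_le_of_dvd
      · apply minpoly.dvd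
        simp [hy]
      · exact (Polynomial.monic_X_pow_sub_C (m : ℚ) (by norm_num)).ne_zero
    rwa [Polynomial.natDegree_X_pow_sub_C] at h4
  calc Module.finrank ℚ (MX E r y) ≤ Module.finrank ℚ (LX E r) *
        Module.finrank ℚ (IntermediateField.adjoin ℚ {y}) := IntermediateField.finrank_sup_le _ _
    _ ≤ (r ^ 2) ^ (r ^ 2) * 2 := Nat.mul_le_mul hd h3
    _ = 2 * (r ^ 2) ^ (r ^ 2) := by ring

end Pool.Agent.H85.CP
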