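import Pool.Agent.H85.CP.Fro
import Pool.Agent.H85.CP.Def
import Pool.Agent.H27.SU.LGtmB

/-!
# [H85 CP PI] The prime of a number field defined by an embedding in `PadicAlgCl ℓ`

* `norm_int`: if `‖ι x‖ > 1` then in `x^n + a_{n-1} x^(n-1) + .. = 0` (integral coefficients of norm `≤ 1`, `norm_intCast_le`) the term
  `(ι x)^n` dominates (ultrametric inequality, `norm_add_le_max'`). Or: `ι x` is a root of a monic integral polynomial, `Valuation`/
  `IsIntegrallyClosed`-type lemma for the subring `‖·‖ ≤ 1` (a valuation ring is integrally closed).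
* `exists_PI`: `{x : 𝓞 F | ‖ι x‖ < 1}` is an ideal (ultrametric inequality, `norm_int`, `norm_mul`), prime (`‖x y‖ = ‖x‖ ‖y‖`, `1` is not in it),
  and contains `ℓ` (`norm_ell`): `mem_Pr`.
* `inr_fix`: `P` from `exists_PI`, `t` = the restriction of `res γ` to `F` (`AlgEquiv.restrictNormal`). For `x : 𝓞 F`: `ι (t x) = γ (ι x)`,
  `‖γ (ι x) - ι x‖ < 1` by `Inr_sub_lt` (LGtmB). So `t • x - x ∈ P` for all `x : 𝓞 F`. Let `f` be a Frobenius at `P` (`exists_Fr`). Then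
  `(f * t) • x - x^q = (f • (t • x) - (t • x)^q) + ((t • x)^q - x^q) ∈ P`, so `f * t = f` (`Fr_unique`), `t = 1`.
-/

set_option autoImplicit false

namespace Pool.Agent.H85.CP

open NumberField Pool.Agent.H27.SU

private theorem pi_sum_le {ℓ : ℕ} [Fact ℓ.Prime] {ι : Type} (s : Finset ι) (f : ι → PadicAlgCl ℓ)
    {C : ℝ} (hC : 0 ≤ C) (h : ∀ i ∈ s, ‖f i‖ ≤ C) : ‖∑ i ∈ s, f i‖ ≤ C := by
  classical
  induction s using Finset.induction_on with
  | empty => simpa using hC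
  | insert a s ha ih =>
    rw [Finset.sum_insert ha]
    exact (norm_add_le_max' _ _).trans (max_le (h a (Finset.mem_insert_self a s))
      (ih fun i hi => h i (Finset.mem_insert_of_mem hi)))

theorem norm_int {ℓ : ℕ} [Fact ℓ.Prime] (ι : QB →ₐ[ℚ] PadicAlgCl ℓ) {x : QB}
    (hx : IsIntegral ℤ x) : ‖ι x‖ ≤ 1 := by
  have hz : IsIntegral ℤ (ι x) := by
    have h1 : IsIntegral ℤ ((ι : QB →+* PadicAlgCl ℓ) x) := map_isIntegral_int _ hx
    exact h1
  obtain ⟨f, hm, hf⟩ := hz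
  by_contra hn
  push Not at hn
  have h0 : (0 : ℝ) ≤ ‖ι x‖ := norm_nonneg _
  by_cases hd : f.natDegree = 0
  · rw [hm.natDegree_eq_zero] at hd
    rw [hd, Polynomial.eval₂_one] at hf
    exact one_ne_zero hf
  · simp only [Polynomial.eval₂_eq_sum_range, Finset.sum_range_succ, hm.coeff_natDegree, map_one,
      one_mul, add_eq_zero_iff_eq_neg] at hf
    have h2 : ‖∑ i ∈ Finset.range f.natDegree,
        (algebraMap ℤ (PadicAlgCl ℓ)) (f.coeff i) * ι x ^ i‖ ≤ ‖ι x‖ ^ (f.natDegree - 1) := by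
      refine pi_sum_le _ _ (by positivity) fun i hi => ?_
      rw [Finset.mem_range] at hi
      rw [norm_mul, norm_pow, eq_intCast]
      calc ‖((f.coeff i : ℤ) : PadicAlgCl ℓ)‖ * ‖ι x‖ ^ i ≤ 1 * ‖ι x‖ ^ i := by
            gcongr
            exact norm_intCast_le _
        _ ≤ ‖ι x‖ ^ (f.natDegree - 1) := by
            rw [one_mul]
            exact pow_le_pow_right₀ hn.le (by omega)
    rw [hf, norm_neg, norm_pow] at h2
    have h3 : ‖ι x‖ ^ (f.natDegree - 1) < ‖ι x‖ ^ f.natDegree :=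
      pow_lt_pow_right₀ hn (by omega)
    exact absurd h2 (not_le.2 h3)

theorem norm_OF (F : IntermediateField ℚ QB) [NumberField F] {ℓ : ℕ} [Fact ℓ.Prime]
    (ι : QB →ₐ[ℚ] PadicAlgCl ℓ) (x : 𝓞 F) : ‖ι ((x : F) : QB)‖ ≤ 1 := by
  have h1 : IsIntegral ℤ (x : F) := x.2
  have h2 : IsIntegral ℤ ((algebraMap F QB) (x : F)) := map_isIntegral_int _ h1
  exact norm_int ι h2

theorem exists_PI (F : IntermediateField ℚ QB) [NumberField F] {ℓ : ℕ} [Fact ℓ.Prime]
    (ι : QB →ₐ[ℚ] PadicAlgCl ℓ) :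
    ∃ P ∈ Pr F ℓ, ∀ x : 𝓞 F, x ∈ P ↔ ‖ι ((x : F) : QB)‖ < 1 := by
  have hℓ : ℓ.Prime := Fact.out
  let P : Ideal (𝓞 F) :=
    { carrier := {x | ‖ι ((x : F) : QB)‖ < 1}
      add_mem' := by
        intro a b ha hb
        simp only [Set.mem_ofPred_eq, map_add, IntermediateField.coe_add] at ha hb ⊢
        exact (norm_add_le_max' _ _).trans_lt (max_lt ha hb)
      zero_mem' := by simp
      smul_mem' := by
        intro c a ha
        simp only [Set.mem_ofPred_eq, smul_eq_mul, map_mul, IntermediateField.coe_mul,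
          norm_mul] at ha ⊢
        exact (mul_le_of_le_one_left (norm_nonneg _) (norm_OF F ι c)).trans_lt ha }
  have hP : ∀ x : 𝓞 F, x ∈ P ↔ ‖ι ((x : F) : QB)‖ < 1 := fun x => Iff.rfl
  refine ⟨P, (mem_Pr hℓ).2 ⟨⟨?_, ?_⟩, ?_⟩, hP⟩
  · rw [Ne, Ideal.eq_top_iff_one, hP]
    simp
  · intro a b hab
    rw [hP] at hab ⊢
    rw [hP]
    by_contra hc
    push Not at hc
    have h1 : ‖ι ((a : F) : QB)‖ = 1 := le_antisymm (norm_OF F ι a) hc.1
    have h2 : ‖ι ((b : F) : QB)‖ = 1 := le_antisymm (norm_OF F ι b) hc.2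
    have e : (((a * b : 𝓞 F) : F) : QB) = ((a : F) : QB) * ((b : F) : QB) := rfl
    rw [e, map_mul, norm_mul, h1, h2, mul_one] at hab
    exact lt_irrefl _ hab
  · rw [hP]
    have h1 : ι (((((ℓ : ℕ) : 𝓞 F) : F) : QB)) = (ℓ : PadicAlgCl ℓ) := by
      simp
    rw [h1, norm_ell]
    exact inv_lt_one_of_one_lt₀ (by exact_mod_cast hℓ.one_lt)

/-- restriction of an element of `GQ` to a normal field -/
theorem exists_restr_normal (F : IntermediateField ℚ QB) [IsGalois ℚ F] (σ : GQ) :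
    ∃ t : Gal(F/ℚ), ∀ x : F, ((t x : F) : QB) = σ (x : QB) :=
  ⟨AlgEquiv.restrictNormal σ F, fun x => AlgEquiv.restrictNormal_commutes σ F x⟩

theorem inr_fix (F : IntermediateField ℚ QB) [NumberField F] [IsGalois ℚ F] {q : ℕ}
    [Fact q.Prime] (hq : ¬ (q : ℤ) ∣ discr F) (ι : QB →ₐ[ℚ] PadicAlgCl q) (σ : GQ) {γ : GG q}
    (hσ : ∀ x, ι (σ x) = γ (ι x)) (hγ : γ ∈ Inr q) (x : F) : σ (x : QB) = x := by
  have hqp : q.Prime := Fact.out
  obtain ⟨P, hP, hmem⟩ := exists_PI F ι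
  obtain ⟨t, ht⟩ := exists_restr_normal F σ
  have h1 : ∀ z : 𝓞 F, t • z - z ∈ P := by
    intro z
    have e : (((t • z - z : 𝓞 F) : F) : QB) = ((t (z : F) : F) : QB) - ((z : F) : QB) := rfl
    rw [hmem, e, map_sub, ht, hσ]
    exact Inr_sub_lt hγ _ (norm_OF F ι z)
  obtain ⟨f, hf⟩ := exists_Fr hqp hP
  have h2 : IsFr q P (f * t) := by
    intro z
    have e : (f * t) • z - z ^ q = (f • (t • z) - (t • z) ^ q) + ((t • z) ^ q - z ^ q) := by
      rw [mul_smul]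
      ring
    rw [e]
    refine P.add_mem (hf _) ?_
    obtain ⟨c, hc⟩ := sub_dvd_pow_sub_pow (t • z) z q
    rw [hc]
    exact P.mul_mem_right _ (h1 z)
  have h3 : f * t = f := Fr_unique hqp hq hP h2 hf
  have h4 : t = 1 := by
    have := congrArg (fun s => f⁻¹ * s) h3
    simpa using this
  rw [← ht x, h4]
  rfl

end Pool.Agent.H85.CP
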