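import Pool.Agent.H85.CP.Zk

/-!
# [H85 CP PRB] The primes above `ℓ`

* `mem_Pr`: `IsDedekindDomain.mem_primesOverFinset_iff` (the ideal `(ℓ)` of `ℤ` is not `⊥`), `Ideal.LiesOver`: a prime `v` of
  `𝓞 k` lies over `(ℓ)` iff `ℓ ∈ v` (the contraction of `v` to `ℤ` is a prime containing the maximal ideal `(ℓ)`).
* `card_Pr`: `Ideal.card_primesOverFinset_le_finrank` (`Mathlib/NumberTheory/RamificationInertia/Basic.lean`).
* `norm_Pr`: `Ideal.absNorm_eq_pow_inertiaDeg` or `Ideal.absNorm v ∣ ℓ ^ finrank` (norm of the principal ideal `(ℓ) ≤ v`) and it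
  is not `1` as `v` is a proper ideal.
* `exists_Pr`: a nonzero prime ideal contains a prime number: `Ideal.absNorm v ∈ v`, a prime divisor of it lies in `v`
  (product in a prime ideal).
* `Pr_unique`: two different primes `ℓ, ℓ'` in `v` give `1 ∈ v` (Bezout).
* `Pr_nonempty`: `ℓ` is not a unit of `𝓞 k`, so it is in a maximal ideal (or `Ideal.nonempty_primesOver`).
-/

set_option autoImplicit false

namespace Pool.Agent.H85.CP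

open NumberField

variable {k : Type} [Field k] [NumberField k]

private theorem span_max {ℓ : ℕ} (hℓ : ℓ.Prime) : (Ideal.span {(ℓ : ℤ)}).IsMaximal :=
  PrincipalIdealRing.isMaximal_of_irreducible (Nat.prime_iff_prime_int.1 hℓ).irreducible

private theorem span_ne {ℓ : ℕ} (hℓ : ℓ.Prime) : Ideal.span {(ℓ : ℤ)} ≠ ⊥ := by
  rw [Ne, Ideal.span_singleton_eq_bot, Nat.cast_eq_zero]
  exact hℓ.ne_zero

private theorem mem_Pr0 {ℓ : ℕ} (hℓ : ℓ.Prime) {v : Ideal (𝓞 k)} :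
    v ∈ Pr k ℓ ↔ v.IsPrime ∧ v.LiesOver (Ideal.span {(ℓ : ℤ)}) := by
  have := span_max hℓ
  exact IsDedekindDomain.mem_primesOverFinset_iff (span_ne hℓ) (𝓞 k)

theorem mem_Pr {ℓ : ℕ} (hℓ : ℓ.Prime) {v : Ideal (𝓞 k)} :
    v ∈ Pr k ℓ ↔ v.IsPrime ∧ ((ℓ : ℕ) : 𝓞 k) ∈ v := by
  rw [mem_Pr0 hℓ]
  refine and_congr_right fun hv => ⟨fun h => ?_, fun h => ?_⟩
  · have h1 : (ℓ : ℤ) ∈ Ideal.span {(ℓ : ℤ)} := Ideal.mem_span_singleton_self _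
    rw [h.over, Ideal.under_def, Ideal.mem_comap, map_natCast] at h1
    exact h1
  · refine ⟨(span_max hℓ).eq_of_le ?_ ?_⟩
    · exact (hv.comap (algebraMap ℤ (𝓞 k))).ne_top
    · rw [Ideal.span_singleton_le_iff_mem, Ideal.under_def, Ideal.mem_comap, map_natCast]
      exact h

theorem card_Pr {ℓ : ℕ} (hℓ : ℓ.Prime) : (Pr k ℓ).card ≤ Module.finrank ℚ k := by
  have := span_max hℓ
  exact Ideal.card_primesOverFinset_le_finrank (𝓞 k) ℚ k (span_ne hℓ)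

theorem norm_Pr {ℓ : ℕ} (hℓ : ℓ.Prime) {v : Ideal (𝓞 k)} (hv : v ∈ Pr k ℓ) :
    ∃ f : ℕ, 0 < f ∧ Ideal.absNorm v = ℓ ^ f := by
  obtain ⟨h1, h2⟩ := (mem_Pr0 hℓ).1 hv
  have := span_max hℓ
  exact ⟨_, Ideal.inertiaDeg'_pos (Ideal.span {(ℓ : ℤ)}) v, Ideal.absNorm_eq_pow_inertiaDeg' v hℓ⟩

theorem exists_Pr {v : Ideal (𝓞 k)} (hv : v.IsPrime) (h0 : v ≠ ⊥) :
    ∃ ℓ : ℕ, ℓ.Prime ∧ v ∈ Pr k ℓ := by
  have h1 : ((Ideal.absNorm v : ℕ) : 𝓞 k) ∈ v := Ideal.absNorm_mem v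
  have h2 : Ideal.absNorm v ≠ 0 := by
    rw [Ne, Ideal.absNorm_eq_zero_iff]
    exact h0
  have key : ∀ n : ℕ, n ≠ 0 → ((n : ℕ) : 𝓞 k) ∈ v → ∃ ℓ : ℕ, ℓ.Prime ∧ ((ℓ : ℕ) : 𝓞 k) ∈ v := by
    intro n
    induction n using Nat.recOnMul with
    | zero => exact fun h => absurd rfl h
    | one =>
      intro _ h
      rw [Nat.cast_one] at h
      exact absurd ((Ideal.eq_top_iff_one v).2 h) hv.ne_top
    | prime p hp => exact fun _ h => ⟨p, hp, h⟩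
    | mul a b iha ihb =>
      intro hab h
      rw [Nat.cast_mul] at h
      rcases hv.mem_or_mem h with h | h
      · exact iha (left_ne_zero_of_mul hab) h
      · exact ihb (right_ne_zero_of_mul hab) h
  obtain ⟨ℓ, hℓ, h3⟩ := key _ h2 h1
  exact ⟨ℓ, hℓ, (mem_Pr hℓ).2 ⟨hv, h3⟩⟩

theorem Pr_unique {ℓ ℓ' : ℕ} (hℓ : ℓ.Prime) (hℓ' : ℓ'.Prime) {v : Ideal (𝓞 k)} (hv : v ∈ Pr k ℓ)
    (hv' : v ∈ Pr k ℓ') : ℓ = ℓ' := by
  obtain ⟨f, hf, h1⟩ := norm_Pr hℓ hv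
  obtain ⟨f', hf', h2⟩ := norm_Pr hℓ' hv'
  rw [h1] at h2
  have h3 : ℓ ∣ ℓ' ^ f' := by
    rw [← h2]
    exact dvd_pow_self _ hf.ne'
  exact (Nat.prime_dvd_prime_iff_eq hℓ hℓ').1 (hℓ.dvd_of_dvd_pow h3)

theorem Pr_nonempty {ℓ : ℕ} (hℓ : ℓ.Prime) : (Pr k ℓ).Nonempty := by
  have := span_max hℓ
  obtain ⟨Q, hQ⟩ := Ideal.nonempty_primesOver (S := 𝓞 k) (P := Ideal.span {(ℓ : ℤ)})
  exact ⟨Q, (mem_Pr0 hℓ).2 ⟨hQ.1, hQ.2⟩⟩

end Pool.Agent.H85.CP
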