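import Pool.Agent.H85.CP.PI
import Pool.Agent.H85.CP.LC
import Pool.Agent.H85.CP.MX
import Pool.Agent.H85.CP.DQ

/-!
# [H85 CP RAM] Ramified primes and discriminants of `LX E r`, `MX E r y`

* `ram_dvd`: suppose `q ∤ discr (LX E r)`. `exists_restr q` gives `ι, res`; `cp_ram` gives `γ ∈ Inr q` and `v` with `res γ (cx v.1) ≠ cx v.1`; but
  `cx v.1 ∈ LX E r` (`IntermediateField.subset_adjoin`) is fixed by `res γ` (`inr_fix`).
* `abs_le_of_primes`: `m` is squarefree and all its prime divisors divide `N`, so `m ∣ N` (`Squarefree` and prime factors: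
  `Nat.Squarefree`, `UniqueFactorizationMonoid`; e.g. `m.natAbs = ∏ of its primeFactors ∣ N`, `Nat.prod_primeFactors_of_squarefree`,
  `Nat.prod_primeFactors_dvd`), so `|m| ≤ N`.
* `MX_discr`: `LX E r ≤ MX E r y` (`le_sup_left`); make `MX E r y` an algebra over `LX E r` by `IntermediateField.inclusion`, check
  `adjoin (LX E r) {y} = ⊤` (the image of `adjoin` in `QB` contains `LX E r` and `y`, so it is `MX E r y`), and use `discr_quad`.
-/

set_option autoImplicit false

namespace Pool.Agent.H85.CP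

open NumberField Pool.Agent.H27.SU

theorem ram_dvd (E : WeierstrassCurve ℚ) [E.IsElliptic] (hj1 : E.j ≠ 1728) (r q : ℕ)
    [Fact r.Prime] [Fact q.Prime] (h5 : 5 ≤ q) (hqr : q ≠ r)
    (hv : 0 < padicValRat q (E.j - 1728)) (ho : Odd (padicValRat q (E.j - 1728)))
    [NumberField (LX E r)] [IsGalois ℚ (LX E r)] : (q : ℤ) ∣ discr (LX E r) := by
  by_contra hq
  obtain ⟨ι, res, hres⟩ := exists_restr q
  obtain ⟨γ, hγ, v, hv⟩ := cp_ram E hj1 r q h5 hqr hv ho ι res hres
  have hmem : cx v.1 ∈ LX E r := IntermediateField.subset_adjoin _ _ ⟨v, rfl⟩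
  exact hv (inr_fix (LX E r) hq ι (res γ) (hres γ) hγ ⟨cx v.1, hmem⟩)

theorem abs_le_of_primes {m : ℤ} (hm : Squarefree m) {N : ℕ} (hN : 0 < N)
    (h : ∀ q : ℕ, q.Prime → (q : ℤ) ∣ m → q ∣ N) : m.natAbs ≤ N := by
  have h1 : Squarefree m.natAbs := Int.squarefree_natAbs.2 hm
  rw [← Nat.prod_primeFactors_of_squarefree h1]
  refine Nat.le_of_dvd hN ?_
  refine (Finset.prod_dvd_prod_of_subset _ N.primeFactors (fun q => q) ?_).trans
    (Nat.prod_primeFactors_dvd N)
  intro q hq
  rw [Nat.mem_primeFactors] at hq ⊢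
  exact ⟨hq.1, h q hq.1 (Int.natCast_dvd.2 hq.2.1), hN.ne'⟩

theorem MX_discr (E : WeierstrassCurve ℚ) (r : ℕ) {m : ℤ} (hm : m ≠ 0) {y : QB}
    (hy : y ^ 2 = (m : QB)) [NumberField (LX E r)] [NumberField (MX E r y)] :
    (discr (MX E r y)).natAbs ≤
      (4 * m.natAbs) ^ Module.finrank ℚ (LX E r) * (discr (LX E r)).natAbs ^ 2 := by
  have hle : LX E r ≤ MX E r y := le_sup_left
  have hym : y ∈ MX E r y :=
    (le_sup_right : IntermediateField.adjoin ℚ {y} ≤ MX E r y)
      (IntermediateField.mem_adjoin_simple_self ℚ y)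
  let _ : Algebra (LX E r) (MX E r y) := (IntermediateField.inclusion hle).toRingHom.toAlgebra
  have : IsScalarTower ℚ (LX E r) (MX E r y) := IsScalarTower.of_algebraMap_eq fun x => rfl
  have hy' : (⟨y, hym⟩ : MX E r y) ^ 2 = ((m : ℤ) : MX E r y) := by
    apply Subtype.ext
    push_cast
    exact hy
  refine discr_quad (LX E r) (MX E r y) hm hy' ?_
  -- the field generated over `LX` by `y`
  have key : MX E r y ≤ ((IntermediateField.adjoin (LX E r) {(⟨y, hym⟩ : MX E r y)}).restrictScalars ℚ).map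
      (MX E r y).val := by
    refine sup_le ?_ ?_
    · intro x hx
      refine ⟨⟨x, hle hx⟩, ?_, rfl⟩
      exact IntermediateField.algebraMap_mem (IntermediateField.adjoin (LX E r)
        {(⟨y, hym⟩ : MX E r y)}) (⟨x, hx⟩ : LX E r)
    · rw [IntermediateField.adjoin_simple_le_iff]
      exact ⟨⟨y, hym⟩, IntermediateField.mem_adjoin_simple_self (LX E r) _, rfl⟩
  rw [eq_top_iff]
  intro x _
  obtain ⟨z, hz, hzx⟩ := key x.2
  have e : z = x := Subtype.ext hzx
  rw [← e]
  exact hz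

end Pool.Agent.H85.CP
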