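import Pool.Agent.H27.SU.GLdef
import Pool.Prelude.Def_F_7deccdcd

/-!
# THEOREM CP (MP_cda23d_nt): definitions for the final statement
-/

set_option autoImplicit false

namespace Pool.Agent.H85.CP

open WeierstrassCurve
open scoped Classical

/-- `σ²` acts as a scalar on the `r`-torsion of `E` -/
def SquareScalar (E : WeierstrassCurve ℚ) (r : ℕ)
    (σ : AlgebraicClosure ℚ ≃ₐ[ℚ] AlgebraicClosure ℚ) : Prop :=
  ∃ n : ℤ, ∀ P : (E.baseChange (AlgebraicClosure ℚ)).toAffine.Point, (r : ℤ) • P = 0 →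
    Affine.Point.map (W' := E) σ.toAlgHom (Affine.Point.map (W' := E) σ.toAlgHom P) = n • P

/-- `E[r]` is not dihedral for any imaginary quadratic field `ℚ(√m)` unramified at all primes `q = 1 mod 4`: some `σ`
moves `√m`, and `σ²` is not a scalar on `E[r]` -/
def NotDihedral (E : WeierstrassCurve ℚ) (r : ℕ) : Prop :=
  ∀ m : ℤ, m < 0 → Squarefree m → (∀ q : ℕ, q.Prime → q % 4 = 1 → ¬ (q : ℤ) ∣ m) →
    ∀ y : AlgebraicClosure ℚ, y ^ 2 = (m : AlgebraicClosure ℚ) →
      ∃ σ : AlgebraicClosure ℚ ≃ₐ[ℚ] AlgebraicClosure ℚ, σ y ≠ y ∧ ¬ SquareScalar E r σ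

/-- the number field generated by the `x`-coordinates of the points `P ≠ O` of `E` with `r P = O` -/
noncomputable def XField (E : WeierstrassCurve ℚ) (r : ℕ) :
    IntermediateField ℚ (AlgebraicClosure ℚ) :=
  IntermediateField.adjoin ℚ {x | ∃ (y : AlgebraicClosure ℚ)
    (h : (E.baseChange (AlgebraicClosure ℚ)).toAffine.Nonsingular x y),
    (r : ℤ) • (Affine.Point.some x y h) = 0}

end Pool.Agent.H85.CP
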