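import Pool.Agent.H85.CP.Zk
import Pool.Agent.H72.UZ.Main

/-!
# [H85 CP ZC] Continuation of `(s - 1) ζ_k(s)` with bounds polynomial in the discriminant

Chapter of helper77, helper72, helper8 (`Pool/Agent/H72/UZ`, `Pool/Agent/H77/UZ`, `Pool/Agent/H8/RI`).
-/

set_option autoImplicit false

namespace Pool.Agent.H85.CP

open NumberField

theorem zeta_cont (n : ℕ) (hn : 0 < n) : ∃ (A : ℕ) (C : ℝ), 0 < C ∧
    ∀ (k : Type) [Field k] [NumberField k], Module.finrank ℚ k ≤ n → ∃ Z : ℂ → ℂ,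
      DifferentiableOn ℂ Z {s | 1 - 1 / (n : ℝ) < s.re} ∧
      (∀ s : ℂ, 1 < s.re → Z s = (s - 1) * zk k s) ∧
      (∀ s : ℂ, ‖s - 2‖ ≤ 1 + 1 / (2 * n) → ‖Z s‖ ≤ C * |(discr k : ℝ)| ^ A) ∧
      1 ≤ C * |(discr k : ℝ)| ^ A * ‖Z 1‖ :=
  Pool.Agent.H72.UZ.zeta_cont n hn

end Pool.Agent.H85.CP
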