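import Mathlib

/-!
# THEOREM CP (MP_cda23d_nt): zeta functions and Euler factors, definitions
-/

set_option autoImplicit false

namespace Pool.Agent.H85.CP

open NumberField

noncomputable section

/-- the zeta function of `k` as a sum over the nonzero ideals -/
def zk (k : Type) [Field k] [NumberField k] (s : ℂ) : ℂ :=
  ∑' I : {I : Ideal (𝓞 k) // I ≠ ⊥}, (Ideal.absNorm (I : Ideal (𝓞 k)) : ℂ) ^ (-s)

/-- the primes of `k` above `ℓ` -/
def Pr (k : Type) [Field k] [NumberField k] (ℓ : ℕ) : Finset (Ideal (𝓞 k)) :=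
  IsDedekindDomain.primesOverFinset (Ideal.span {(ℓ : ℤ)}) (𝓞 k)

/-- the Euler factor of `k` at `ℓ` -/
def EF (k : Type) [Field k] [NumberField k] (ℓ : ℕ) (s : ℂ) : ℂ :=
  ∏ v ∈ Pr k ℓ, (1 - (Ideal.absNorm v : ℂ) ^ (-s))⁻¹

end

end Pool.Agent.H85.CP
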